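import Pool.Agent.V5helper99.OB.Defs

/-!
# The outer boundary of critical clusters: the steps (every step is a `Prop`; nothing is assumed)
-/

set_option autoImplicit false

namespace Pool.Agent.V5helper99.OB

open H974 H12S Finset H984P H984N

/-- BOX: the box event has positive probability, for some pattern. -/
def S_BOX : Prop := ∀ t : ℝ, 0 < t → t < 4 / 3 →
  ∃ (M B N r a0 : ℕ) (c0 E0 p : ℝ), 1 ≤ M ∧ 1 ≤ B ∧ 8 ≤ r ∧ 64 * r ≤ N ∧ 1 ≤ a0 ∧ 0 < c0 ∧ 0 < E0 ∧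
    0 < p ∧ ∀ a : ℕ, a0 ≤ a → ∃ (Z : Finset (ℤ × ℤ)) (yh : ℤ), Pat N Z yh ∧
      p ≤ PQ (1 / 2) (TP N a) (Bev M B N r c0 E0 t a Z yh)

/-- BIG: bounded expected number of large clusters of a rectangle, in the form of marked
vertices: if distinct vertices of `V F` lie in distinct large clusters, the expected cardinality of
`V` is bounded. -/
def S_BIG : Prop := ∃ C : ℝ, 0 < C ∧ ∀ (ρ : ℕ), 1 ≤ ρ → ∀ (a b c d : ℤ), b - a ≤ 16 * ρ →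
  d - c ≤ 16 * ρ → ∀ (P : Vtx → Finset Edg → Prop) (I : Finset Vtx),
  (∀ F ⊆ RE a b c d, ∀ v ∈ I, P v F → ∃ w, (ρ : ℤ) ≤ sd v w ∧ Reach (↑F : Set Edg) v w) →
  (∀ F ⊆ RE a b c d, ∀ v ∈ I, ∀ w ∈ I, P v F → P w F → Reach (↑F : Set Edg) v w → v = w) →
  ∑ v ∈ I, PQ (1 / 2) (RE a b c d) (P v) ≤ C

/-- LL: the number of extreme vertices of large clusters in a box. -/
def S_LL : Prop := ∃ C : ℝ, 0 < C ∧ ∀ (n ρ : ℕ), 8 ≤ ρ → ∀ z : Vtx,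
  ∑ v ∈ ctr z (ρ / 8), PQ (1 / 2) (RE 0 n 0 n) (fun F => Lloc ρ v ↑F) ≤ C

/-- DTP: probability of a large dual cluster near a line. -/
def S_DT : Prop := ∃ C : ℝ, 0 < C ∧ ∀ (R θ : ℕ) (A y1 : ℤ), 16 ≤ R → 16 * θ ≤ R → ∀ S : Finset Edg,
  DBx A y1 R ⊆ ↑S → PQ (1 / 2) S (fun F => DT A y1 R θ ↑F) ≤ C * (θ + 1) / R

end Pool.Agent.V5helper99.OB
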