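import Pool.Agent.V5helper99.OB.StrandX
import Pool.Agent.V5helper90.LL.Defs

/-!
# The outer boundary of critical clusters: the steps, part 2 (every step is a `Prop`; nothing is
assumed)
-/

set_option autoImplicit false

namespace Pool.Agent.V5helper99.OB

open H974 H12S Finset H984P H984N H342P

/-- The strand which starts at `v` (the upper boundary of the cluster of `v`, explored until the
column `v.1 + m`) has a vertex at horizontal distance at most `θ` from the column of `v`, at a height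
between `lo` and `hi`. -/
def Tch (v : Vtx) (m : ℕ) (θ lo hi : ℤ) (F : Finset Edg) : Prop :=
  ∃ (Y : ℤ) (T : ℕ), Strand (insert (v.1 - 1, v.2, true) (↑F : Set Edg)) v.1 v.2 (v.1 + m) Y T ∧
    ∃ x ∈ LV (insert (v.1 - 1, v.2, true) (↑F : Set Edg)) v.1 v.2 T, x.1 ≤ v.1 + θ ∧
      lo ≤ x.2 ∧ x.2 ≤ hi

/-- TOUCH: the strand rarely comes near the column of `v` at the distance `13 ρ` to `17 ρ` below
`v`. -/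
def S_TOUCH : Prop := ∀ ε : ℝ, 0 < ε → ∀ σ : ℝ, 0 < σ → ∃ (θ : ℝ) (n0 : ℕ), 0 < θ ∧
  ∀ n : ℕ, n0 ≤ n → ∀ m ρ : ℕ, σ * n ≤ ρ → 64 * ρ ≤ m → m ≤ n →
    ∑ v ∈ (Finset.Icc (0:ℤ) n ×ˢ Finset.Icc (0:ℤ) n).filter (fun v : Vtx => (n : ℤ) ≤ 2 * v.2),
      PQ (1 / 2) (RE 0 n 0 n) (fun F => Lf v m (↑F : Set Edg) ∧
        Tch v m ⌊θ * n⌋ (v.2 - 17 * ρ) (v.2 - 13 * ρ) F) ≤ ε

/-- NUM: bounded expected number of large clusters. -/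
def S_NUM : Prop := ∀ σ : ℝ, 0 < σ → ∃ C : ℝ, 0 < C ∧ ∀ n : ℕ, 1 ≤ n → ∀ m : ℕ, σ * n ≤ m →
  ∑ v ∈ Finset.Icc (0:ℤ) n ×ˢ Finset.Icc (0:ℤ) n,
    PQ (1 / 2) (RE 0 n 0 n) (fun F => Lf v m (↑F : Set Edg)) ≤ C

/-- CORE: many independent windows. -/
def S_CORE : Prop := ∀ t : ℝ, 0 < t → t < 4 / 3 → ∃ c1 : ℝ, 0 < c1 ∧ c1 ≤ 1 ∧
  ∀ (θ σ : ℝ), 0 < θ → 0 < σ → ∃ (E : ℝ) (B : ℕ) (M K : ℝ) (n0 : ℕ), 0 < E ∧ 1 ≤ B ∧ 0 < M ∧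
    0 ≤ K ∧ ∀ n : ℕ, n0 ≤ n → ∀ (m ρ J : ℕ), σ * n ≤ ρ → 64 * 2 ^ J * ρ ≤ m → m ≤ n →
      ∀ v : Vtx, v ∈ Finset.Icc (0:ℤ) n ×ˢ Finset.Icc (0:ℤ) n → (n : ℤ) ≤ 2 * v.2 →
        PQ (1 / 2) (RE 0 n 0 n) (fun F => Lf v m (↑F : Set Edg) ∧
          (∀ j < J, ¬ Tch v m ⌊θ * n⌋ (v.2 - 17 * (2 ^ j * ρ : ℕ)) (v.2 - 13 * (2 ^ j * ρ : ℕ)) F) ∧
          ¬ Pool.Agent.V5helper90.LL.Wit n {w | Reach (↑F : Set Edg) v w} t E B M K) ≤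
        (1 - c1) ^ J * PQ (1 / 2) (RE 0 n 0 n) (fun F => Lf v m (↑F : Set Edg))

/-- ASM: the assembly. -/
def S_ASM : Prop := S_TOUCH → S_NUM → S_CORE → Pool.Agent.V5helper90.LL.DW

end Pool.Agent.V5helper99.OB
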