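import Pool.Agent.V5helper99.OB.Dock3
import Pool.Agent.V5helper99.OB.Stm
import Pool.Agent.V5helper99.OB.Stm2

/-!
# CORE: conditionally on the strand there are many independent windows
-/

set_option autoImplicit false
set_option maxHeartbeats 4000000

namespace Pool.Agent.V5helper99.OB

open H974 H12S Finset H984P H984N Pool.Agent.V5helper90.LL

theorem strand_unique {F : Set Edg} {A y0 X Y Y' : ℤ} {T T' : ℕ} (h : Strand F A y0 X Y T)
    (h' : Strand F A y0 X Y' T') : T = T' := by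
  rcases lt_trichotomy T T' with h1 | h1 | h1
  · have := (h'.stay T h1).2
    rw [h.tip] at this
    simp at this
  · exact h1
  · have := (h.stay T' h1).2
    rw [h'.tip] at this
    simp at this

open Classical in
/-- The stopping set: the examined edges of the strand. -/
noncomputable def Kx (n m : ℕ) (v : Vtx) (F : Finset Edg) : Finset Edg :=
  if h : ∃ T, ∃ Y, Strand (insert (v.1 - 1, v.2, true) (↑F : Set Edg)) v.1 v.2 (v.1 + m) Y T then
    Exm (insert (v.1 - 1, v.2, true) (↑F : Set Edg)) (st0 v.1 v.2) (Classical.choose h) ∩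
      RE 0 n 0 n
  else RE 0 n 0 n

theorem Kx_of {n m : ℕ} {v : Vtx} {F : Finset Edg} {Y : ℤ} {T : ℕ}
    (h : Strand (insert (v.1 - 1, v.2, true) (↑F : Set Edg)) v.1 v.2 (v.1 + m) Y T) :
    Kx n m v F = Exm (insert (v.1 - 1, v.2, true) (↑F : Set Edg)) (st0 v.1 v.2) T ∩
      RE 0 n 0 n := by
  have hex : ∃ T, ∃ Y, Strand (insert (v.1 - 1, v.2, true) (↑F : Set Edg)) v.1 v.2 (v.1 + m) Y T :=
    ⟨T, Y, h⟩
  unfold Kx
  rw [dif_pos hex]
  obtain ⟨Y', h'⟩ := Classical.choose_spec hex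
  rw [strand_unique h h']

theorem agree {F F' S k : Finset Edg} {ent : Edg} (hF : F ⊆ S) (hF' : F' ⊆ S) (hk : ent ∉ k)
    (h : F ∩ (k ∩ S) = F' ∩ (k ∩ S)) :
    ∀ e ∈ k, (e ∈ (insert ent (↑F : Set Edg)) ↔ e ∈ (insert ent (↑F' : Set Edg))) := by
  intro e he
  have hne : e ≠ ent := fun h1 => hk (h1 ▸ he)
  have h2 : e ∈ F ↔ e ∈ F' := by
    constructor
    · intro h3
      have : e ∈ F ∩ (k ∩ S) := by
        rw [Finset.mem_inter, Finset.mem_inter]; exact ⟨h3, he, hF h3⟩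
      rw [h] at this
      exact (Finset.mem_inter.1 this).1
    · intro h3
      have : e ∈ F' ∩ (k ∩ S) := by
        rw [Finset.mem_inter, Finset.mem_inter]; exact ⟨h3, he, hF' h3⟩
      rw [← h] at this
      exact (Finset.mem_inter.1 this).1
  rw [Set.mem_insert_iff, Set.mem_insert_iff, mem_coe, mem_coe, h2]

/-- transfer of the strand -/
theorem transfer {n m : ℕ} {v : Vtx} {F F' : Finset Edg} (hF : F ⊆ RE 0 n 0 n)
    (hF' : F' ⊆ RE 0 n 0 n) (hK : F ∩ Kx n m v F = F' ∩ Kx n m v F) {Y : ℤ} {T : ℕ}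
    (h : Strand (insert (v.1 - 1, v.2, true) (↑F : Set Edg)) v.1 v.2 (v.1 + m) Y T) :
    Strand (insert (v.1 - 1, v.2, true) (↑F' : Set Edg)) v.1 v.2 (v.1 + m) Y T ∧
    Exm (insert (v.1 - 1, v.2, true) (↑F' : Set Edg)) (st0 v.1 v.2) T =
      Exm (insert (v.1 - 1, v.2, true) (↑F : Set Edg)) (st0 v.1 v.2) T ∧
    LV (insert (v.1 - 1, v.2, true) (↑F' : Set Edg)) v.1 v.2 T =
      LV (insert (v.1 - 1, v.2, true) (↑F : Set Edg)) v.1 v.2 T := by
  rw [Kx_of h] at hK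
  have hent : ((v.1 - 1, v.2, true) : Edg) ∉
      Exm (insert (v.1 - 1, v.2, true) (↑F : Set Edg)) (st0 v.1 v.2) T := fun he =>
    (exm_loc h he).2.2 rfl
  have ha := agree hF hF' hent hK
  refine ⟨strand_congr h ha (Set.mem_insert _ _), Exm_congr ha, ?_⟩
  ext x
  constructor
  · rintro ⟨s, hs, rfl⟩
    exact ⟨s, hs, by rw [orb_congr ha hs]⟩
  · rintro ⟨s, hs, rfl⟩
    exact ⟨s, hs, by rw [orb_congr ha hs]⟩

theorem Kx_sub {n m : ℕ} {v : Vtx} (F : Finset Edg) : Kx n m v F ⊆ RE 0 n 0 n := by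
  unfold Kx
  split
  · exact Finset.inter_subset_right
  · exact Finset.Subset.refl _

theorem Kx_stop {n m : ℕ} {v : Vtx} : H12S.Stop (RE 0 n 0 n) (Kx n m v) := by
  intro F F' hF hF' hK
  by_cases hex : ∃ T, ∃ Y,
      Strand (insert (v.1 - 1, v.2, true) (↑F : Set Edg)) v.1 v.2 (v.1 + m) Y T
  · obtain ⟨T, Y, h⟩ := hex
    obtain ⟨h1, h2, _⟩ := transfer hF hF' hK h
    rw [Kx_of h, Kx_of h1, h2]
  · have h1 : Kx n m v F = RE 0 n 0 n := by
      unfold Kx
      rw [dif_neg hex]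
    rw [h1, Finset.inter_eq_left.2 hF, Finset.inter_eq_left.2 hF'] at hK
    rw [hK]

theorem UU_disj {S k : Finset Edg} {v : Vtx} {ρ : ℕ} {i j : ℕ} (hij : i ≠ j) :
    Disjoint (UU S k (W00 v (2 ^ i * ρ))) (UU S k (W00 v (2 ^ j * ρ))) := by
  wlog h : i < j with H
  · exact (H hij.symm (by omega)).symm
  rw [Finset.disjoint_left]
  intro e h1 h2
  have h3 := (mem_UU.1 h1).2.1
  have h4 := (mem_UU.1 h2).2.1
  rw [mem_W00] at h3 h4
  have h5 : 2 ^ (i + 1) * ρ ≤ 2 ^ j * ρ := Nat.mul_le_mul_right _ (Nat.pow_le_pow_right (by norm_num) h)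
  have h6 : 2 ^ (i + 1) * ρ = 2 * (2 ^ i * ρ) := by ring
  rw [h6] at h5
  have h7 : (2 : ℤ) * ((2 ^ i * ρ : ℕ) : ℤ) ≤ ((2 ^ j * ρ : ℕ) : ℤ) := by exact_mod_cast h5
  omega

theorem t_CORE (hBOX : S_BOX) : S_CORE := by
  classical
  intro t ht0 ht1
  obtain ⟨M, B, N, r, a0, c0, E0, p, hM, hB, hr1, hr, ha0, hc0, hE0, hp, hbox⟩ := hBOX t ht0 ht1
  obtain ⟨κ, hκ0, hκ⟩ := win_half
  obtain ⟨kk, hk⟩ := hh_long (64 * N + 2048)
  have ok : Ok (fun _ : Edg => (1/2 : ℝ)) := okq (by norm_num) (by norm_num)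
  set cc : ℝ := p * (1/2) ^ (8 * kk) * κ ^ (4 * (2 * (32 * (4000 * (2 * N + 12))) + 1) ^ 2)
    with hcc
  have hcc0 : 0 < cc := by positivity
  refine ⟨min cc 1, lt_min hcc0 one_pos, min_le_right _ _, ?_⟩
  intro θ σ hθ hσ
  set s : ℝ := min θ σ / (128 * (2 * N + 12)) with hsd
  have hden : (0:ℝ) < 128 * (2 * N + 12) := by positivity
  have hs : 0 < s := div_pos (lt_min hθ hσ) hden
  have hs1 : s * (128 * (2 * N + 12)) = min θ σ := by rw [hsd]; field_simp
  have hsθ : s * (128 * (2 * N + 12)) ≤ θ := by rw [hs1]; exact min_le_left _ _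
  have hsσ : s * (128 * (2 * N + 12)) ≤ σ := by rw [hs1]; exact min_le_right _ _
  refine ⟨E0 / c0 ^ 2 * s ^ (-t), B, M + ((3 * (4000 * (2 * N + 12)) + 4 : ℕ) : ℝ) ^ B / s, 1,
    ⌈((a0 : ℝ) + 64) / s⌉₊, by positivity, hB, by positivity, zero_le_one, ?_⟩
  intro n hn m ρ J hσρ hJm hmn v hv hvy
  have hsn : (a0 : ℝ) + 64 ≤ s * n := by
    have h1 : ((a0 : ℝ) + 64) / s ≤ n := (Nat.le_ceil _).trans (by exact_mod_cast hn)
    rw [div_le_iff₀ hs] at h1
    linarith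
  have h64 : (64 : ℝ) ≤ s * n := by have := Nat.cast_nonneg (α := ℝ) a0; linarith
  have ha0n : (a0 : ℝ) ≤ s * n := by linarith
  have hn' : (0:ℝ) < n := by
    rcases Nat.eq_zero_or_pos n with h | h
    · rw [h] at h64; norm_num at h64
    · exact_mod_cast h
  have hρ1 : 1 ≤ ρ := by
    have : (0:ℝ) < ρ := lt_of_lt_of_le (by positivity) hσρ
    exact_mod_cast this
  have hm1 : 1 ≤ m := by
    have : 1 ≤ 64 * 2 ^ J * ρ := Nat.one_le_iff_ne_zero.2 (by positivity)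
    omega
  rw [Finset.mem_product, Finset.mem_Icc, Finset.mem_Icc] at hv
  obtain ⟨⟨hv1, hv1n⟩, hv2, hvn⟩ := hv
  set S := RE 0 (n : ℤ) 0 n with hS
  set Aev : Finset Edg → Prop := fun F =>
    (∃ Y T, Strand (insert (v.1 - 1, v.2, true) (↑F : Set Edg)) v.1 v.2 (v.1 + m) Y T) ∧
    (∀ j < J, ¬ Tch v m ⌊θ * n⌋ (v.2 - 17 * (2 ^ j * ρ : ℕ)) (v.2 - 13 * (2 ^ j * ρ : ℕ)) F)
    with hAev
  set E' : ℝ := E0 / c0 ^ 2 * s ^ (-t) with hE'
  set M' : ℝ := M + ((3 * (4000 * (2 * N + 12)) + 4 : ℕ) : ℝ) ^ B / s with hM'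
  have main : Pr (fun _ : Edg => (1/2 : ℝ)) S (fun F => Aev F ∧ (Xc v (↑F : Set Edg) ∧
      ¬ Wit n {w | Reach (↑F : Set Edg) v w} t E' B M' 1)) ≤
      (1 - min cc 1) ^ J * Pr (fun _ : Edg => (1/2 : ℝ)) S
        (fun F => Aev F ∧ Xc v (↑F : Set Edg)) := by
    refine markov_ratio ok (K := Kx n m v) (fun F _ => Kx_sub F) Kx_stop ?_ ?_
    · rintro F F' hF hF' hK ⟨⟨Y, T, hst⟩, hnt⟩
      obtain ⟨h1, h2, h3⟩ := transfer hF hF' hK hst
      refine ⟨⟨Y, T, h1⟩, ?_⟩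
      rintro j hj ⟨Y', T', hst', x, hx, hx1, hx2, hx3⟩
      refine hnt j hj ⟨Y, T, hst, x, ?_, hx1, hx2, hx3⟩
      have := strand_unique h1 hst'
      subst this
      rw [← h3]
      exact hx
    · rintro F0 hF0 ⟨⟨Y, T, hst⟩, hnt⟩
      rw [Kx_of hst]
      set k := Exm (insert (v.1 - 1, v.2, true) (↑F0 : Set Edg)) (st0 v.1 v.2) T with hkd
      have e1 : S \ (k ∩ RE 0 (n:ℤ) 0 n) = S \ k := MK_sdiff (Finset.Subset.refl _) k
      have e2 : F0 ∩ (k ∩ RE 0 (n:ℤ) 0 n) = F0 ∩ k := MK_inter hF0 k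
      rw [e1, e2]
      set H0 := F0 ∩ k with hH0
      have hvR : inR 0 n 0 n (v.1, v.2) := ⟨⟨hv1, hv1n⟩, hv2, hvn⟩
      obtain ⟨P, sdd, hcon⟩ := SD_of_strand (by exact_mod_cast hF0) hvR hst
      set L := LV (insert (v.1 - 1, v.2, true) (↑F0 : Set Edg)) v.1 v.2 T with hL
      have hconn : ∀ x ∈ L, Reach (↑(H0 ∩ k) : Set Edg) v x := by
        intro x hx
        refine (hcon x hx).mono ?_
        rw [hH0, Finset.inter_assoc, Finset.inter_self, Finset.coe_inter]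
      have hH0k : H0 ⊆ k := Finset.inter_subset_right
      have hH0S : H0 ⊆ S := Finset.inter_subset_left.trans hF0
      have hvm : v.1 + m ≤ n := by
        have h1 : (v.1 + (m:ℤ), Y) ∈ L := ⟨T, le_rfl, by rw [hst.tip]⟩
        have h2 := reach_RE (n := n) (F := (↑F0 : Set Edg)) (by exact_mod_cast hF0) hvR
          ((hcon _ h1).mono Set.inter_subset_left)
        exact h2.1.2
      by_cases hZ : ∃ y, v.2 < y ∧ (v.1, y) ∈ L
      · obtain ⟨y, hy, hyL⟩ := hZ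
        have hXf : ∀ G : Finset Edg, ¬ Xc v (↑(H0 ∪ G) : Set Edg) := by
          intro G hX
          have h1 : Reach (↑(H0 ∪ G) : Set Edg) v (v.1, y) := by
            refine (hconn _ hyL).mono ?_
            exact_mod_cast (Finset.inter_subset_left.trans Finset.subset_union_left)
          have := (hX _ h1).2 rfl
          simp only at this
          omega
        rw [MK_false _ _ (fun G _ h => hXf G h.1), MK_false _ _ (fun G _ h => hXf G h), mul_zero]
      · push Not at hZ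
        have hdock : ∀ j, j < J → DockC S k v (W00 v (2 ^ j * ρ)) H0 n t E' B M' cc := by
          intro j hj
          have h1 : 2 ^ (j + 1) * ρ ≤ 2 ^ J * ρ :=
            Nat.mul_le_mul_right _ (Nat.pow_le_pow_right (by norm_num) hj)
          have h2 : 2 ^ (j + 1) * ρ = 2 * (2 ^ j * ρ) := by ring
          have h3 : 64 * 2 ^ J * ρ = 64 * (2 ^ J * ρ) := by ring
          have h4 : 128 * (2 ^ j * ρ) ≤ m := by omega
          have h4' : ((128 * (2 ^ j * ρ) : ℕ) : ℤ) ≤ m := by exact_mod_cast h4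
          have h5 : ρ ≤ 2 ^ j * ρ := Nat.le_mul_of_pos_left _ (by positivity)
          have h6 : (ρ : ℝ) ≤ ((2 ^ j * ρ : ℕ) : ℝ) := by exact_mod_cast h5
          refine dock (ρ := 2 ^ j * ρ) (K := 64 * N + 2048) (P := P) (L := L) sdd hv1 hvm hvn
            (by omega) h4 (fun y hy => hZ y hy) ?_ hr1 hr hM hB hc0 hE0 hκ0 hκ ht0 hbox hk le_rfl
            hs hsθ hsσ (hσρ.trans h6) ha0n h64 hH0k hH0S hconn
          intro x hx k1 k2 k3
          exact hnt j hj ⟨Y, T, hst, x, hx, k1, k2, k3⟩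
        choose! Gd hGd1 hGd2 hGd3 using hdock
        have hiter := iter_win ok (S := S \ k) (X := fun G => Xc v (↑(H0 ∪ G) : Set Edg))
          (U := fun j => UU S k (W00 v (2 ^ j * ρ))) (Gd := Gd) (c := min cc 1)
          (min_le_right _ _) J (fun j _ => Finset.filter_subset _ _)
          (fun i _ j _ hij => UU_disj hij) (fun j hj F _ => hGd1 j hj F) (fun j hj H hH => by
            refine le_trans ?_ (hGd2 j hj H hH)
            exact mul_le_mul_of_nonneg_right (min_le_left _ _) (Pr_nonneg ok _ _))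
        refine le_trans (Pr_mono ok ?_) hiter
        rintro G hG ⟨hX, hW⟩
        exact ⟨hX, fun j hj hGj => hW (hGd3 j hj G hG hX hGj)⟩
  calc PQ (1 / 2) S (fun F => Lf v m (↑F : Set Edg) ∧
          (∀ j < J, ¬ Tch v m ⌊θ * n⌋ (v.2 - 17 * (2 ^ j * ρ : ℕ))
            (v.2 - 13 * (2 ^ j * ρ : ℕ)) F) ∧
          ¬ Wit n {w | Reach (↑F : Set Edg) v w} t E' B M' 1)
      ≤ Pr (fun _ : Edg => (1/2 : ℝ)) S (fun F => Aev F ∧ (Xc v (↑F : Set Edg) ∧
          ¬ Wit n {w | Reach (↑F : Set Edg) v w} t E' B M' 1)) := by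
        apply Pr_mono ok
        rintro F hF ⟨h1, h2, h3⟩
        exact ⟨⟨strand_of_Lf hm1 h1, h2⟩, h1.2, h3⟩
    _ ≤ _ := main
    _ ≤ (1 - min cc 1) ^ J * PQ (1 / 2) S (fun F => Lf v m (↑F : Set Edg)) := by
        apply mul_le_mul_of_nonneg_left _ (pow_nonneg (by have := min_le_right cc 1; linarith) _)
        apply Pr_mono ok
        rintro F hF ⟨⟨⟨Y, T, hst⟩, _⟩, hX⟩
        refine ⟨⟨(v.1 + m, Y), le_rfl, ?_⟩, hX⟩
        have h1 := strand_reach hst (le_refl T)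
        rw [hst.tip] at h1
        refine h1.mono ?_
        rintro e ⟨he, he1, he2⟩
        rcases he with he | he
        · exact absurd he he2
        · exact he

end Pool.Agent.V5helper99.OB
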