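import Pool.Agent.Y989.FR.Defs

/-!
# The outer boundary of critical clusters: definitions of the one-box event

Everything is at `p = 1/2`.  `a` is the size of a cell; `T` is the box of half width `N a` and half
height `2 N a` around `(0, 0)`, `T⁺` is the box `T` enlarged by `10 a`.
-/

set_option autoImplicit false

namespace Pool.Agent.V5helper99.OB

open H974 H12S Finset H984P H984N

/-- The edges of the box `T`. -/
noncomputable def TE (N a : ℕ) : Finset Edg :=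
  RE (-(N * a : ℕ)) (N * a : ℕ) (-(2 * N * a : ℕ)) (2 * N * a : ℕ)

/-- The edges of the box `T⁺`. -/
noncomputable def TP (N a : ℕ) : Finset Edg :=
  RE (-((N + 10) * a : ℕ)) ((N + 10) * a : ℕ) (-((2 * N + 10) * a : ℕ)) ((2 * N + 10) * a : ℕ)

/-- The vertices at distance at most `k a` of the points `a z`, `z ∈ Z` (the cells). -/
def rgn (Z : Finset (ℤ × ℤ)) (a k : ℕ) : Set Vtx :=
  {x | ∃ z ∈ Z, |x.1 - z.1 * a| ≤ (k * a : ℕ) ∧ |x.2 - z.2 * a| ≤ (k * a : ℕ)}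

/-- `C` is an open cluster of the box `T`. -/
def IsT (N a : ℕ) (G : Set Edg) (C : Finset Vtx) : Prop :=
  ∃ w ∈ C, ∀ x, x ∈ C ↔ Reach (G ∩ ↑(TE N a)) w x

open Classical in
/-- The edges of `T` which touch `C`. -/
noncomputable def tE (N a : ℕ) (C : Finset Vtx) : Finset Edg :=
  (TE N a).filter (fun e => src e ∈ C ∨ tgt e ∈ C)

/-- The allowed set of cells, with the mouth at height `yh` on the left side. -/
structure Pat (N : ℕ) (Z : Finset (ℤ × ℤ)) (yh : ℤ) : Prop where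
  bd : ∀ z ∈ Z, |z.1| ≤ N ∧ |z.2| ≤ N
  mth : (-(N : ℤ), yh) ∈ Z

/-- Vertices where a path which starts at `w` keeps away from `C`. -/
def Ky (M B r a : ℕ) (Z : Finset (ℤ × ℤ)) (C : Finset Vtx) (w : Vtx) : Set Vtx :=
  {x | (sd x (0, 0) ≤ (4 * r * a : ℕ) ∨ x ∈ rgn Z a 1) ∧
    ∀ c ∈ C, sd x w ^ B ≤ (M : ℤ) * (a : ℤ) ^ (B - 1) * (sd x c + 1)}

/-- A thick chain from `w` to the mouth. -/
def Chn (M B N r a : ℕ) (Z : Finset (ℤ × ℤ)) (yh : ℤ) (C : Finset Vtx) (w : Vtx) : Prop :=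
  ∃ y ∈ rgn {(-(N : ℤ), yh)} a 1,
    Relation.ReflTransGen (fun x y => y ∈ Ky M B r a Z C w ∧ sd x y ≤ 1) w y

/-- The good clusters. -/
def GoodC (M B N r : ℕ) (c0 E0 t : ℝ) (a : ℕ) (Z : Finset (ℤ × ℤ)) (yh : ℤ)
    (C : Finset Vtx) : Prop :=
  (∀ x ∈ C, x ∉ rgn Z a 16) ∧ ∃ V ⊆ C, c0 * (a : ℝ) ^ (4 / 3 : ℝ) ≤ (V.card : ℝ) ∧
    (∑ v ∈ V, ∑ w ∈ V, ((max (sd v w) 1 : ℤ) : ℝ) ^ (-t)) ≤ E0 * (a : ℝ) ^ (8 / 3 - t) ∧
    ∀ w ∈ V, sd w (0, 0) ≤ (r * a : ℕ) ∧ Chn M B N r a Z yh C w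

/-- The part of `T⁺` where all the clusters except `C` will be small. -/
def WS (N r a : ℕ) (Z : Finset (ℤ × ℤ)) (yh : ℤ) : Set Vtx :=
  {x | x ∈ rgn Z a 4 ∨ (|x.1 + (N * a : ℕ)| ≤ (16 * a : ℕ) ∧ |x.2 - yh * a| ≤ (16 * a : ℕ)) ∨
    sd x (0, 0) ≤ (8 * r * a : ℕ)}

/-- `C` is connected to the boundary of `T⁺` outside of `WS`. -/
def Esc (N r a : ℕ) (Z : Finset (ℤ × ℤ)) (yh : ℤ) (C : Finset Vtx) (G : Set Edg) : Prop :=
  ∃ c ∈ C, ∃ y : Vtx, (|y.1| = ((N + 10) * a : ℕ) ∨ |y.2| = ((2 * N + 10) * a : ℕ)) ∧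
    Reach (G ∩ {e | e ∈ TP N a ∧ e ∉ tE N a C ∧ src e ∉ WS N r a Z yh ∧ tgt e ∉ WS N r a Z yh}) c y

/-- The box event. -/
def Bev (M B N r : ℕ) (c0 E0 t : ℝ) (a : ℕ) (Z : Finset (ℤ × ℤ)) (yh : ℤ) (G : Finset Edg) : Prop :=
  ∃ C : Finset Vtx, IsT N a ↑G C ∧ GoodC M B N r c0 E0 t a Z yh C ∧ Esc N r a Z yh C ↑G

/-! ### Counting -/

/-- `v` is the highest of the leftmost vertices of its cluster in the box of radius `ρ` around `v`,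
and this cluster reaches the distance `ρ`. -/
def Lloc (ρ : ℕ) (v : Vtx) (F : Set Edg) : Prop :=
  (∃ w, sd w v = ρ ∧ Reach (F ∩ ↑(blk v ρ)) v w) ∧
    ∀ w, Reach (F ∩ ↑(blk v ρ)) v w → v.1 ≤ w.1 ∧ (w.1 = v.1 → w.2 ≤ v.2)

/-- The edges `e` with `A ≤ e.1` which separate two faces of the box of faces
`[A - 1, A + R] × [y1 - R, y1 + R]`. -/
def DBx (A y1 : ℤ) (R : ℕ) : Set Edg :=
  {e | A ≤ e.1 ∧ inR (A - 1) (A + R) (y1 - R) (y1 + R) (dsrc e) ∧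
    inR (A - 1) (A + R) (y1 - R) (y1 + R) (dtgt e)}

/-- A large closed dual cluster of the box of faces `[A - 1, A + R] × [y1 - R, y1 + R]` comes near
the left side without touching it. -/
def DT (A y1 : ℤ) (R θ : ℕ) (F : Set Edg) : Prop :=
  ∃ f : Vtx, A ≤ f.1 ∧ f.1 ≤ A + θ ∧ |f.2 - y1| ≤ (R / 4 : ℕ) ∧
    (∃ g, (R / 4 : ℕ) ≤ sd g f ∧ DReach (DBx A y1 R \ F) f g) ∧
    ∀ g, DReach (DBx A y1 R \ F) f g → A ≤ g.1

end Pool.Agent.V5helper99.OB
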