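import Pool.Agent.V5helper99.OB.StrandX
import Pool.Agent.V5helper99.OB.Defs

/-!
# Deterministic facts about trapped clusters
-/

set_option autoImplicit false
set_option maxHeartbeats 4000000

namespace Pool.Agent.V5helper99.OB

open H974 H12S Finset H984P H984N

theorem sd_comm (u v : Vtx) : sd u v = sd v u := by
  unfold sd
  rw [abs_sub_comm u.1, abs_sub_comm u.2]

theorem sd_self (u : Vtx) : sd u u = 0 := by unfold sd; simp

theorem sd_nonneg (u v : Vtx) : 0 ≤ sd u v := le_trans (abs_nonneg _) (le_max_left _ _)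

theorem sd_tri (u v w : Vtx) : sd u w ≤ sd u v + sd v w := by
  unfold sd
  refine max_le ?_ ?_
  · exact (abs_sub_le u.1 v.1 w.1).trans (add_le_add (le_max_left _ _) (le_max_left _ _))
  · exact (abs_sub_le u.2 v.2 w.2).trans (add_le_add (le_max_right _ _) (le_max_right _ _))

theorem sd_le_iff {u v : Vtx} {r : ℤ} : sd u v ≤ r ↔ |u.1 - v.1| ≤ r ∧ |u.2 - v.2| ≤ r := by
  unfold sd; exact max_le_iff

/-- the two ends of an edge -/
def Ends (e : Edg) (u u' : Vtx) : Prop := (src e = u ∧ tgt e = u') ∨ (src e = u' ∧ tgt e = u)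

theorem Ends.symm {e : Edg} {u u' : Vtx} (h : Ends e u u') : Ends e u' u := Or.symm h

theorem Ends.sd {e : Edg} {u u' : Vtx} (h : Ends e u u') : sd u u' ≤ 1 := by
  obtain ⟨x, y, b⟩ := e
  unfold Ends at h
  rw [sd_le_iff]
  cases b
  · simp only [src_mk, tgt_false] at h
    rcases h with ⟨rfl, rfl⟩ | ⟨rfl, rfl⟩ <;> simp
  · simp only [src_mk, tgt_true] at h
    rcases h with ⟨rfl, rfl⟩ | ⟨rfl, rfl⟩ <;> simp

theorem Ends.fst {e : Edg} {u u' : Vtx} (h : Ends e u u') : e.1 = min u.1 u'.1 := by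
  obtain ⟨x, y, b⟩ := e
  unfold Ends at h
  cases b
  · simp only [src_mk, tgt_false] at h
    rcases h with ⟨rfl, rfl⟩ | ⟨rfl, rfl⟩ <;> simp
  · simp only [src_mk, tgt_true] at h
    rcases h with ⟨rfl, rfl⟩ | ⟨rfl, rfl⟩ <;> simp

theorem Ends.all {e : Edg} {u u' : Vtx} (h : Ends e u u') {p : Vtx → Prop} (h1 : p u)
    (h2 : p u') : p (src e) ∧ p (tgt e) := by
  rcases h with ⟨a, b⟩ | ⟨a, b⟩ <;> rw [a, b] <;> exact ⟨by assumption, by assumption⟩

theorem Ends.any {e : Edg} {u u' : Vtx} (h : Ends e u u') {p : Vtx → Prop} (h1 : p u) :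
    p (src e) ∨ p (tgt e) := by
  rcases h with ⟨a, b⟩ | ⟨a, b⟩ <;> rw [a, b]
  · exact Or.inl h1
  · exact Or.inr h1

theorem Ends.reach {e : Edg} {u u' : Vtx} (h : Ends e u u') {F : Set Edg} (he : e ∈ F) :
    Reach F u u' := Adj.reach ⟨e, he, h⟩

/-- Closing the edges of `D` does not matter for the exterior condition, if the clusters near `D` are
small. -/
theorem det_X {F : Set Edg} {v : Vtx} {D Tp : Set Edg} {P : Vtx → Prop} {L Wn : Set Vtx} {K : ℤ}
    (hK : 0 ≤ K)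
    (h1 : ∀ e ∈ F, e ∉ D → ∀ u u', Ends e u u' → P u → u ∉ L → u ∈ Wn → e ∈ Tp ∧ P u')
    (h2 : ∀ e ∈ D, ∀ u, (u = src e ∨ u = tgt e) → P u ∧ ∀ x, sd u x ≤ K → P x → x ∈ Wn)
    (h3 : ∀ b : Vtx, (b.1 < v.1 ∨ (b.1 = v.1 ∧ v.2 < b.2)) → P b → b ∉ Wn)
    (h4 : ∀ x ∈ L, Reach (F \ D) v x)
    (tr : ∀ e ∈ D, ∀ u, (u = src e ∨ u = tgt e) → ∀ w, Reach (F ∩ Tp) u w → sd u w ≤ K)
    (hX : Xc v (F \ D)) : Xc v F := by
  -- the claim about paths which start near `D`
  have claim : ∀ e ∈ D, ∀ u, (u = src e ∨ u = tgt e) → ∀ w, Reach (F \ D) u w →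
      (Reach (F ∩ Tp) u w ∧ P w) ∨ ∃ x ∈ L, Reach (F \ D) u x := by
    intro e he u hu w hw
    induction hw with
    | refl => exact Or.inl ⟨Reach.refl _ _, (h2 e he u hu).1⟩
    | @tail w w' hw hs ih =>
      rcases ih with ⟨ih1, ih2⟩ | ih
      · by_cases hwL : w ∈ L
        · exact Or.inr ⟨w, hwL, hw⟩
        · obtain ⟨g, hg, hgw⟩ := hs
          have hwn : w ∈ Wn := (h2 e he u hu).2 w (tr e he u hu w ih1) ih2
          obtain ⟨k1, k2⟩ := h1 g hg.1 hg.2 w w' hgw ih2 hwL hwn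
          exact Or.inl ⟨ih1.trans (Ends.reach hgw ⟨hg.1, k1⟩), k2⟩
      · exact Or.inr ih
  intro b hb
  by_contra hcon
  have hbad : b.1 < v.1 ∨ (b.1 = v.1 ∧ v.2 < b.2) := by
    by_cases h : b.1 < v.1
    · exact Or.inl h
    · right
      constructor
      · by_contra h5
        exact hcon ⟨by omega, fun h6 => absurd h6 h5⟩
      · by_contra h5
        exact hcon ⟨by omega, fun h6 => by omega⟩
  -- from `b`: either reach `v` or an end of an edge of `D`
  have hsplit : ∀ w, Reach F b w → Reach (F \ D) b w ∨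
      ∃ e ∈ D, ∃ u, (u = src e ∨ u = tgt e) ∧ Reach (F \ D) b u := by
    intro w hw
    induction hw with
    | refl => exact Or.inl (Reach.refl _ _)
    | @tail w w' _ hs ih =>
      rcases ih with ih | ih
      · obtain ⟨g, hg, hgw⟩ := hs
        by_cases hgD : g ∈ D
        · right
          refine ⟨g, hgD, w, ?_, ih⟩
          rcases hgw with ⟨h5, _⟩ | ⟨_, h5⟩
          · exact Or.inl h5.symm
          · exact Or.inr h5.symm
        · exact Or.inl (ih.trans (Adj.reach ⟨g, ⟨hg, hgD⟩, hgw⟩))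
      · exact Or.inr ih
  have hnb : ¬ Reach (F \ D) v b := by
    intro h
    have := hX b h
    omega
  rcases hsplit v hb.symm with h | ⟨e, he, u, hu, h⟩
  · exact hnb h.symm
  · rcases claim e he u hu b h.symm with ⟨k1, k2⟩ | ⟨x, hx, k1⟩
    · exact h3 b hbad k2 ((h2 e he u hu).2 b (tr e he u hu b k1) k2)
    · exact hnb ((h4 x hx).trans (k1.symm.trans h.symm))

/-- Trapped vertices are not connected to `v`. -/
theorem trapped {F Tp : Set Edg} {v d : Vtx} {C : Set Vtx} {K : ℤ} (hd : Reach F v d)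
    (hdC : d ∉ C)
    (h : ∀ e ∈ F, ∀ u u', Ends e u u' → Reach F v u → u ∉ C → sd d u ≤ K → e ∈ Tp ∧ u' ∉ C)
    (tr : ∀ w, Reach (F ∩ Tp) d w → sd d w ≤ K) : sd d v ≤ K := by
  have key : ∀ w, Reach F d w → Reach (F ∩ Tp) d w ∧ w ∉ C := by
    intro w hw
    induction hw with
    | refl => exact ⟨Reach.refl _ _, hdC⟩
    | @tail w w' hw hs ih =>
      obtain ⟨g, hg, hgw⟩ := hs
      obtain ⟨k1, k2⟩ := h g hg w w' hgw (hd.trans hw) ih.2 (tr w ih.1)
      exact ⟨ih.1.trans (Ends.reach hgw ⟨hg, k1⟩), k2⟩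
  exact tr v (key v hd.symm).1

end Pool.Agent.V5helper99.OB
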