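import Pool.Agent.V5helper99.OB.Witness
import Pool.Agent.V5helper90.LL.Defs

/-!
# Translations
-/

set_option autoImplicit false
set_option maxHeartbeats 4000000

namespace Pool.Agent.V5helper99.OB

open H974 H12S Finset H984P H984N

/-- The translation which moves `c` to the origin. -/
def tc (c : Vtx) : LSym := trl (-c.1) (-c.2)

theorem tc_ψ (c x : Vtx) : (tc c).ψ x = (x.1 - c.1, x.2 - c.2) := by
  obtain ⟨x1, x2⟩ := x
  unfold tc
  rw [trl_ψ]
  rfl

theorem tc_φs (c : Vtx) (x y : ℤ) (b : Bool) :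
    (tc c).φ.symm (x, y, b) = (x + c.1, y + c.2, b) := by
  unfold tc
  rw [trl_φs]
  simp

theorem tc_src (c : Vtx) (e : Edg) :
    src ((tc c).φ.symm e) = ((src e).1 + c.1, (src e).2 + c.2) ∧
    tgt ((tc c).φ.symm e) = ((tgt e).1 + c.1, (tgt e).2 + c.2) ∧
    ((tc c).φ.symm e).1 = e.1 + c.1 := by
  obtain ⟨x, y, b⟩ := e
  rw [tc_φs]
  cases b
  · simp only [src_mk, tgt_false, true_and]
    rw [Prod.mk.injEq]
    exact ⟨⟨rfl, by ring⟩, trivial⟩
  · simp only [src_mk, tgt_true, true_and]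
    rw [Prod.mk.injEq]
    exact ⟨⟨by ring, rfl⟩, trivial⟩

theorem sd_shift (c x y : Vtx) : sd (x.1 + c.1, x.2 + c.2) (y.1 + c.1, y.2 + c.2) = sd x y := by
  unfold sd
  simp

theorem SD_trl {k : Finset Edg} {A y0 X top : ℤ} {P : Vtx → Prop} {L : Set Vtx}
    (h : SD k A y0 X top P L) (c : Vtx) :
    SD ((tc c).mp k) (A - c.1) (y0 - c.2) (X - c.1) (top - c.2)
      (fun x => P (x.1 + c.1, x.2 + c.2)) {x | (x.1 + c.1, x.2 + c.2) ∈ L} := by
  refine ⟨by have := h.lt; omega, ?_, ?_, ?_, ?_, ?_, ?_, ?_, ?_, ?_, ?_⟩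
  · intro e he h1 h2
    rw [LSym.mem_mp] at he
    obtain ⟨s1, s2, s3⟩ := tc_src c e
    have := h.fresh _ he (by rw [s3]; omega) (by rw [s3]; omega)
    rw [s1, s2] at this
    exact this
  · intro e he
    rw [LSym.mem_mp] at he
    obtain ⟨s1, s2, s3⟩ := tc_src c e
    have := h.exv _ he
    rw [s1, s2] at this
    exact this
  · intro x hx
    exact h.PL _ hx
  · intro x hx
    have := h.LA _ hx
    simp only at this
    omega
  · intro y hy hL
    have h1 : (A - c.1 + c.1, y + c.2) = (A, y + c.2) := by rw [sub_add_cancel]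
    show P (A - c.1 + c.1, y + c.2)
    rw [h1]
    refine h.below _ (by omega) (fun h2 => hL ?_)
    show (A - c.1 + c.1, y + c.2) ∈ L
    rw [h1]; exact h2
  · intro y hy hL
    have h1 : (A - c.1 + c.1, y + c.2) = (A, y + c.2) := by rw [sub_add_cancel]
    show ¬ P (A - c.1 + c.1, y + c.2)
    rw [h1]
    refine h.above _ (by omega) (fun h2 => hL ?_)
    show (A - c.1 + c.1, y + c.2) ∈ L
    rw [h1]; exact h2
  · intro x h1 h2 h3
    exact h.up _ (by simp only; omega) (by simp only; omega) (by simp only; omega)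
  · intro x h1
    have := h.lft (x.1 + c.1, x.2 + c.2) (by simp only; omega)
    simp only at this ⊢
    rw [this]
    constructor <;> intro _ <;> omega
  · show (A - c.1 + c.1, y0 - c.2 + c.2) ∈ L
    rw [sub_add_cancel, sub_add_cancel]
    exact h.v0
  · intro x hx
    have h1 := (tc c).reach (h.conn _ hx)
    rw [tc_ψ, tc_ψ] at h1
    simp only [add_sub_cancel_right] at h1
    refine h1.mono ?_
    rintro _ ⟨e, ⟨he1, he2⟩, rfl⟩
    have h2 := tc_src c ((tc c).φ e)
    rw [Equiv.symm_apply_apply] at h2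
    refine ⟨?_, ?_⟩
    · show (_, _) ∈ L
      rw [← h2.1]; exact he1
    · show (_, _) ∈ L
      rw [← h2.2.1]; exact he2

theorem UU_trl (S k : Finset Edg) (W0 : Set Vtx) (c : Vtx) :
    UU ((tc c).mp S) ((tc c).mp k) {x | (x.1 + c.1, x.2 + c.2) ∈ W0} = (tc c).mp (UU S k W0) := by
  ext e
  rw [mem_UU, LSym.mem_mp, LSym.mem_mp, LSym.mem_mp, mem_UU]
  obtain ⟨s1, s2, s3⟩ := tc_src c e
  rw [s1, s2]
  rfl

theorem Xc_trl (v : Vtx) (F : Finset Edg) (c : Vtx) :
    Xc (v.1 - c.1, v.2 - c.2) (↑((tc c).mp F) : Set Edg) ↔ Xc v (↑F : Set Edg) := by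
  constructor
  · intro h w hw
    have h1 := (tc c).reach hw
    rw [← LSym.coe_mp, tc_ψ, tc_ψ] at h1
    have := h _ h1
    simp only at this
    omega
  · intro h w hw
    have h1 : Reach (↑F : Set Edg) v (w.1 + c.1, w.2 + c.2) := by
      rw [← (tc c).reach_iff, ← LSym.coe_mp, tc_ψ, tc_ψ]
      simpa using hw
    have := h _ h1
    simp only at this ⊢
    omega

theorem chain_fun {α : Type*} {r : α → α → Prop} {a b : α} (h : Relation.ReflTransGen r a b) :
    ∃ (N : ℕ) (x : ℕ → α), x 0 = a ∧ x N = b ∧ ∀ i < N, r (x i) (x (i + 1)) := by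
  classical
  induction h with
  | refl => exact ⟨0, fun _ => a, rfl, rfl, fun i hi => absurd hi (Nat.not_lt_zero i)⟩
  | @tail b c _ hbc ih =>
    obtain ⟨N, x, h0, hN, hs⟩ := ih
    refine ⟨N + 1, fun i => if i ≤ N then x i else c, ?_, ?_, ?_⟩
    · simp [h0]
    · simp
    · intro i hi
      rcases Nat.lt_or_ge i N with h1 | h1
      · have h2 : i + 1 ≤ N := h1
        simp only [h1.le, h2, if_true]
        exact hs i h1
      · have h2 : i = N := by omega
        subst h2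
        simp only [le_refl, if_true, show ¬ (i + 1 ≤ i) by omega, if_false]
        rw [hN]; exact hbc

open Pool.Agent.V5helper90.LL Pool.Agent.W822.PD in
/-- From the witness near the box to the witness of the lattice. -/
theorem wit_of_witA {M B r : ℕ} {c0 E0 t : ℝ} {a Q n : ℕ} {v c : Vtx} {F : Finset Edg} {s : ℝ}
    (ht : 0 < t) (hB : 1 ≤ B) (hM : 1 ≤ M) (hc0 : 0 < c0) (hE0 : 0 < E0) (hs : 0 < s)
    (ha : 1 ≤ a) (hn : 1 ≤ n) (han : a ≤ n) (hsa : s * n ≤ a) (hrQ : r ≤ Q)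
    (h : WitA M B r c0 E0 t a (Q * a) (v.1 - c.1, v.2 - c.2) (↑((tc c).mp F) : Set Edg)) :
    Wit n {w | Reach (↑F : Set Edg) v w} t (E0 / c0 ^ 2 * s ^ (-t)) B
      (M + ((3 * Q + 4 : ℕ) : ℝ) ^ B / s) 1 := by
  classical
  obtain ⟨V, hV1, hV2, hV3, hV4⟩ := h
  have ha' : (0:ℝ) < a := by exact_mod_cast ha
  have hn' : (0:ℝ) < n := by exact_mod_cast hn
  have hcard : 0 < (V.card : ℝ) := lt_of_lt_of_le (mul_pos hc0 (Real.rpow_pos_of_pos ha' _)) hV2
  let f : Vtx ↪ Vtx := ⟨fun x => (x.1 + c.1, x.2 + c.2), fun x y hxy => by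
    simp only [Prod.mk.injEq, add_left_inj] at hxy
    exact Prod.ext hxy.1 hxy.2⟩
  have hf : ∀ x, f x = (x.1 + c.1, x.2 + c.2) := fun _ => rfl
  have hreach : ∀ w, Reach (↑((tc c).mp F) : Set Edg) (v.1 - c.1, v.2 - c.2) w ↔
      Reach (↑F : Set Edg) v (f w) := by
    intro w
    rw [← (tc c).reach_iff (F := (↑F : Set Edg)), ← LSym.coe_mp, tc_ψ, tc_ψ, hf]
    simp
  refine ⟨V.map f, ?_, ?_, ?_, ?_⟩
  · rw [Finset.map_nonempty, ← Finset.card_pos]
    exact_mod_cast hcard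
  · intro w hw
    rw [Finset.mem_map] at hw
    obtain ⟨w', hw', rfl⟩ := hw
    exact (hreach w').1 (hV1 w' hw')
  · have e1 : EnV t (V.map f) = ∑ u ∈ V, ∑ w ∈ V, ((max (sd u w) 1 : ℤ) : ℝ) ^ (-t) := by
      unfold EnV
      rw [Finset.sum_map]
      apply Finset.sum_congr rfl
      intro u _
      rw [Finset.sum_map]
      apply Finset.sum_congr rfl
      intro w _
      rw [hf, hf, sd_shift]
    rw [e1, Finset.card_map]
    refine hV3.trans ?_
    have h1 : E0 * (a : ℝ) ^ (8 / 3 - t) = E0 * ((a : ℝ) ^ (4 / 3 : ℝ)) ^ 2 * (a : ℝ) ^ (-t) := by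
      rw [← Real.rpow_natCast ((a : ℝ) ^ (4 / 3 : ℝ)) 2, ← Real.rpow_mul ha'.le, mul_assoc,
        ← Real.rpow_add ha']
      congr 2
      push_cast
      ring
    have h2 : ((a : ℝ) ^ (4 / 3 : ℝ)) ^ 2 ≤ (V.card : ℝ) ^ 2 / c0 ^ 2 := by
      rw [le_div_iff₀ (by positivity)]
      have : (c0 * (a : ℝ) ^ (4 / 3 : ℝ)) ^ 2 ≤ (V.card : ℝ) ^ 2 :=
        pow_le_pow_left₀ (by positivity) hV2 2
      calc ((a : ℝ) ^ (4 / 3 : ℝ)) ^ 2 * c0 ^ 2 = (c0 * (a : ℝ) ^ (4 / 3 : ℝ)) ^ 2 := by ring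
        _ ≤ _ := this
    have h3 : (a : ℝ) ^ (-t) ≤ s ^ (-t) * (n : ℝ) ^ (-t) := by
      rw [← Real.mul_rpow hs.le hn'.le]
      exact Real.rpow_le_rpow_of_nonpos (by positivity) hsa (by linarith)
    rw [h1]
    calc E0 * ((a : ℝ) ^ (4 / 3 : ℝ)) ^ 2 * (a : ℝ) ^ (-t)
        ≤ E0 * ((V.card : ℝ) ^ 2 / c0 ^ 2) * (s ^ (-t) * (n : ℝ) ^ (-t)) := by
          apply mul_le_mul (mul_le_mul_of_nonneg_left h2 hE0.le) h3 (by positivity) (by positivity)
      _ = E0 / c0 ^ 2 * s ^ (-t) * (V.card : ℝ) ^ 2 * (n : ℝ) ^ (-t) := by ring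
  · intro w hw
    rw [Finset.mem_map] at hw
    obtain ⟨w', hw', rfl⟩ := hw
    obtain ⟨hw0, hch⟩ := hV4 w' hw'
    set m := (Q + 4) * n with hm
    have hQa : Q * a ≤ Q * n := Nat.mul_le_mul_left _ han
    have hQm : Q * a ≤ m := by rw [hm]; nlinarith
    obtain ⟨y, hy, hr⟩ := hch m hQm
    obtain ⟨N, x, h0, hN, hst⟩ := chain_fun hr
    have hra : (r * a : ℕ) ≤ Q * n := (Nat.mul_le_mul_right _ hrQ).trans hQa
    have hra' : ((r * a : ℕ) : ℤ) ≤ (Q : ℤ) * n := by exact_mod_cast hra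
    have hQa' : ((Q * a : ℕ) : ℤ) ≤ (Q : ℤ) * n := by exact_mod_cast hQa
    have hm' : (m : ℤ) = Q * n + 4 * n := by rw [hm]; push_cast; ring
    have hn0 : (0:ℤ) ≤ n := Int.natCast_nonneg n
    have hQn0 : (0:ℤ) ≤ (Q:ℤ) * n := by positivity
    refine ⟨N, fun i => f (x i), ?_, ?_, ?_, ?_⟩
    · simp only [h0]
    · intro i hi
      simp only [hf]
      rw [sd_shift]
      exact (hst i hi).1
    · simp only [hN, hf]
      rw [sd_shift]
      have h1 : |y.1 - w'.1| ≤ sd y w' := le_max_left _ _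
      have h2 : |w'.1| ≤ sd w' (0, 0) := by
        have := le_max_left |w'.1 - 0| |w'.2 - 0|
        simpa [sd] using this
      rw [abs_le] at h2
      have h3 := neg_abs_le (y.1 - w'.1)
      rw [hy] at h1 h3
      omega
    · intro i hi d hd
      simp only [hf]
      set d' : Vtx := (d.1 - c.1, d.2 - c.2) with hd'
      have hdf : d = (d'.1 + c.1, d'.2 + c.2) := by simp [hd']
      have hdr : Reach (↑((tc c).mp F) : Set Edg) (v.1 - c.1, v.2 - c.2) d' := by
        rw [hreach, hf, ← hdf]; exact hd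
      conv_rhs => rw [hdf]
      rw [sd_shift, sd_shift]
      -- the two cases
      have hcase : i = 0 ∨ (x i ∈ Aw M B a (v.1 - c.1, v.2 - c.2) w' (↑((tc c).mp F) : Set Edg) ∧
          sd (x i) (0, 0) ≤ ((Q * a : ℕ) : ℤ) + m) := by
        rcases i with _ | i
        · exact Or.inl rfl
        · exact Or.inr (hst i (by omega)).2
      have hM0 : (0:ℝ) ≤ M + ((3 * Q + 4 : ℕ) : ℝ) ^ B / s := by positivity
      have hsd0 : (0:ℝ) ≤ ((sd (x i) d' : ℤ) : ℝ) / n := by
        apply div_nonneg _ hn'.le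
        exact_mod_cast sd_nonneg _ _
      rcases hcase with h5 | ⟨h5, h6⟩
      · subst h5
        rw [h0, sd_self]
        simp only [Int.cast_zero, zero_div]
        rw [zero_pow (by omega)]
        rw [h0] at hsd0
        positivity
      · rcases h5 d' hdr with h7 | h7
        · have h8 : ((sd (x i) w' : ℤ) : ℝ) ^ B ≤
              (M : ℝ) * (a : ℝ) ^ (B - 1) * (((sd (x i) d' : ℤ) : ℝ) + 1) := by exact_mod_cast h7
          have h9 : (0:ℝ) ≤ ((sd (x i) d' : ℤ) : ℝ) + 1 := by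
            have : (0:ℤ) ≤ sd (x i) d' + 1 := by have := sd_nonneg (x i) d'; omega
            exact_mod_cast this
          have h10 : (a : ℝ) ^ (B - 1) ≤ (n : ℝ) ^ (B - 1) :=
            pow_le_pow_left₀ ha'.le (by exact_mod_cast han) _
          rw [div_pow, div_le_iff₀ (by positivity)]
          have h11 : (n : ℝ) ^ B = (n : ℝ) ^ (B - 1) * n := by
            rw [← pow_succ]; congr 1; omega
          calc ((sd (x i) w' : ℤ) : ℝ) ^ B
              ≤ (M : ℝ) * (a : ℝ) ^ (B - 1) * (((sd (x i) d' : ℤ) : ℝ) + 1) := h8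
            _ ≤ (M : ℝ) * (n : ℝ) ^ (B - 1) * (((sd (x i) d' : ℤ) : ℝ) + 1) :=
                mul_le_mul_of_nonneg_right (mul_le_mul_of_nonneg_left h10 (by positivity)) h9
            _ = (M : ℝ) * (((sd (x i) d' : ℤ) : ℝ) / n + 1 / n) * (n : ℝ) ^ B := by
                rw [h11]; field_simp
            _ ≤ (M + ((3 * Q + 4 : ℕ) : ℝ) ^ B / s) * (((sd (x i) d' : ℤ) : ℝ) / n + 1 / n) *
                (n : ℝ) ^ B := by
                apply mul_le_mul_of_nonneg_right _ (by positivity)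
                apply mul_le_mul_of_nonneg_right _ (by positivity)
                have : (0:ℝ) ≤ ((3 * Q + 4 : ℕ) : ℝ) ^ B / s := by positivity
                linarith
        · have h8 : sd (x i) w' ≤ ((3 * Q + 4 : ℕ) : ℤ) * n := by
            have k1 := sd_tri (x i) (0, 0) w'
            rw [sd_comm (0, 0) w'] at k1
            push_cast
            have : ((3:ℤ) * Q + 4) * n = 3 * (Q * n) + 4 * n := by ring
            omega
          have h9 : ((sd (x i) w' : ℤ) : ℝ) / n ≤ ((3 * Q + 4 : ℕ) : ℝ) := by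
            rw [div_le_iff₀ hn']
            exact_mod_cast h8
          have h10 : (0:ℝ) ≤ ((sd (x i) w' : ℤ) : ℝ) / n := by
            apply div_nonneg _ hn'.le
            exact_mod_cast sd_nonneg _ _
          have h11 : s ≤ ((sd (x i) d' : ℤ) : ℝ) / n := by
            rw [le_div_iff₀ hn']
            refine hsa.trans ?_
            exact_mod_cast h7
          calc (((sd (x i) w' : ℤ) : ℝ) / n) ^ B ≤ ((3 * Q + 4 : ℕ) : ℝ) ^ B :=
                pow_le_pow_left₀ h10 h9 _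
            _ = ((3 * Q + 4 : ℕ) : ℝ) ^ B / s * s := by field_simp
            _ ≤ (M + ((3 * Q + 4 : ℕ) : ℝ) ^ B / s) * (((sd (x i) d' : ℤ) : ℝ) / n + 1 / n) := by
                apply mul_le_mul _ _ hs.le hM0
                · have : (0:ℝ) ≤ M := by positivity
                  linarith
                · have : (0:ℝ) ≤ 1 / (n:ℝ) := by positivity
                  linarith

end Pool.Agent.V5helper99.OB
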