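import Pool.Agent.V5helper99.OB.Hook2
import Pool.Agent.V5helper99.OB.Trans

/-!
# Docking: the window in the coordinates of the strand
-/

set_option autoImplicit false
set_option maxHeartbeats 4000000

namespace Pool.Agent.V5helper99.OB

open H974 H12S Finset H984P H984N Pool.Agent.V5helper90.LL

/-- The conclusion for one window. -/
def DockC (S k : Finset Edg) (v : Vtx) (W : Set Vtx) (H0 : Finset Edg) (n : ℕ) (t E : ℝ) (B : ℕ)
    (M c1 : ℝ) : Prop :=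
  ∃ Gd : Finset Edg → Prop, (∀ F, Gd F ↔ Gd (F ∩ UU S k W)) ∧
    (∀ H, H ⊆ (S \ k) \ UU S k W →
      c1 * PQ (1 / 2) (UU S k W) (fun G => Xc v (↑(H0 ∪ (H ∪ G)) : Set Edg)) ≤
      PQ (1 / 2) (UU S k W) (fun G => Xc v (↑(H0 ∪ (H ∪ G)) : Set Edg) ∧ Gd G)) ∧
    ∀ F, F ⊆ S \ k → Xc v (↑(H0 ∪ F) : Set Edg) → Gd F →
      Wit n {w | Reach (↑(H0 ∪ F) : Set Edg) v w} t E B M 1

theorem mp_union (g : LSym) (F G : Finset Edg) : g.mp (F ∪ G) = g.mp F ∪ g.mp G := by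
  ext e; simp [LSym.mem_mp]

theorem PQ_mp (g : LSym) (q : ℝ) (S : Finset Edg) (A : Finset Edg → Prop) :
    PQ q (g.mp S) A = PQ q S (fun F => A (g.mp F)) := LSym.pr g q S A

theorem dock_gen {S k : Finset Edg} {v c : Vtx} {X top : ℤ} {P : Vtx → Prop} {L W : Set Vtx}
    {M B N a Q r n : ℕ} {Hk : Finset Edg} {Z : Finset (ℤ × ℤ)} {yh : ℤ}
    {c0 E0 t s p cs κ : ℝ}
    (h : WD ((tc c).mp S) ((tc c).mp k) (v.1 - c.1) (v.2 - c.2) (X - c.1) (top - c.2)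
      (fun x => P (x.1 + c.1, x.2 + c.2)) {x | (x.1 + c.1, x.2 + c.2) ∈ L}
      {x | (x.1 + c.1, x.2 + c.2) ∈ W} N a Q Hk)
    (hr1 : 8 ≤ r) (hr : 64 * r ≤ N) (hM : 1 ≤ M) (hB : 1 ≤ B) (hc0 : 0 < c0) (hE0 : 0 < E0)
    (hκ0 : 0 < κ) (hκ : ∀ n : ℕ, Win (1/2) κ n) (hcs : 0 ≤ cs) (hpat : Pat N Z yh) (ht : 0 < t)
    (hbox : p ≤ PQ (1 / 2) (TP N a) (Bev M B N r c0 E0 t a Z yh))
    (hhook : ∀ C : Finset Vtx, 
      (∀ y ∈ C, |y.1| ≤ (N * a : ℕ) ∧ |y.2| ≤ (2 * N * a : ℕ)) →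
      cs * PQ (1 / 2) (UU ((tc c).mp S) ((tc c).mp k) {x | (x.1 + c.1, x.2 + c.2) ∈ W})
          (fun F => Esc N r a Z yh C (↑F : Set Edg)) ≤
        PQ (1 / 2) (UU ((tc c).mp S) ((tc c).mp k) {x | (x.1 + c.1, x.2 + c.2) ∈ W})
          (A2 ((tc c).mp S) ((tc c).mp k) (fun x => P (x.1 + c.1, x.2 + c.2))
            {x | (x.1 + c.1, x.2 + c.2) ∈ W} {x | (x.1 + c.1, x.2 + c.2) ∈ L} Hk N r a Z yh C))
    (hs : 0 < s) (hn : 1 ≤ n) (han : a ≤ n) (hsa : s * n ≤ a)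
    {H0 : Finset Edg} (hH0 : H0 ⊆ k) (hH0S : H0 ⊆ S)
    (hconn : ∀ x ∈ L, Reach (↑(H0 ∩ k) : Set Edg) v x) :
    DockC S k v W H0 n t (E0 / c0 ^ 2 * s ^ (-t)) B (M + ((3 * Q + 4 : ℕ) : ℝ) ^ B / s)
      (p * cs * κ ^ (4 * (2 * (32 * Q) + 1) ^ 2)) := by
  classical
  have hU := UU_trl S k W c
  have hconn' : ∀ H1 : Finset Edg, H0 ⊆ H1 → ∀ x ∈ {x : Vtx | (x.1 + c.1, x.2 + c.2) ∈ L},
      Reach (↑((tc c).mp H1 ∩ (tc c).mp k) : Set Edg) (v.1 - c.1, v.2 - c.2) x := by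
    intro H1 hH1 x hx
    have h1 := (tc c).reach (hconn _ hx)
    rw [tc_ψ, tc_ψ, ← LSym.coe_mp] at h1
    simp only [add_sub_cancel_right] at h1
    refine h1.mono ?_
    rw [← LSym.mp_inter]
    exact_mod_cast LSym.mp_mono _ (Finset.inter_subset_inter_right hH1)
  have hdis : ∀ e, e ∈ k → e ∉ UU S k W := fun e he he2 => (mem_UU.1 he2).1.2 he
  have hsub : ∀ H, H ⊆ (S \ k) \ UU S k W →
      (tc c).mp (H0 ∪ H) ⊆ (tc c).mp S \ UU ((tc c).mp S) ((tc c).mp k)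
        {x | (x.1 + c.1, x.2 + c.2) ∈ W} := by
    intro H hH
    rw [hU, ← LSym.mp_sdiff]
    apply LSym.mp_mono
    intro e he
    rw [Finset.mem_union] at he
    rw [Finset.mem_sdiff]
    rcases he with he | he
    · exact ⟨hH0S he, hdis e (hH0 he)⟩
    · have := Finset.mem_sdiff.1 (hH he)
      exact ⟨(Finset.mem_sdiff.1 this.1).1, this.2⟩
  refine ⟨fun F => GdW M B c0 E0 t ((tc c).mp S) ((tc c).mp k) (fun x => P (x.1 + c.1, x.2 + c.2))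
      {x | (x.1 + c.1, x.2 + c.2) ∈ W} {x | (x.1 + c.1, x.2 + c.2) ∈ L} Hk N r a Q Z yh
      ((tc c).mp (F ∩ UU S k W)), ?_, ?_, ?_⟩
  · intro F
    simp only [Finset.inter_assoc, Finset.inter_self]
  · intro H hH
    have h1 := window h hr1 hr hc0 hκ0 hκ hcs hbox (fun C _ hC => hhook C hC)
      (hsub H hH) (hconn' _ Finset.subset_union_left)
    rw [hU, PQ_mp, PQ_mp] at h1
    have e1 : ∀ G : Finset Edg, Xc (v.1 - c.1, v.2 - c.2)
        (↑((tc c).mp (H0 ∪ H) ∪ (tc c).mp G) : Set Edg) ↔ Xc v (↑(H0 ∪ (H ∪ G)) : Set Edg) := by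
      intro G
      rw [← mp_union, Finset.union_assoc]
      exact Xc_trl v _ c
    simp only [e1] at h1
    refine h1.trans (le_of_eq ?_)
    apply Pr_congr
    intro G hG
    beta_reduce
    rw [Finset.inter_eq_left.2 hG]
  · intro F hF hX hGd
    set U := UU S k W with hUd
    have hFe : F = (F \ U) ∪ (F ∩ U) := (Finset.sdiff_union_inter F U).symm
    have hH : F \ U ⊆ (S \ k) \ U := Finset.sdiff_subset_sdiff hF (Finset.Subset.refl _)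
    have e2 : (tc c).mp (H0 ∪ (F \ U)) ∪ (tc c).mp (F ∩ U) = (tc c).mp (H0 ∪ F) := by
      rw [← mp_union, Finset.union_assoc, ← hFe]
    have h2 := witness h hr hr1 hc0 hpat (hsub _ hH) (G := (tc c).mp (F ∩ U))
      (by rw [hU]; exact LSym.mp_mono _ Finset.inter_subset_right)
      (hconn' _ Finset.subset_union_left) (by rw [e2]; exact (Xc_trl v _ c).2 hX) hGd
    rw [e2] at h2
    have hQ := h.hQ
    exact wit_of_witA ht hB hM hc0 hE0 hs (by have := h.a64; omega) hn han hsa (by omega) h2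

/-- The window around the strand at the scale `ρ`. -/
def W00 (v : Vtx) (ρ : ℕ) : Set Vtx :=
  {x | v.1 ≤ x.1 ∧ 13 * (ρ : ℤ) < sd x v ∧ sd x v < 17 * ρ}

/-- vertices between the left side and the strand are below the strand -/
theorem fr_P {k : Finset Edg} {A y0 X top : ℤ} {P : Vtx → Prop} {L : Set Vtx}
    (h : SD k A y0 X top P L) {X1 lo hi : ℤ} (hX1 : X1 < X) (hhi : hi < y0)
    (hfree : ∀ x : Vtx, A ≤ x.1 → x.1 ≤ X1 → lo ≤ x.2 → x.2 ≤ hi → x ∉ L) {x : Vtx}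
    (h1 : A ≤ x.1) (h2 : x.1 ≤ X1) (h3 : lo ≤ x.2) (h4 : x.2 ≤ hi) : P x := by
  obtain ⟨x, y⟩ := x
  simp only at h1 h2 h3 h4
  induction x, h1 using Int.leInduction with
  | base => exact h.below y (by omega) (hfree _ le_rfl h2 h3 h4)
  | succ x hx ih =>
    have ih' := ih (by omega)
    have hL : ((x, y) : Vtx) ∉ L := hfree _ hx (by simp only; omega) h3 h4
    have he : ((x, y, true) : Edg) ∉ k := by
      intro he
      have := (h.exv _ he).1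
      simp only [src_mk] at this
      exact hL (this ih')
    have := h.fresh _ he (by simp only; omega) (by simp only; omega)
    simp only [src_mk, tgt_true] at this
    exact this.1 ih'

theorem mem_W00 {v x : Vtx} {ρ : ℕ} : x ∈ W00 v ρ ↔
    v.1 ≤ x.1 ∧ 13 * (ρ : ℤ) < sd x v ∧ sd x v < 17 * ρ := Iff.rfl

theorem W00_of {v x : Vtx} {ρ : ℕ} (h1 : v.1 ≤ x.1) (h2 : x.1 - v.1 < 17 * ρ)
    (h3 : x.2 - v.2 < 17 * ρ) (h4 : v.2 - x.2 < 17 * ρ)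
    (h5 : 13 * (ρ : ℤ) < x.1 - v.1 ∨ 13 * (ρ : ℤ) < x.2 - v.2 ∨ 13 * (ρ : ℤ) < v.2 - x.2) :
    x ∈ W00 v ρ := by
  refine ⟨h1, ?_, ?_⟩
  · unfold sd
    rw [lt_max_iff, lt_abs, lt_abs]
    omega
  · unfold sd
    rw [max_lt_iff, abs_lt, abs_lt]
    omega

end Pool.Agent.V5helper99.OB
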