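import Pool.Agent.V5helper99.OB.Dock

/-!
# Docking: the two cases
-/

set_option autoImplicit false
set_option maxHeartbeats 4000000

namespace Pool.Agent.V5helper99.OB

open H974 H12S Finset H984P H984N Pool.Agent.V5helper90.LL

theorem RE_end {a b c d : ℤ} {e : Edg} (he : e ∈ RE a b c d) {u : Vtx}
    (hu : u = src e ∨ u = tgt e) : (a ≤ u.1 ∧ u.1 ≤ b) ∧ c ≤ u.2 ∧ u.2 ≤ d := by
  obtain ⟨x, y, b'⟩ := e
  cases b'
  · rw [mem_RE_false] at he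
    simp only [src_mk, tgt_false] at hu
    rcases hu with rfl | rfl <;> simp only <;> omega
  · rw [mem_RE_true] at he
    simp only [src_mk, tgt_true] at hu
    rcases hu with rfl | rfl <;> simp only <;> omega

theorem tc_RE (c : Vtx) (a b d e : ℤ) :
    (tc c).mp (RE a b d e) = RE (a - c.1) (b - c.1) (d - c.2) (e - c.2) := by
  unfold tc
  rw [trl_RE]
  rfl

theorem Hk1_end {N a : ℕ} (ha : 1 ≤ a) (hN : 32 ≤ N) {e : Edg} (he : e ∈ Hk1 N a) {u : Vtx}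
    (hu : u = src e ∨ u = tgt e) : (((N + 9) * a : ℕ) ≤ u.1 ∧ u.1 ≤ 8 * bb N a) ∧
      -(6 * bb N a) ≤ u.2 ∧ u.2 ≤ 6 * bb N a := by
  obtain ⟨e9, e10, eb, e32, ha1, e2'⟩ := bb_facts (N := N) (a := a) (by omega) hN
  unfold Hk1 at he
  rw [Finset.mem_union, Finset.mem_union, Finset.mem_union] at he
  rcases he with (he | he) | (he | he) <;> have := RE_end he hu <;> omega

theorem wd1 {n m ρ N a : ℕ} {k : Finset Edg} {v : Vtx} {P : Vtx → Prop} {L : Set Vtx}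
    (sdd : SD k v.1 v.2 (v.1 + m) n P L) (hv1 : 0 ≤ v.1) (hvm : v.1 + m ≤ n)
    (hvn : v.2 ≤ n) (hvy : 64 * (ρ : ℤ) ≤ v.2) (hρm : 128 * ρ ≤ m) (ha : 64 ≤ a) (hN : 32 ≤ N)
    {g cy : ℤ} (hcy1 : 2 * (v.2 - cy) ≤ 33 * ρ) (hcy2 : 27 * (ρ : ℤ) ≤ 2 * (v.2 - cy))
    (hg1 : 8 * bb N a ≤ g) (hgρ : 8 * g ≤ ρ)
    (hfree : ∀ x ∈ L, x.2 - cy ≤ g → cy - x.2 ≤ g → 3 * g ≤ 4 * (x.1 - v.1))
    {c : Vtx} (hc : c = (v.1 + 4 * bb N a, cy)) :
    WD ((tc c).mp (RE 0 n 0 n)) ((tc c).mp k) (v.1 - c.1) (v.2 - c.2) ((v.1 + m) - c.1)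
      ((n : ℤ) - c.2)
      (fun x => P (x.1 + c.1, x.2 + c.2)) {x | (x.1 + c.1, x.2 + c.2) ∈ L}
      {x | (x.1 + c.1, x.2 + c.2) ∈ W00 v ρ} N a (4000 * (2 * N + 12)) (Hk1 N a) := by
  obtain ⟨e9, e10, eb, e32, ha1, e2'⟩ := bb_facts (N := N) (a := a) (by omega) hN
  have e12 : (((N + 12) * a : ℕ) : ℤ) = N * a + 12 * a := by push_cast; ring
  have e12' : (((2 * N + 12) * a : ℕ) : ℤ) = bb N a := rfl
  have eQ : ((4000 * (2 * N + 12) * a : ℕ) : ℤ) = 4000 * bb N a := by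
    unfold bb; push_cast; ring
  have c1 : c.1 = v.1 + 4 * bb N a := by rw [hc]
  have c2 : c.2 = cy := by rw [hc]
  have hfr : ∀ x : Vtx, v.1 ≤ x.1 → x.1 ≤ v.1 + 5 * bb N a → cy - bb N a ≤ x.2 →
      x.2 ≤ cy + bb N a → x ∉ L := by
    intro x h1 h2 h3 h4 hx
    have := hfree x hx (by omega) (by omega)
    omega
  constructor
  · exact SD_trl sdd c
  · exact ha
  · rw [e12, c1]; omega
  · rw [eQ, c1]; omega
  · omega
  · intro x h1 h2 h3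
    rw [e12'] at h3
    rw [e12] at h2
    rw [c1] at h1
    rw [abs_le] at h3
    have k1 : v.1 ≤ x.1 + c.1 := by rw [c1]; omega
    have k2 : x.1 + c.1 ≤ v.1 + 5 * bb N a := by rw [c1]; omega
    have k3 : cy - bb N a ≤ x.2 + c.2 := by rw [c2]; omega
    have k4 : x.2 + c.2 ≤ cy + bb N a := by rw [c2]; omega
    refine ⟨?_, ?_, ?_⟩
    · show (x.1 + c.1, x.2 + c.2) ∈ W00 v ρ
      apply W00_of <;> simp only <;> omega
    · exact fr_P sdd (X1 := v.1 + 5 * bb N a) (lo := cy - bb N a) (hi := cy + bb N a)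
        (by omega) (by omega) hfr (x := (x.1 + c.1, x.2 + c.2)) k1 k2 k3 k4
    · exact hfr (x.1 + c.1, x.2 + c.2) k1 k2 k3 k4
  · rw [tc_RE]
    unfold TP
    apply RE_subset
    · rw [c1, e10]; omega
    · rw [c1, e10]; omega
    · rw [c2, e2']; omega
    · rw [c2, e2']; omega
  · rintro x ⟨h1, h2, h3⟩
    simp only at h1
    have : x.1 + c.1 - v.1 ≤ sd (x.1 + c.1, x.2 + c.2) v := (le_abs_self _).trans (le_max_left _ _)
    omega
  · intro e he u hu hPu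
    have h1 := Hk1_end (by omega) hN he hu
    refine ⟨Or.inl h1.1.1, ?_, ?_⟩
    · rw [sd_le_iff]
      simp only [sub_zero]
      rw [abs_le, abs_le, eQ]
      omega
    · intro x hx _
      rw [sd_le_iff, abs_le, abs_le] at hx
      refine ⟨by rw [c1]; omega, fun x' hx' => ?_⟩
      rw [sd_le_iff, abs_le, abs_le] at hx'
      show (x'.1 + c.1, x'.2 + c.2) ∈ W00 v ρ
      apply W00_of <;> simp only [c1, c2] <;> omega

theorem Hk2_end {N a : ℕ} {A ρ : ℤ} (ha : 1 ≤ a) (hN : 32 ≤ N) (hA : A ≤ -(N * a))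
    (hA2 : -(4 * bb N a) ≤ A) (hρ : 8 * bb N a ≤ ρ) {e : Edg} (he : e ∈ Hk2 N a A ρ) {u : Vtx}
    (hu : u = src e ∨ u = tgt e) : (((N + 9) * a : ℕ) ≤ u.1 ∧ u.1 ≤ A + 16 * ρ ∧
      -(bb N a) ≤ u.2 ∧ u.2 ≤ bb N a) ∨ ((A + 14 * ρ ≤ u.1 ∧ u.1 ≤ A + 16 * ρ) ∧ -(bb N a) ≤ u.2 ∧
        u.2 ≤ 31 * ρ) ∨ ((A ≤ u.1 ∧ u.1 ≤ A + 16 * ρ) ∧ 29 * ρ ≤ u.2 ∧ u.2 ≤ 31 * ρ) := by
  obtain ⟨e9, e10, eb, e32, ha1, e2'⟩ := bb_facts (N := N) (a := a) (by omega) hN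
  unfold Hk2 at he
  rw [Finset.mem_union, Finset.mem_union, Finset.mem_union] at he
  rcases he with (he | he) | (he | he) <;> have := RE_end he hu <;> omega

theorem wd2 {n m ρ N a : ℕ} {k : Finset Edg} {v : Vtx} {P : Vtx → Prop} {L : Set Vtx}
    (sdd : SD k v.1 v.2 (v.1 + m) n P L) (hv1 : 0 ≤ v.1) (hvm : v.1 + m ≤ n)
    (hvn : v.2 ≤ n) (hvy : 64 * (ρ : ℤ) ≤ v.2) (hρm : 128 * ρ ≤ m) (ha : 64 ≤ a) (hN : 32 ≤ N)
    (hnA : ∀ y, v.2 < y → (v.1, y) ∉ L)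
    (hg1 : 64 * bb N a ≤ ρ) (hg2 : (ρ : ℤ) ≤ 128 * bb N a)
    (hfree : ∀ x ∈ L, v.2 - 16 * ρ ≤ x.2 → x.2 ≤ v.2 - 14 * ρ → ρ < 8 * (x.1 - v.1))
    {c : Vtx} (hc : c = (v.1 + 4 * bb N a, v.2 - 15 * ρ)) :
    WD ((tc c).mp (RE 0 n 0 n)) ((tc c).mp k) (v.1 - c.1) (v.2 - c.2) ((v.1 + m) - c.1)
      ((n : ℤ) - c.2)
      (fun x => P (x.1 + c.1, x.2 + c.2)) {x | (x.1 + c.1, x.2 + c.2) ∈ L}
      {x | (x.1 + c.1, x.2 + c.2) ∈ W00 v ρ} N a (4000 * (2 * N + 12))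
      (Hk2 N a (v.1 - c.1) ρ) := by
  obtain ⟨e9, e10, eb, e32, ha1, e2'⟩ := bb_facts (N := N) (a := a) (by omega) hN
  have e12 : (((N + 12) * a : ℕ) : ℤ) = N * a + 12 * a := by push_cast; ring
  have e12' : (((2 * N + 12) * a : ℕ) : ℤ) = bb N a := rfl
  have eQ : ((4000 * (2 * N + 12) * a : ℕ) : ℤ) = 4000 * bb N a := by
    unfold bb; push_cast; ring
  have c1 : c.1 = v.1 + 4 * bb N a := by rw [hc]
  have c2 : c.2 = v.2 - 15 * ρ := by rw [hc]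
  have hfr : ∀ x : Vtx, v.1 ≤ x.1 → x.1 ≤ v.1 + 5 * bb N a → v.2 - 15 * ρ - bb N a ≤ x.2 →
      x.2 ≤ v.2 - 15 * ρ + bb N a → x ∉ L := by
    intro x h1 h2 h3 h4 hx
    have := hfree x hx (by omega) (by omega)
    omega
  constructor
  · exact SD_trl sdd c
  · exact ha
  · rw [e12, c1]; omega
  · rw [eQ, c1]; omega
  · omega
  · intro x h1 h2 h3
    rw [e12'] at h3
    rw [e12] at h2
    rw [c1] at h1
    rw [abs_le] at h3
    have k1 : v.1 ≤ x.1 + c.1 := by rw [c1]; omega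
    have k2 : x.1 + c.1 ≤ v.1 + 5 * bb N a := by rw [c1]; omega
    have k3 : v.2 - 15 * ρ - bb N a ≤ x.2 + c.2 := by rw [c2]; omega
    have k4 : x.2 + c.2 ≤ v.2 - 15 * ρ + bb N a := by rw [c2]; omega
    refine ⟨?_, ?_, ?_⟩
    · show (x.1 + c.1, x.2 + c.2) ∈ W00 v ρ
      apply W00_of <;> simp only <;> omega
    · exact fr_P sdd (X1 := v.1 + 5 * bb N a) (lo := v.2 - 15 * ρ - bb N a)
        (hi := v.2 - 15 * ρ + bb N a)
        (by omega) (by omega) hfr (x := (x.1 + c.1, x.2 + c.2)) k1 k2 k3 k4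
    · exact hfr (x.1 + c.1, x.2 + c.2) k1 k2 k3 k4
  · rw [tc_RE]
    unfold TP
    apply RE_subset
    · rw [c1, e10]; omega
    · rw [c1, e10]; omega
    · rw [c2, e2']; omega
    · rw [c2, e2']; omega
  · rintro x ⟨h1, h2, h3⟩
    simp only at h1
    have : x.1 + c.1 - v.1 ≤ sd (x.1 + c.1, x.2 + c.2) v := (le_abs_self _).trans (le_max_left _ _)
    omega
  · intro e he u hu hPu
    have h1 := Hk2_end (by omega) hN (by rw [c1]; omega) (by rw [c1]; omega)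
      (by omega) he hu
    rw [e9, c1] at h1
    refine ⟨?_, ?_, ?_⟩
    · rw [e9, e12', lt_abs]
      omega
    · rw [sd_le_iff]
      simp only [sub_zero]
      rw [abs_le, abs_le, eQ]
      omega
    · intro x hx hPx
      rw [sd_le_iff, abs_le, abs_le] at hx
      have hx1 : v.1 < x.1 + c.1 := by
        by_contra hcon
        have hx2 : v.2 < x.2 + c.2 := by rw [c1] at hcon; rw [c2]; omega
        rcases lt_or_eq_of_le (not_lt.1 hcon) with h2 | h2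
        · have := (sdd.lft (x.1 + c.1, x.2 + c.2) h2).1 hPx
          simp only at this
          omega
        · have h3 : ((x.1 + c.1, x.2 + c.2) : Vtx) = (v.1, x.2 + c.2) := by rw [h2]
          have h4 : P (x.1 + c.1, x.2 + c.2) := hPx
          rw [h3] at h4
          exact sdd.above _ hx2 (hnA _ hx2) h4
      refine ⟨by omega, fun x' hx' => ?_⟩
      rw [sd_le_iff, abs_le, abs_le] at hx'
      show (x'.1 + c.1, x'.2 + c.2) ∈ W00 v ρ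
      rw [c1] at hx1
      apply W00_of <;> simp only [c1, c2] <;> omega

end Pool.Agent.V5helper99.OB
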