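import Pool.Agent.V5helper99.OB.Dock2

/-!
# Docking: the conclusion for one window
-/

set_option autoImplicit false
set_option maxHeartbeats 4000000

namespace Pool.Agent.V5helper99.OB

open H974 H12S Finset H984P H984N Pool.Agent.V5helper90.LL

theorem Hk1_sub {N a : ℕ} (ha : 1 ≤ a) (hN : 32 ≤ N) {x0 x1 y0 y1 : ℤ}
    (h1 : x0 ≤ ((N + 9) * a : ℕ)) (h2 : 8 * bb N a ≤ x1) (h3 : y0 ≤ -(6 * bb N a))
    (h4 : 6 * bb N a ≤ y1) : Hk1 N a ⊆ RE x0 x1 y0 y1 := by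
  obtain ⟨e9, e10, eb, e32, ha1, e2'⟩ := bb_facts (N := N) (a := a) (by omega) hN
  intro e he
  unfold Hk1 at he
  rw [Finset.mem_union, Finset.mem_union, Finset.mem_union] at he
  rcases he with (he | he) | (he | he)
  · exact RE_subset (by omega) (by omega) (by omega) (by omega) he
  · exact RE_subset (by omega) (by omega) (by omega) (by omega) he
  · exact RE_subset (by omega) (by omega) (by omega) (by omega) he
  · exact RE_subset (by omega) (by omega) (by omega) (by omega) he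

/-- choice of the closest point -/
theorem exists_close {L : Set Vtx} {A lo hi : ℤ} (hLA : ∀ x ∈ L, A ≤ x.1) {x1 : Vtx} (hx1 : x1 ∈ L)
    (h1 : lo ≤ x1.2) (h2 : x1.2 ≤ hi) : ∃ p ∈ L, lo ≤ p.2 ∧ p.2 ≤ hi ∧
      ∀ x ∈ L, lo ≤ x.2 → x.2 ≤ hi →
        4 * (p.1 - A) + |p.2 - x1.2| ≤ 4 * (x.1 - A) + |x.2 - x1.2| := by
  classical
  have hex : ∃ q : ℕ, ∃ x ∈ L, (lo ≤ x.2 ∧ x.2 ≤ hi) ∧
      4 * (x.1 - A) + |x.2 - x1.2| = (q : ℤ) := by
    have h3 := hLA x1 hx1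
    refine ⟨(4 * (x1.1 - A) + |x1.2 - x1.2|).toNat, x1, hx1, ⟨h1, h2⟩, ?_⟩
    have := abs_nonneg (x1.2 - x1.2)
    omega
  obtain ⟨p, hp, ⟨h3, h4⟩, h5⟩ := Nat.find_spec hex
  refine ⟨p, hp, h3, h4, fun x hx h6 h7 => ?_⟩
  have h8 := hLA x hx
  have h9 := abs_nonneg (x.2 - x1.2)
  have h10 := Nat.find_min' hex (m := (4 * (x.1 - A) + |x.2 - x1.2|).toNat)
    ⟨x, hx, ⟨h6, h7⟩, by omega⟩
  omega

theorem bb_lo {N a : ℕ} (ha : 64 ≤ a) : 64 * (2 * (N : ℤ) + 12) ≤ bb N a := by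
  unfold bb
  have : (2 * N + 12) * 64 ≤ (2 * N + 12) * a := Nat.mul_le_mul_left _ ha
  have h2 : (((2 * N + 12) * 64 : ℕ) : ℤ) ≤ (((2 * N + 12) * a : ℕ) : ℤ) := by exact_mod_cast this
  push_cast at h2 ⊢
  linarith

theorem dock {n m ρ N a0 r M B kk K : ℕ} {k H0 : Finset Edg} {v : Vtx} {P : Vtx → Prop}
    {L : Set Vtx} {c0 E0 p κ t s θ σ : ℝ}
    (sdd : SD k v.1 v.2 (v.1 + m) n P L) (hv1 : 0 ≤ v.1) (hvm : v.1 + m ≤ n)
    (hvn : v.2 ≤ n) (hvy : 64 * (ρ : ℤ) ≤ v.2) (hρm : 128 * ρ ≤ m)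
    (hnA : ∀ y, v.2 < y → (v.1, y) ∉ L)
    (hnt : ∀ x ∈ L, x.1 ≤ v.1 + ⌊θ * n⌋ → v.2 - 17 * ρ ≤ x.2 → x.2 ≤ v.2 - 13 * ρ → False)
    (hr1 : 8 ≤ r) (hr : 64 * r ≤ N) (hM : 1 ≤ M) (hB : 1 ≤ B) (hc0 : 0 < c0) (hE0 : 0 < E0)
    (hκ0 : 0 < κ) (hκ : ∀ n : ℕ, Win (1/2) κ n) (ht : 0 < t)
    (hbox : ∀ a : ℕ, a0 ≤ a → ∃ (Z : Finset (ℤ × ℤ)) (yh : ℤ), Pat N Z yh ∧
      p ≤ PQ (1 / 2) (TP N a) (Bev M B N r c0 E0 t a Z yh))
    (hk : ∀ h : ℤ, 1 ≤ h → (1/2 : ℝ) ^ kk ≤ hh (1/2) (K * h) h) (hK : 64 * N + 2048 ≤ K)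
    (hs : 0 < s) (hsθ : s * (128 * (2 * N + 12)) ≤ θ) (hsσ : s * (128 * (2 * N + 12)) ≤ σ)
    (hσρ : σ * n ≤ ρ) (ha0 : (a0 : ℝ) ≤ s * n) (h64 : 64 ≤ s * n)
    (hH0 : H0 ⊆ k) (hH0S : H0 ⊆ RE 0 n 0 n)
    (hconn : ∀ x ∈ L, Reach (↑(H0 ∩ k) : Set Edg) v x) :
    DockC (RE 0 n 0 n) k v (W00 v ρ) H0 n t (E0 / c0 ^ 2 * s ^ (-t)) B
      (M + ((3 * (4000 * (2 * N + 12)) + 4 : ℕ) : ℝ) ^ B / s)
      (p * (1/2) ^ (8 * kk) * κ ^ (4 * (2 * (32 * (4000 * (2 * N + 12))) + 1) ^ 2)) := by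
  classical
  have hN : 32 ≤ N := by omega
  have hn : 1 ≤ n := by
    rcases Nat.eq_zero_or_pos n with h | h
    · rw [h] at h64; norm_num at h64
    · exact h
  have hn' : (0:ℝ) < n := by exact_mod_cast hn
  have hN' : (0:ℝ) ≤ N := Nat.cast_nonneg N
  have hmn : (m : ℤ) ≤ n := by omega
  by_cases hI : ∃ x1 ∈ L, v.2 - 16 * ρ ≤ x1.2 ∧ x1.2 ≤ v.2 - 14 * ρ ∧ 8 * (x1.1 - v.1) ≤ ρ
  · obtain ⟨x1, hx1, h1, h2, h3⟩ := hI
    obtain ⟨p', hp', h4, h5, h6⟩ := exists_close (A := v.1) (lo := v.2 - 17 * ρ)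
      (hi := v.2 - 13 * ρ) sdd.LA hx1 (by omega) (by omega)
    have h7 := h6 x1 hx1 (by omega) (by omega)
    rw [sub_self, abs_zero, add_zero] at h7
    have h8 := sdd.LA p' hp'
    have h9 : ⌊θ * n⌋ < p'.1 - v.1 := by
      by_contra hcon
      exact hnt p' hp' (by omega) h4 h5
    have h7' := h7
    have h10 : -(p'.2 - x1.2) ≤ |p'.2 - x1.2| := neg_le_abs _
    have h11 : (p'.2 - x1.2) ≤ |p'.2 - x1.2| := le_abs_self _
    set g : ℤ := p'.1 - v.1 with hg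
    have hg0 : 0 ≤ g := by omega
    -- the scale
    set H8 : ℤ := 8 * (2 * N + 12) with hH8
    have hH8p : 0 < H8 := by positivity
    obtain ⟨a, haa⟩ : ∃ a : ℕ, (a : ℤ) = g / H8 := ⟨(g / H8).toNat, by
      have := Int.ediv_nonneg hg0 hH8p.le
      omega⟩
    have e1 : H8 * a ≤ g := by rw [haa]; exact Int.mul_ediv_self_le hH8p.ne'
    have e2 : g < H8 * a + H8 := by
      rw [haa]
      have := Int.lt_ediv_add_one_mul_self g hH8p
      linarith
    have e3 : 8 * bb N a = H8 * a := by unfold bb; push_cast; ring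
    have hga : (g : ℝ) < 8 * (2 * N + 12) * a + 8 * (2 * N + 12) := by
      have : ((g : ℤ) : ℝ) < ((H8 * a + H8 : ℤ) : ℝ) := by exact_mod_cast e2
      rw [hH8] at this
      push_cast at this
      exact this
    have hgθ : θ * n < g := by
      have : (⌊θ * n⌋ : ℝ) + 1 ≤ g := by exact_mod_cast h9
      have := Int.lt_floor_add_one (θ * n)
      linarith
    have hsa : s * n ≤ a := by
      have k1 : s * (128 * (2 * N + 12)) * n ≤ θ * n := mul_le_mul_of_nonneg_right hsθ hn'.le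
      have k2 : (8 * (2 * (N:ℝ) + 12)) * (16 * (s * n)) < (8 * (2 * N + 12)) * (a + 1) := by
        linarith
      have k3 := lt_of_mul_lt_mul_left k2 (by positivity)
      linarith
    have ha64 : 64 ≤ a := by
      have : (64 : ℝ) ≤ a := h64.trans hsa
      exact_mod_cast this
    have haa0 : a0 ≤ a := by
      have : (a0 : ℝ) ≤ a := ha0.trans hsa
      exact_mod_cast this
    have hbl := bb_lo (N := N) ha64
    obtain ⟨e9, e10, eb, e32, ha1, e2'⟩ := bb_facts (N := N) (a := a) (by omega) hN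
    have han : a ≤ n := by omega
    obtain ⟨Z, yh, hpat, hbx⟩ := hbox a haa0
    have hfree : ∀ x ∈ L, x.2 - p'.2 ≤ g → p'.2 - x.2 ≤ g → 3 * g ≤ 4 * (x.1 - v.1) := by
      intro x hx k1 k2
      have k3 := h6 x hx (by omega) (by omega)
      have k4 : |x.2 - x1.2| ≤ |x.2 - p'.2| + |p'.2 - x1.2| := abs_sub_le _ _ _
      have k5 : |x.2 - p'.2| ≤ g := by rw [abs_le]; omega
      omega
    set c : Vtx := (v.1 + 4 * bb N a, p'.2) with hc
    have c1 : c.1 = v.1 + 4 * bb N a := by rw [hc]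
    have c2 : c.2 = p'.2 := by rw [hc]
    have hwd := wd1 (ρ := ρ) (g := g) (cy := p'.2) sdd hv1 hvm hvn hvy hρm ha64 hN (by omega)
      (by omega) (by omega) (by omega) hfree hc
    refine dock_gen (a := a) (c := c) (Q := 4000 * (2 * N + 12)) (Z := Z) (yh := yh) hwd hr1 hr hM
      hB hc0 hE0 hκ0 hκ (by positivity) hpat ht hbx (fun C hC => ?_) hs hn han hsa hH0 hH0S hconn
    refine hook1 hwd hN hr hpat ?_ ?_ ?_ ?_ hk (by omega) hC
    · intro e he hne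
      exfalso
      apply hne
      rw [tc_RE]
      refine Hk1_sub (by omega) hN ?_ ?_ ?_ ?_ he
      · rw [c1]; omega
      · rw [c1]; omega
      · rw [c2]; omega
      · rw [c2]; omega
    · intro x hx k1 k2
      have k3 := hfree (x.1 + c.1, x.2 + c.2) hx (by simp only [c2]; omega)
        (by simp only [c2]; omega)
      simp only [c1] at k3
      rw [e10]
      omega
    · refine ⟨(g - 4 * bb N a, 0), ?_, ?_, ?_, ?_⟩
      · show (g - 4 * bb N a + c.1, (0:ℤ) + c.2) ∈ L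
        have : ((g - 4 * bb N a + c.1, (0:ℤ) + c.2) : Vtx) = p' := by
          rw [c1, c2]
          apply Prod.ext <;> simp only <;> omega
        rw [this]
        exact hp'
      · simp only; omega
      · simp only; omega
      · simp only; omega
    · rw [c2]; omega
  · push Not at hI
    set H64 : ℕ := 64 * (2 * N + 12) with hH64
    have hH64p : 0 < H64 := by omega
    obtain ⟨a, haa⟩ : ∃ a : ℕ, a = ρ / H64 := ⟨_, rfl⟩
    have e1 : H64 * a ≤ ρ := by rw [haa]; exact Nat.mul_div_le _ _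
    have e2 : ρ < H64 * a + H64 := by
      rw [haa]
      have := Nat.lt_mul_div_succ ρ hH64p
      linarith
    have e3 : 64 * bb N a = ((H64 * a : ℕ) : ℤ) := by unfold bb; rw [hH64]; push_cast; ring
    have hsa : s * n ≤ a := by
      have k0 : (ρ : ℝ) < 64 * (2 * N + 12) * a + 64 * (2 * N + 12) := by
        have : ((ρ : ℕ) : ℝ) < ((H64 * a + H64 : ℕ) : ℝ) := by exact_mod_cast e2
        rw [hH64] at this
        push_cast at this
        exact this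
      have k1 : s * (128 * (2 * N + 12)) * n ≤ σ * n := mul_le_mul_of_nonneg_right hsσ hn'.le
      have k2 : (64 * (2 * (N:ℝ) + 12)) * (2 * (s * n)) < (64 * (2 * N + 12)) * (a + 1) := by
        linarith
      have k3 := lt_of_mul_lt_mul_left k2 (by positivity)
      linarith
    have ha64 : 64 ≤ a := by
      have : (64 : ℝ) ≤ a := h64.trans hsa
      exact_mod_cast this
    have haa0 : a0 ≤ a := by
      have : (a0 : ℝ) ≤ a := ha0.trans hsa
      exact_mod_cast this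
    have hbl := bb_lo (N := N) ha64
    have hρ1 : 64 * bb N a ≤ ρ := by rw [e3]; exact_mod_cast e1
    have hρ2 : (ρ : ℤ) ≤ 128 * bb N a := by
      have : (ρ : ℤ) < ((H64 * a : ℕ) : ℤ) + (H64 : ℤ) := by exact_mod_cast e2
      rw [← e3, hH64] at this
      push_cast at this
      omega
    obtain ⟨e9, e10, eb, e32, ha1, e2'⟩ := bb_facts (N := N) (a := a) (by omega) hN
    have han : a ≤ n := by omega
    obtain ⟨Z, yh, hpat, hbx⟩ := hbox a haa0
    have hfree : ∀ x ∈ L, v.2 - 16 * ρ ≤ x.2 → x.2 ≤ v.2 - 14 * ρ → ρ < 8 * (x.1 - v.1) :=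
      fun x hx k1 k2 => hI x hx k1 k2
    set c : Vtx := (v.1 + 4 * bb N a, v.2 - 15 * ρ) with hc
    have c1 : c.1 = v.1 + 4 * bb N a := by rw [hc]
    have c2 : c.2 = v.2 - 15 * ρ := by rw [hc]
    have hwd := wd2 (ρ := ρ) sdd hv1 hvm hvn hvy hρm ha64 hN hnA hρ1 hρ2 hfree hc
    refine dock_gen (a := a) (c := c) (Q := 4000 * (2 * N + 12)) (Z := Z) (yh := yh) hwd hr1 hr hM
      hB hc0 hE0 hκ0 hκ (by positivity) hpat ht hbx (fun C hC => ?_) hs hn han hsa hH0 hH0S hconn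
    refine hook2 (ρ := (ρ : ℤ)) hwd hN hr hpat ?_ ?_ ?_ ?_ ?_ hk (by omega) ?_ hC
    · intro e he hne
      have k1 := Hk2_end (by omega) hN (by rw [c1]; omega) (by rw [c1]; omega) (by omega) he
        (Or.inl rfl)
      have k2 := Hk2_end (by omega) hN (by rw [c1]; omega) (by rw [c1]; omega) (by omega) he
        (Or.inr rfl)
      rw [tc_RE] at hne
      obtain ⟨x, y, b⟩ := e
      rw [e9, c1] at k1 k2
      rw [c1, c2] at hne
      rw [c2]
      cases b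
      · rw [mem_RE_false] at hne
        simp only [src_mk, tgt_false] at k1 k2 ⊢
        omega
      · rw [mem_RE_true] at hne
        simp only [src_mk, tgt_true] at k1 k2 ⊢
        omega
    · intro y hy hL
      have h1 : ((v.1 - c.1 + c.1, y + c.2) : Vtx) ∈ L := hL
      rw [sub_add_cancel] at h1
      exact hnA _ (by omega) h1
    · rw [c2]; omega
    · rw [c1]; omega
    · omega
    · have h1 : (2048 : ℤ) ≤ K := by
        have : 2048 ≤ K := by omega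
        exact_mod_cast this
      have h2 : (0:ℤ) ≤ bb N a := by omega
      have h3 : (2048 : ℤ) * bb N a ≤ K * bb N a := mul_le_mul_of_nonneg_right h1 h2
      omega

end Pool.Agent.V5helper99.OB
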