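import Pool.Agent.V5helper99.OB.Ring

/-!
# The hooks: connection of the ring to the strand
-/

set_option autoImplicit false
set_option maxHeartbeats 4000000

namespace Pool.Agent.V5helper99.OB

open H974 H12S Finset H984P H984N

/-! ### Crossing probabilities of long rectangles -/

theorem hh_long (K : ℕ) : ∃ k : ℕ, ∀ h : ℤ, 1 ≤ h → (1/2 : ℝ) ^ k ≤ hh (1/2) (K * h) h := by
  have key : ∀ j : ℕ, ∃ k : ℕ, ∀ h : ℤ, 1 ≤ h →
      (1/2 : ℝ) ^ k ≤ hh (1/2) ((2 ^ j + 1) * h) h := by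
    intro j
    induction j with
    | zero =>
      refine ⟨47, fun h hh0 => ?_⟩
      have := WH.base hh0
      rwa [show (((2:ℤ) ^ 0 + 1) * h) = 2 * h by ring]
    | succ j ih =>
      obtain ⟨k, hk⟩ := ih
      refine ⟨2 * k + 1, fun h hh0 => ?_⟩
      have h2 : (1:ℤ) ≤ 2 ^ j := one_le_pow₀ (by norm_num)
      have := WH.step (h := h) (w := (2 ^ j + 1) * h) (by omega) (by nlinarith) (hk h hh0)
      rwa [show ((2:ℤ) ^ j + 1) * h + (2 ^ j + 1) * h - h = (2 ^ (j + 1) + 1) * h by ring] at this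
  obtain ⟨k, hk⟩ := key K
  refine ⟨k, fun h hh0 => (hk h hh0).trans ?_⟩
  rcases Nat.eq_zero_or_pos K with h0 | h0
  · subst h0
    simp only [Nat.cast_zero, zero_mul]
    have h3 : hh (1/2) 0 h = 1 := by
      unfold hh
      apply Pr_true
      intro F _
      exact ⟨0, 0, ⟨le_rfl, by omega⟩, ⟨le_rfl, by omega⟩, Reach.refl _ _⟩
    rw [h3]
    exact hh_le_one (by norm_num) (by norm_num) _ _
  · refine hh_mono (by norm_num) (by norm_num) (by positivity) ?_ le_rfl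
    have : (K : ℤ) ≤ 2 ^ K + 1 := by
      have := (Nat.lt_two_pow_self (n := K)).le
      have h3 : ((K : ℕ) : ℤ) ≤ ((2 ^ K : ℕ) : ℤ) := by exact_mod_cast this
      push_cast at h3
      omega
    nlinarith

theorem pLR {K k : ℕ} (hk : ∀ h : ℤ, 1 ≤ h → (1/2 : ℝ) ^ k ≤ hh (1/2) (K * h) h) {a b c d : ℤ}
    (h1 : a < b) (h2 : c < d) (h3 : b - a ≤ K * (d - c)) {S : Finset Edg}
    (hS : LRE a b c d ⊆ S) : (1/2 : ℝ) ^ k ≤ PQ (1/2) S (LRc a b c d) := by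
  have := pr_LRc (1/2) hS
  unfold PQ
  rw [this]
  exact (hk (d - c) (by omega)).trans (hh_mono (by norm_num) (by norm_num) (by omega) h3 le_rfl)

theorem pTB {K k : ℕ} (hk : ∀ h : ℤ, 1 ≤ h → (1/2 : ℝ) ^ k ≤ hh (1/2) (K * h) h) {a b c d : ℤ}
    (h1 : a < b) (h2 : c < d) (h3 : d - c ≤ K * (b - a)) {S : Finset Edg}
    (hS : TBE a b c d ⊆ S) : (1/2 : ℝ) ^ k ≤ PQ (1/2) S (TBc a b c d) := by
  have := pr_TBc (1/2) hS
  unfold PQ
  rw [this]
  exact (hk (b - a) (by omega)).trans (hh_mono (by norm_num) (by norm_num) (by omega) h3 le_rfl)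

/-- Harris for two increasing events with lower bounds. -/
theorem p2 {S : Finset Edg} {A B : Finset Edg → Prop} {i j : ℕ} (hA : IncrE S A)
    (hB : IncrE S B) (h1 : (1/2 : ℝ) ^ i ≤ PQ (1/2) S A) (h2 : (1/2 : ℝ) ^ j ≤ PQ (1/2) S B) :
    IncrE S (fun F => A F ∧ B F) ∧ (1/2 : ℝ) ^ (i + j) ≤ PQ (1/2) S (fun F => A F ∧ B F) := by
  have ok : Ok (fun _ : Edg => (1/2 : ℝ)) := okq (by norm_num) (by norm_num)
  refine ⟨fun F G h3 h4 h5 => ⟨hA F G h3 h4 h5.1, hB F G h3 h4 h5.2⟩, ?_⟩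
  refine le_trans ?_ (Pr_harris ok hA hB)
  rw [pow_add]
  exact mul_le_mul h1 h2 (by positivity) (Pr_nonneg ok _ _)

section
variable {S k : Finset Edg} {A y0 X top : ℤ} {P : Vtx → Prop} {L W0 : Set Vtx}
  {N a Q : ℕ} {Hk : Finset Edg} {r : ℕ} {Z : Finset (ℤ × ℤ)} {yh : ℤ}

theorem hhook_of {C : Finset Vtx} {j : ℕ}
    (hES : ES N r a Z yh C ⊆ UU S k W0)
    (hD : D0 S k P W0 Hk N r a Z yh C ⊆ UU S k W0)
    {St : Finset Edg → Prop} (hSt : IncrE (UU S k W0 ∪ Hk) St)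
    (hP : (1/2 : ℝ) ^ j ≤ PQ (1/2) (UU S k W0 ∪ Hk) St)
    (hdet : ∀ G : Finset Edg, St G → Esc N r a Z yh C (↑G : Set Edg) →
      A2 S k P W0 L Hk N r a Z yh C G) :
    (1/2 : ℝ) ^ j * PQ (1 / 2) (UU S k W0) (fun F => Esc N r a Z yh C (↑F : Set Edg)) ≤
      PQ (1 / 2) (UU S k W0) (A2 S k P W0 L Hk N r a Z yh C) := by
  have ok : Ok (fun _ : Edg => (1/2 : ℝ)) := okq (by norm_num) (by norm_num)
  have e1 : PQ (1/2) (UU S k W0 ∪ Hk) (A2 S k P W0 L Hk N r a Z yh C) =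
      PQ (1/2) (UU S k W0) (A2 S k P W0 L Hk N r a Z yh C) :=
    Pr_local Finset.subset_union_left (fun F _ => A2_local C hD F)
  have e2 : PQ (1/2) (UU S k W0 ∪ Hk) (fun F => Esc N r a Z yh C (↑F : Set Edg)) =
      PQ (1/2) (UU S k W0) (fun F => Esc N r a Z yh C (↑F : Set Edg)) :=
    Pr_local Finset.subset_union_left (fun F _ => Esc_local C hES F)
  have hEi : IncrE (UU S k W0 ∪ Hk) (fun F => Esc N r a Z yh C (↑F : Set Edg)) := by
    rintro F G h1 _ ⟨c, hc, y, hy, hr⟩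
    exact ⟨c, hc, y, hy, hr.mono (Set.inter_subset_inter_left _ (by exact_mod_cast h1))⟩
  rw [← e1, ← e2]
  calc (1/2 : ℝ) ^ j * PQ (1/2) (UU S k W0 ∪ Hk) (fun F => Esc N r a Z yh C (↑F : Set Edg))
      ≤ PQ (1/2) (UU S k W0 ∪ Hk) St *
        PQ (1/2) (UU S k W0 ∪ Hk) (fun F => Esc N r a Z yh C (↑F : Set Edg)) :=
        mul_le_mul_of_nonneg_right hP (Pr_nonneg ok _ _)
    _ ≤ PQ (1/2) (UU S k W0 ∪ Hk) (fun F => St F ∧ Esc N r a Z yh C (↑F : Set Edg)) :=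
        Pr_harris ok hSt hEi
    _ ≤ _ := Pr_mono ok (fun F _ h => hdet F h.1 h.2)

/-- vertices outside of the box and of the mouth -/
def OKx (N a : ℕ) (yh : ℤ) (x : Vtx) : Prop :=
  ((N + 9) * a : ℕ) ≤ x.1 ∨ ((2 * N + 9) * a : ℕ) ≤ |x.2| ∨
    (x.1 ≤ -((N + 9) * a : ℕ) ∧ (16 * a : ℕ) < |x.2 - yh * a|)

theorem mul_bd {z : ℤ} {N a : ℕ} (h : |z| ≤ N) :
    -((N : ℤ) * a) ≤ z * a ∧ z * a ≤ N * a := by
  rw [abs_le] at h
  have ha0 : (0:ℤ) ≤ a := Int.natCast_nonneg a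
  constructor
  · have := mul_le_mul_of_nonneg_right h.1 ha0
    linarith
  · exact mul_le_mul_of_nonneg_right h.2 ha0

theorem OKx_WS (ha : 1 ≤ a) (hN : 32 ≤ N) (hr : 64 * r ≤ N) (hpat : Pat N Z yh) {x : Vtx}
    (hx : OKx N a yh x) : x ∉ WS N r a Z yh := by
  have e9 : (((N + 9) * a : ℕ) : ℤ) = N * a + 9 * a := by push_cast; ring
  have e2 : (((2 * N + 9) * a : ℕ) : ℤ) = 2 * (N * a) + 9 * a := by push_cast; ring
  have e5 : ((N * a : ℕ) : ℤ) = N * a := by push_cast; ring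
  have e7 : ((8 * r * a : ℕ) : ℤ) = 8 * (r * a) := by push_cast; ring
  have e8 : (64 : ℤ) * (r * a) ≤ N * a := by
    have : 64 * r * a ≤ N * a := Nat.mul_le_mul_right _ hr
    have h2 : (((64 * r * a : ℕ)) : ℤ) ≤ ((N * a : ℕ) : ℤ) := by exact_mod_cast this
    push_cast at h2
    linarith
  have e32 : (32 : ℤ) * a ≤ N * a := by
    have : 32 * a ≤ N * a := Nat.mul_le_mul_right _ hN
    have h2 : (((32 * a : ℕ)) : ℤ) ≤ ((N * a : ℕ) : ℤ) := by exact_mod_cast this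
    push_cast at h2
    linarith
  have ha1 : (1:ℤ) ≤ a := by exact_mod_cast ha
  have hra : (0:ℤ) ≤ r * a := by positivity
  have hyh := mul_bd (a := a) (hpat.bd _ hpat.mth).2
  simp only at hyh
  unfold OKx at hx
  rw [e9, e2, le_abs, lt_abs] at hx
  rintro (⟨z, hz, h1, h2⟩ | ⟨h1, h2⟩ | h1)
  · have hz1 := mul_bd (a := a) (hpat.bd z hz).1
    have hz2 := mul_bd (a := a) (hpat.bd z hz).2
    rw [abs_le] at h1 h2
    push_cast at h1 h2 hx
    rcases hx with hx | (hx | hx) | ⟨hx, _⟩ <;> omega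
  · rw [abs_le] at h1 h2
    push_cast at h1 h2 hx
    rcases hx with hx | (hx | hx) | ⟨hx, (hx2 | hx2)⟩ <;> omega
  · rw [sd_le_iff, abs_le, abs_le, e7] at h1
    simp only [sub_zero] at h1
    push_cast at hx
    rcases hx with hx | (hx | hx) | ⟨hx, _⟩ <;> omega

theorem OKx_ES (ha : 1 ≤ a) (hN : 32 ≤ N) (hr : 64 * r ≤ N) (hpat : Pat N Z yh)
    {C : Finset Vtx} {e : Edg} (he : e ∈ TP N a) (h1 : OKx N a yh (src e))
    (h2 : OKx N a yh (tgt e)) : e ∈ ES N r a Z yh C := by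
  rw [mem_ES]
  refine ⟨he, fun h3 => ?_, OKx_WS ha hN hr hpat h1, OKx_WS ha hN hr hpat h2⟩
  have h4 := TE_end (mem_tE.1 h3).1 (ends_self e)
  have e9 : (((N + 9) * a : ℕ) : ℤ) = N * a + 9 * a := by push_cast; ring
  have e2 : (((2 * N + 9) * a : ℕ) : ℤ) = 2 * (N * a) + 9 * a := by push_cast; ring
  have e5 : ((N * a : ℕ) : ℤ) = N * a := by push_cast; ring
  have e6 : (((2 * N * a : ℕ)) : ℤ) = 2 * (N * a) := by push_cast; ring
  have ha1 : (1:ℤ) ≤ a := by exact_mod_cast ha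
  unfold OKx at h1
  rw [e9, e2, le_abs] at h1
  rw [e5, e6, abs_le, abs_le] at h4
  rcases h1 with hx | (hx | hx) | ⟨hx, _⟩ <;> omega

/-- The events in the ring. -/
def RgEv (N a : ℕ) (yh q0 : ℤ) (G : Finset Edg) : Prop :=
  (LRc (-((N + 10) * a : ℕ)) ((N + 10) * a : ℕ) ((2 * N + 9) * a : ℕ) ((2 * N + 10) * a : ℕ) G ∧
    LRc (-((N + 10) * a : ℕ)) ((N + 10) * a : ℕ) (-((2 * N + 10) * a : ℕ))
      (-((2 * N + 9) * a : ℕ)) G) ∧
  (TBc (-((N + 10) * a : ℕ)) (-((N + 9) * a : ℕ)) ((yh + 16) * a + 1) ((2 * N + 10) * a : ℕ) G ∧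
    TBc (-((N + 10) * a : ℕ)) (-((N + 9) * a : ℕ)) (-((2 * N + 10) * a : ℕ))
      ((yh - 16) * a - 1) G) ∧
  TBc ((N + 9) * a : ℕ) ((N + 10) * a : ℕ) (-q0) q0 G

theorem RgEv_prob (ha : 1 ≤ a) (hN : 32 ≤ N) (hpat : Pat N Z yh) {K kk : ℕ}
    (hk : ∀ h : ℤ, 1 ≤ h → (1/2 : ℝ) ^ kk ≤ hh (1/2) (K * h) h) (hK : 8 * N ≤ K) {q0 : ℤ}
    (hq0 : 0 < q0) (hq1 : 2 * q0 ≤ K * a) {S'' : Finset Edg} (hTP : TP N a ⊆ S'')
    (hR0 : RE ((N + 9) * a : ℕ) ((N + 10) * a : ℕ) (-q0) q0 ⊆ S'') :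
    IncrE S'' (RgEv N a yh q0) ∧ (1/2 : ℝ) ^ (5 * kk) ≤ PQ (1/2) S'' (RgEv N a yh q0) := by
  have e9 : (((N + 9) * a : ℕ) : ℤ) = N * a + 9 * a := by push_cast; ring
  have e10 : (((N + 10) * a : ℕ) : ℤ) = N * a + 10 * a := by push_cast; ring
  have e2 : (((2 * N + 9) * a : ℕ) : ℤ) = 2 * (N * a) + 9 * a := by push_cast; ring
  have e2' : (((2 * N + 10) * a : ℕ) : ℤ) = 2 * (N * a) + 10 * a := by push_cast; ring
  have e32 : (32 : ℤ) * a ≤ N * a := by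
    have : 32 * a ≤ N * a := Nat.mul_le_mul_right _ hN
    have h2 : (((32 * a : ℕ)) : ℤ) ≤ ((N * a : ℕ) : ℤ) := by exact_mod_cast this
    push_cast at h2
    linarith
  have eK : (8 : ℤ) * (N * a) ≤ K * a := by
    have : 8 * N * a ≤ K * a := Nat.mul_le_mul_right _ hK
    have h2 : (((8 * N * a : ℕ)) : ℤ) ≤ ((K * a : ℕ) : ℤ) := by exact_mod_cast this
    push_cast at h2
    linarith
  have ha1 : (1:ℤ) ≤ a := by exact_mod_cast ha
  have hyh := mul_bd (a := a) (hpat.bd _ hpat.mth).2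
  simp only at hyh
  have y1 : (yh + 16) * (a:ℤ) = yh * a + 16 * a := by ring
  have y2 : (yh - 16) * (a:ℤ) = yh * a - 16 * a := by ring
  have sub : ∀ a' b' c' d' : ℤ, -(N * a + 10 * a : ℤ) ≤ a' → b' ≤ N * a + 10 * a →
      -(2 * (N * a) + 10 * a : ℤ) ≤ c' → d' ≤ 2 * (N * a) + 10 * a →
      RE a' b' c' d' ⊆ S'' := by
    intro a' b' c' d' h1 h2 h3 h4
    refine (RE_subset ?_ ?_ ?_ ?_).trans hTP
    · rw [e10]; exact h1
    · rw [e10]; exact h2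
    · rw [e2']; exact h3
    · rw [e2']; exact h4
  have c1 : (1/2 : ℝ) ^ kk ≤ PQ (1/2) S'' (LRc (-((N + 10) * a : ℕ)) ((N + 10) * a : ℕ)
      ((2 * N + 9) * a : ℕ) ((2 * N + 10) * a : ℕ)) := by
    rw [e10, e2, e2']
    refine pLR hk (by omega) (by omega) ?_ (LRE_subset_RE.trans (sub _ _ _ _ ?_ ?_ ?_ ?_))
    · rw [show (2 * ((N:ℤ) * a) + 10 * a - (2 * (N * a) + 9 * a)) = (a:ℤ) by ring]; omega
    all_goals omega
  have c2 : (1/2 : ℝ) ^ kk ≤ PQ (1/2) S'' (LRc (-((N + 10) * a : ℕ)) ((N + 10) * a : ℕ)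
      (-((2 * N + 10) * a : ℕ)) (-((2 * N + 9) * a : ℕ))) := by
    rw [e10, e2, e2']
    refine pLR hk (by omega) (by omega) ?_ (LRE_subset_RE.trans (sub _ _ _ _ ?_ ?_ ?_ ?_))
    · rw [show (-(2 * ((N:ℤ) * a) + 9 * a) - -(2 * (N * a) + 10 * a)) = (a:ℤ) by ring]; omega
    all_goals omega
  have c3 : (1/2 : ℝ) ^ kk ≤ PQ (1/2) S'' (TBc (-((N + 10) * a : ℕ)) (-((N + 9) * a : ℕ))
      ((yh + 16) * a + 1) ((2 * N + 10) * a : ℕ)) := by
    rw [e10, e9, e2', y1]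
    refine pTB hk (by omega) (by omega) ?_ (TBE_subset_RE.trans (sub _ _ _ _ ?_ ?_ ?_ ?_))
    · rw [show (-((N:ℤ) * a + 9 * a) - -(N * a + 10 * a)) = (a:ℤ) by ring]; omega
    all_goals omega
  have c4 : (1/2 : ℝ) ^ kk ≤ PQ (1/2) S'' (TBc (-((N + 10) * a : ℕ)) (-((N + 9) * a : ℕ))
      (-((2 * N + 10) * a : ℕ)) ((yh - 16) * a - 1)) := by
    rw [e10, e9, e2', y2]
    refine pTB hk (by omega) (by omega) ?_ (TBE_subset_RE.trans (sub _ _ _ _ ?_ ?_ ?_ ?_))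
    · rw [show (-((N:ℤ) * a + 9 * a) - -(N * a + 10 * a)) = (a:ℤ) by ring]; omega
    all_goals omega
  have c5 : (1/2 : ℝ) ^ kk ≤ PQ (1/2) S'' (TBc ((N + 9) * a : ℕ) ((N + 10) * a : ℕ) (-q0) q0) := by
    refine pTB hk (by rw [e9, e10]; omega) (by omega) ?_ (TBE_subset_RE.trans hR0)
    rw [e9, e10, show ((N:ℤ) * a + 10 * a - (N * a + 9 * a)) = (a:ℤ) by ring]; omega
  have d1 := p2 (LRc_incr S'' _ _ _ _) (LRc_incr S'' _ _ _ _) c1 c2
  have d2 := p2 (TBc_incr S'' _ _ _ _) (TBc_incr S'' _ _ _ _) c3 c4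
  have d3 := p2 d2.1 (TBc_incr S'' _ _ _ _) d2.2 c5
  have d4 := p2 d1.1 d3.1 d1.2 d3.2
  refine ⟨?_, ?_⟩
  · intro F G h1 h2 h3
    have := d4.1 F G h1 h2 ⟨h3.1, h3.2.1, h3.2.2⟩
    exact ⟨this.1, this.2.1, this.2.2⟩
  · have h5 : kk + kk + (kk + kk + kk) = 5 * kk := by ring
    rw [h5] at d4
    refine d4.2.trans (Pr_mono (okq (by norm_num) (by norm_num)) ?_)
    intro F _ h
    exact ⟨h.1, h.2.1, h.2.2⟩

/-- The ring events connect `C` to the crossing of the right strip. -/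
theorem ring_conn (ha : 1 ≤ a) (hN : 32 ≤ N) (hr : 64 * r ≤ N) (hpat : Pat N Z yh)
    {C : Finset Vtx} (hbox : ∀ y ∈ C, |y.1| ≤ (N * a : ℕ) ∧ |y.2| ≤ (2 * N * a : ℕ)) {q0 : ℤ}
    (hq : ((2 * N + 10) * a : ℕ) ≤ q0)
    (hR0 : RE ((N + 9) * a : ℕ) ((N + 10) * a : ℕ) (-q0) q0 ⊆ Hk)
    {G : Finset Edg} (hG : RgEv N a yh q0 G) (hE : Esc N r a Z yh C (↑G : Set Edg)) :
    ∃ c ∈ C, ∃ r1 r2 : ℤ, Reach ((↑G : Set Edg) ∩ (↑(ES N r a Z yh C) ∪ ↑Hk)) c (r1, -q0) ∧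
      Reach (((↑G : Set Edg) ∩ (↑(ES N r a Z yh C) ∪ ↑Hk)) ∩
        ↑(RE ((N + 9) * a : ℕ) ((N + 10) * a : ℕ) (-q0) q0)) (r1, -q0) (r2, q0) := by
  obtain ⟨⟨⟨t1, t2, -, -, hT⟩, ⟨b1, b2, -, -, hB⟩⟩, ⟨⟨u1, u2, -, -, hU⟩,
    ⟨l1, l2, -, -, hL⟩⟩, ⟨r1, r2, -, -, hR⟩⟩ := hG
  rw [Esc_iff] at hE
  obtain ⟨c, hc, y, hy, hp⟩ := hE
  have e9 : (((N + 9) * a : ℕ) : ℤ) = N * a + 9 * a := by push_cast; ring
  have e10 : (((N + 10) * a : ℕ) : ℤ) = N * a + 10 * a := by push_cast; ring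
  have e2 : (((2 * N + 9) * a : ℕ) : ℤ) = 2 * (N * a) + 9 * a := by push_cast; ring
  have e2' : (((2 * N + 10) * a : ℕ) : ℤ) = 2 * (N * a) + 10 * a := by push_cast; ring
  have e5 : ((N * a : ℕ) : ℤ) = N * a := by push_cast; ring
  have e6 : (((2 * N * a : ℕ)) : ℤ) = 2 * (N * a) := by push_cast; ring
  have e32 : (32 : ℤ) * a ≤ N * a := by
    have : 32 * a ≤ N * a := Nat.mul_le_mul_right _ hN
    have h2 : (((32 * a : ℕ)) : ℤ) ≤ ((N * a : ℕ) : ℤ) := by exact_mod_cast this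
    push_cast at h2
    linarith
  have ha1 : (1:ℤ) ≤ a := by exact_mod_cast ha
  have hyh := mul_bd (a := a) (hpat.bd _ hpat.mth).2
  simp only at hyh
  have y1 : (yh + 16) * (a:ℤ) = yh * a + 16 * a := by ring
  have y2 : (yh - 16) * (a:ℤ) = yh * a - 16 * a := by ring
  rw [y1] at hU
  rw [y2] at hL
  set Fs : Set Edg := (↑G : Set Edg) ∩ (↑(ES N r a Z yh C) ∪ ↑Hk) with hFs
  -- strips in the ring
  have strip : ∀ a' b' c' d' : ℤ, -(N * a + 10 * a : ℤ) ≤ a' → b' ≤ N * a + 10 * a →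
      -(2 * (N * a) + 10 * a : ℤ) ≤ c' → d' ≤ 2 * (N * a) + 10 * a →
      (∀ x : Vtx, inR a' b' c' d' x → OKx N a yh x) → ∀ {u v : Vtx},
      Reach ((↑G : Set Edg) ∩ ↑(RE a' b' c' d')) u v → Reach (Fs ∩ ↑(RE a' b' c' d')) u v := by
    intro a' b' c' d' h1 h2 h3 h4 h5 u v h6
    refine h6.mono ?_
    rintro e ⟨he1, he2⟩
    refine ⟨⟨he1, Or.inl ?_⟩, he2⟩
    have hTP : e ∈ TP N a := by
      unfold TP
      rw [e10, e2']
      exact RE_subset (by omega) (by omega) (by omega) (by omega) he2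
    obtain ⟨x, y, b⟩ := e
    have hin : inR a' b' c' d' (src (x, y, b)) ∧ inR a' b' c' d' (tgt (x, y, b)) := by
      unfold inR
      cases b
      · simp only [mem_coe, mem_RE_false] at he2
        simp only [src_mk, tgt_false]
        omega
      · simp only [mem_coe, mem_RE_true] at he2
        simp only [src_mk, tgt_true]
        omega
    exact_mod_cast OKx_ES ha hN hr hpat hTP (h5 _ hin.1) (h5 _ hin.2)
  have okT : ∀ x : Vtx, inR (-(N * a + 10 * a)) (N * a + 10 * a) (2 * (N * a) + 9 * a)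
      (2 * (N * a) + 10 * a) x → OKx N a yh x := by
    intro x hx
    unfold inR at hx
    unfold OKx
    rw [e9, e2, le_abs]
    omega
  have okB : ∀ x : Vtx, inR (-(N * a + 10 * a)) (N * a + 10 * a) (-(2 * (N * a) + 10 * a))
      (-(2 * (N * a) + 9 * a)) x → OKx N a yh x := by
    intro x hx
    unfold inR at hx
    unfold OKx
    rw [e9, e2, le_abs]
    omega
  have okU : ∀ x : Vtx, inR (-(N * a + 10 * a)) (-(N * a + 9 * a)) (yh * a + 16 * a + 1)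
      (2 * (N * a) + 10 * a) x → OKx N a yh x := by
    intro x hx
    unfold inR at hx
    unfold OKx
    rw [e9, e2, le_abs, lt_abs]
    push_cast
    omega
  have okL : ∀ x : Vtx, inR (-(N * a + 10 * a)) (-(N * a + 9 * a)) (-(2 * (N * a) + 10 * a))
      (yh * a - 16 * a - 1) x → OKx N a yh x := by
    intro x hx
    unfold inR at hx
    unfold OKx
    rw [e9, e2, le_abs, lt_abs]
    push_cast
    omega
  simp only [e9, e10, e2, e2'] at hT hB hU hL hR hy hq hR0 ⊢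
  have hT' := strip _ _ _ _ le_rfl le_rfl (by omega) le_rfl okT (reach_sub LRE_subset_RE hT)
  have hB' := strip _ _ _ _ le_rfl le_rfl le_rfl (by omega) okB (reach_sub LRE_subset_RE hB)
  have hU' := strip _ _ _ _ le_rfl (by omega) (by omega) le_rfl okU (reach_sub TBE_subset_RE hU)
  have hL' := strip _ _ _ _ le_rfl (by omega) le_rfl (by omega) okL (reach_sub TBE_subset_RE hL)
  have hR' : Reach (Fs ∩ ↑(RE (N * a + 9 * a : ℤ) (N * a + 10 * a) (-q0) q0)) (r1, -q0) (r2, q0) := by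
    refine (reach_sub TBE_subset_RE hR).mono ?_
    rintro e ⟨he1, he2⟩
    exact ⟨⟨he1, Or.inr (by exact_mod_cast hR0 (by exact_mod_cast he2))⟩, he2⟩
  have hbc := hbox c hc
  rw [e5, e6, abs_le, abs_le] at hbc
  refine ⟨c, hc, r1, r2, ?_, hR'⟩
  refine ring_meet (Fs := Fs) (a := a) (n9 := N * a + 9 * a) (n10 := N * a + 10 * a)
    (m9 := 2 * (N * a) + 9 * a) (m10 := 2 * (N * a) + 10 * a) (q0 := q0)
    (ym := yh * a - 16 * a) (yp := yh * a + 16 * a) (by omega) (by ring) (by ring) (by omega) hq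
    (by omega) (by omega) (by omega) hT' hB' hU' hL' hR' (c := c) (y := y) (by omega) (by omega)
    hy ?_
  refine hp.mono ?_
  rintro e ⟨he1, he2⟩
  have he3 := mem_ES.1 (show e ∈ ES N r a Z yh C by exact_mod_cast he2)
  have hmth : ∀ x u : Vtx, Ends e x u → x ∉ WS N r a Z yh →
      x ∉ Mth (N * a + 9 * a) (yh * a - 16 * a) (yh * a + 16 * a) := by
    rintro x u hxe hx ⟨h1, h2, h3⟩
    apply hx
    have h4 := (TP_end he3.1 hxe).1
    rw [e10, abs_le] at h4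
    right; left
    rw [abs_le, abs_le]
    push_cast
    omega
  refine ⟨⟨he1, Or.inl he2⟩, ⟨hmth _ _ (ends_self e) he3.2.2.1,
    hmth _ _ (ends_self e).symm he3.2.2.2⟩, ?_⟩
  have := he3.1
  unfold TP at this
  rw [e10, e2'] at this
  exact_mod_cast this

end

end Pool.Agent.V5helper99.OB
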