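import Pool.Agent.V5helper99.OB.Hook

/-!
# The two types of hooks
-/

set_option autoImplicit false
set_option maxHeartbeats 4000000

namespace Pool.Agent.V5helper99.OB

open H974 H12S Finset H984P H984N

/-- The unit of the hooks. -/
def bb (N a : ℕ) : ℤ := ((2 * N + 12) * a : ℕ)

theorem bb_eq (N a : ℕ) : bb N a = 2 * ((N : ℤ) * a) + 12 * a := by
  unfold bb; push_cast; ring

/-- The edges of the hook around a contact point. -/
noncomputable def Hk1 (N a : ℕ) : Finset Edg :=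
  (RE ((N + 9) * a : ℕ) ((N + 10) * a : ℕ) (-(6 * bb N a)) (6 * bb N a) ∪
    RE ((N + 9) * a : ℕ) (8 * bb N a) (5 * bb N a) (6 * bb N a)) ∪
  (RE ((N + 9) * a : ℕ) (8 * bb N a) (-(6 * bb N a)) (-(5 * bb N a)) ∪
    RE (7 * bb N a) (8 * bb N a) (-(6 * bb N a)) (6 * bb N a))

/-- The edges of the long hook. -/
noncomputable def Hk2 (N a : ℕ) (A ρ : ℤ) : Finset Edg :=
  (RE ((N + 9) * a : ℕ) ((N + 10) * a : ℕ) (-(bb N a)) (bb N a) ∪
    RE ((N + 9) * a : ℕ) (A + 16 * ρ) (-(bb N a)) (bb N a)) ∪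
  (RE (A + 14 * ρ) (A + 16 * ρ) (-(bb N a)) (31 * ρ) ∪
    RE A (A + 16 * ρ) (29 * ρ) (31 * ρ))

theorem hook1_meet {Ft Lg : Set Edg} {n9 n10 x7 x8 y5 y6 : ℤ} (h1 : n9 < n10) (h2 : n10 < x7)
    (h3 : x7 < x8) (h4 : 0 < y5) (h5 : y5 < y6) {r1 r2 t1 t2 b1 b2 v1 v2 : ℤ}
    (hR : Reach (Ft ∩ ↑(RE n9 n10 (-y6) y6)) (r1, -y6) (r2, y6))
    (hT : Reach (Ft ∩ ↑(RE n9 x8 y5 y6)) (n9, t1) (x8, t2))
    (hB : Reach (Ft ∩ ↑(RE n9 x8 (-y6) (-y5))) (n9, b1) (x8, b2))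
    (hV : Reach (Ft ∩ ↑(RE x7 x8 (-y6) y6)) (v1, -y6) (v2, y6)) {p q : Vtx}
    (hp1 : n10 < p.1 ∧ p.1 ≤ x7) (hp2 : -y5 ≤ p.2 ∧ p.2 ≤ y5)
    (hq : q.1 ≤ n10 ∨ x8 ≤ q.1 ∨ q.2 ≤ -y6 ∨ y6 ≤ q.2) (hLg : Lg ⊆ Ft)
    (hG : Reach Lg p q) (hL : ∀ x, Reach Lg p x → -y6 ≤ x.2 → x.2 ≤ y6 → n10 < x.1) :
    Reach Ft (r1, -y6) p := by
  have hRT : Reach Ft (n9, t1) (r1, -y6) := (cross_meet (A := n9) (B := x8) (C := -y6) (D := y6)
    (a := n9) (b := n10) (c := y5) (d := y6) le_rfl (by omega) (by omega) (by omega) (by omega)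
    le_rfl hT le_rfl (by simp only; omega) hR (by simp only; omega)
    le_rfl).mono Set.inter_subset_left
  have hRB : Reach Ft (n9, b1) (r1, -y6) := (cross_meet (A := n9) (B := x8) (C := -y6) (D := y6)
    (a := n9) (b := n10) (c := -y6) (d := -y5) le_rfl (by omega) (by omega) (by omega) (by omega)
    (by omega) hB le_rfl (by simp only; omega) hR le_rfl
    (by simp only; omega)).mono Set.inter_subset_left
  have hTV : Reach Ft (n9, t1) (v1, -y6) := (cross_meet (A := n9) (B := x8) (C := -y6) (D := y6)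
    (a := x7) (b := x8) (c := y5) (d := y6) (by omega) (by omega) le_rfl (by omega) (by omega)
    le_rfl hT (by simp only; omega) le_rfl hV (by simp only; omega)
    le_rfl).mono Set.inter_subset_left
  obtain ⟨w, hw, hwb, hpw⟩ := first_exit (a := n10) (b := x8) (c := -y6) (d := y6)
    (by unfold inR; omega) hG (by omega)
  have hpw' : Reach (Ft ∩ ↑(RE n10 x8 (-y6) y6)) p w :=
    hpw.mono (Set.inter_subset_inter_left _ hLg)
  rcases hwb with h6 | h6 | h6 | h6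
  · exfalso
    have := hL w (hpw.mono Set.inter_subset_left) hw.2.1 hw.2.2
    omega
  · -- right side
    have j : Reach Ft p (v1, -y6) := (cross_meet (A := n10) (B := x8) (C := -y6) (D := y6)
      (a := x7) (b := x8) (c := -y6) (d := y6) (by omega) (by omega) le_rfl le_rfl (by omega)
      le_rfl hpw' (by omega) h6.ge hV le_rfl le_rfl).mono Set.inter_subset_left
    exact hRT.symm.trans (hTV.trans j.symm)
  · -- bottom
    have j : Reach Ft (n9, b1) w := (cross_meet (A := n9) (B := x8) (C := -y6) (D := y6)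
      (a := n10) (b := x8) (c := -y6) (d := -y5) (by omega) (by omega) le_rfl le_rfl (by omega)
      (by omega) hB (by simp only; omega) le_rfl hpw'.symm h6.le
      (by omega)).mono Set.inter_subset_left
    exact hRB.symm.trans (j.trans (hpw'.mono Set.inter_subset_left).symm)
  · -- top
    have j : Reach Ft (n9, t1) p := (cross_meet (A := n9) (B := x8) (C := -y6) (D := y6)
      (a := n10) (b := x8) (c := y5) (d := y6) (by omega) (by omega) le_rfl (by omega) (by omega)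
      le_rfl hT (by simp only; omega) le_rfl hpw' (by omega)
      h6.ge).mono Set.inter_subset_left
    exact hRT.symm.trans j

section
variable {S k : Finset Edg} {A y0 X top : ℤ} {P : Vtx → Prop} {L W0 : Set Vtx}
  {N a Q : ℕ} {r : ℕ} {Z : Finset (ℤ × ℤ)} {yh : ℤ}

/-- constants -/
theorem bb_facts (ha : 1 ≤ a) (hN : 32 ≤ N) : (((N + 9) * a : ℕ) : ℤ) = N * a + 9 * a ∧
    (((N + 10) * a : ℕ) : ℤ) = N * a + 10 * a ∧ bb N a = 2 * ((N : ℤ) * a) + 12 * a ∧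
    (32 : ℤ) * a ≤ N * a ∧ (1 : ℤ) ≤ a ∧ (((2 * N + 10) * a : ℕ) : ℤ) = 2 * (N * a) + 10 * a := by
  refine ⟨by push_cast; ring, by push_cast; ring, bb_eq N a, ?_, by exact_mod_cast ha,
    by push_cast; ring⟩
  have : 32 * a ≤ N * a := Nat.mul_le_mul_right _ hN
  have h2 : (((32 * a : ℕ)) : ℤ) ≤ ((N * a : ℕ) : ℤ) := by exact_mod_cast this
  push_cast at h2
  linarith

theorem hook1 (h : WD S k A y0 X top P L W0 N a Q (Hk1 N a)) (hN : 32 ≤ N) (hr : 64 * r ≤ N)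
    (hpat : Pat N Z yh) (hkS : ∀ e ∈ Hk1 N a, e ∉ S → top < (src e).2 ∨ top < (tgt e).2)
    (hTF : ∀ x ∈ L, -(6 * bb N a) ≤ x.2 → x.2 ≤ 6 * bb N a → ((N + 10) * a : ℕ) < x.1)
    (hct : ∃ p ∈ L, p.1 ≤ 7 * bb N a ∧ -(5 * bb N a) ≤ p.2 ∧ p.2 ≤ 5 * bb N a)
    (hy0 : 6 * bb N a ≤ y0) {K kk : ℕ}
    (hk : ∀ h : ℤ, 1 ≤ h → (1/2 : ℝ) ^ kk ≤ hh (1/2) (K * h) h) (hK : 64 * N ≤ K)
    {C : Finset Vtx} (hbox : ∀ y ∈ C, |y.1| ≤ (N * a : ℕ) ∧ |y.2| ≤ (2 * N * a : ℕ)) :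
    (1/2 : ℝ) ^ (8 * kk) * PQ (1 / 2) (UU S k W0) (fun F => Esc N r a Z yh C (↑F : Set Edg)) ≤
      PQ (1 / 2) (UU S k W0) (A2 S k P W0 L (Hk1 N a) N r a Z yh C) := by
  have ha := h.a64
  obtain ⟨e9, e10, eb, e32, ha1, e2'⟩ := bb_facts (N := N) (a := a) (by omega) hN
  have eK : (64 : ℤ) * (N * a) ≤ K * a := by
    have : 64 * N * a ≤ K * a := Nat.mul_le_mul_right _ hK
    have h2 : (((64 * N * a : ℕ)) : ℤ) ≤ ((K * a : ℕ) : ℤ) := by exact_mod_cast this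
    push_cast at h2
    linarith
  have hKb : ∀ w : ℤ, 0 ≤ w → w ≤ 64 * bb N a → w ≤ K * bb N a := by
    intro w _ hw
    have h1 : (64 : ℤ) ≤ K := by
      have : 64 * 1 ≤ K := le_trans (by omega) hK
      exact_mod_cast this
    have h2 : (0:ℤ) ≤ bb N a := by omega
    nlinarith
  have s1 : RE ((N + 9) * a : ℕ) ((N + 10) * a : ℕ) (-(6 * bb N a)) (6 * bb N a) ⊆ Hk1 N a :=
    Finset.subset_union_left.trans Finset.subset_union_left
  have s2 : RE ((N + 9) * a : ℕ) (8 * bb N a) (5 * bb N a) (6 * bb N a) ⊆ Hk1 N a :=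
    Finset.subset_union_right.trans Finset.subset_union_left
  have s3 : RE ((N + 9) * a : ℕ) (8 * bb N a) (-(6 * bb N a)) (-(5 * bb N a)) ⊆ Hk1 N a :=
    Finset.subset_union_left.trans Finset.subset_union_right
  have s4 : RE (7 * bb N a) (8 * bb N a) (-(6 * bb N a)) (6 * bb N a) ⊆ Hk1 N a :=
    Finset.subset_union_right.trans Finset.subset_union_right
  have hR : Hk1 N a ⊆ UU S k W0 ∪ Hk1 N a := Finset.subset_union_right
  obtain ⟨i1, p1⟩ := RgEv_prob (N := N) (a := a) (yh := yh) (by omega) hN hpat hk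
    (by omega : 8 * N ≤ K) (q0 := 6 * bb N a) (by omega) (by omega)
    (S'' := UU S k W0 ∪ Hk1 N a) ((tp_UU h).trans Finset.subset_union_left) (s1.trans hR)
  have p2' : (1/2 : ℝ) ^ kk ≤ PQ (1/2) (UU S k W0 ∪ Hk1 N a)
      (LRc ((N + 9) * a : ℕ) (8 * bb N a) (5 * bb N a) (6 * bb N a)) := by
    refine pLR hk (by rw [e9]; omega) (by omega) ?_ (LRE_subset_RE.trans (s2.trans hR))
    rw [show 6 * bb N a - 5 * bb N a = bb N a by ring]
    exact hKb _ (by rw [e9]; omega) (by rw [e9]; omega)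
  have p3' : (1/2 : ℝ) ^ kk ≤ PQ (1/2) (UU S k W0 ∪ Hk1 N a)
      (LRc ((N + 9) * a : ℕ) (8 * bb N a) (-(6 * bb N a)) (-(5 * bb N a))) := by
    refine pLR hk (by rw [e9]; omega) (by omega) ?_ (LRE_subset_RE.trans (s3.trans hR))
    rw [show -(5 * bb N a) - -(6 * bb N a) = bb N a by ring]
    exact hKb _ (by rw [e9]; omega) (by rw [e9]; omega)
  have p4' : (1/2 : ℝ) ^ kk ≤ PQ (1/2) (UU S k W0 ∪ Hk1 N a)
      (TBc (7 * bb N a) (8 * bb N a) (-(6 * bb N a)) (6 * bb N a)) := by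
    refine pTB hk (by omega) (by omega) ?_ (TBE_subset_RE.trans (s4.trans hR))
    rw [show 8 * bb N a - 7 * bb N a = bb N a by ring]
    exact hKb _ (by omega) (by omega)
  have d1 := p2 (LRc_incr (UU S k W0 ∪ Hk1 N a) _ _ _ _) (LRc_incr _ _ _ _ _) p2' p3'
  have d2 := p2 d1.1 (TBc_incr _ _ _ _ _) d1.2 p4'
  have d3 := p2 i1 d2.1 p1 d2.2
  have e8 : 5 * kk + (kk + kk + kk) = 8 * kk := by ring
  rw [e8] at d3
  have hES : ES N r a Z yh C ⊆ UU S k W0 := fun e he => tp_UU h (mem_ES.1 he).1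
  refine hhook_of hES (D0_UU h C) d3.1 d3.2 ?_
  rintro G ⟨g1, ⟨g2, g3⟩, g4⟩ hE
  by_contra hA2
  obtain ⟨c, hc, r1, r2, k1, k2⟩ := ring_conn (by omega : 1 ≤ a) hN hr hpat hbox
    (q0 := 6 * bb N a) (by rw [e2']; omega) s1 g1 hE
  obtain ⟨t1, t2, -, -, hT⟩ := g2
  obtain ⟨b1, b2, -, -, hB⟩ := g3
  obtain ⟨v1, v2, -, -, hV⟩ := g4
  obtain ⟨p, hpL, hp1, hp2⟩ := hct
  set Fs : Set Edg := (↑G : Set Edg) ∩ (↑(ES N r a Z yh C) ∪ ↑(Hk1 N a)) with hFs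
  set Lg : Set Edg := {e | src e ∈ L ∧ tgt e ∈ L} with hLg
  have up : ∀ {R : Finset Edg} {u v : Vtx}, R ⊆ Hk1 N a → Reach ((↑G : Set Edg) ∩ ↑R) u v →
      Reach ((Fs ∪ Lg) ∩ ↑R) u v := by
    intro R u v hR hr
    refine hr.mono ?_
    rintro e ⟨h1, h2⟩
    exact ⟨Or.inl ⟨h1, Or.inr (by exact_mod_cast hR (by exact_mod_cast h2))⟩, h2⟩
  have hLreach : ∀ x, Reach Lg p x → x ∈ L := by
    intro x hx
    rcases Relation.ReflTransGen.cases_tail hx with h1 | ⟨u, _, e, he, hee⟩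
    · rw [h1]; exact hpL
    · rcases hee with ⟨_, h2⟩ | ⟨h2, _⟩
      · rw [← h2]; exact he.2
      · rw [← h2]; exact he.1
  have hpn := hTF p hpL (by omega) (by omega)
  have m := hook1_meet (Ft := Fs ∪ Lg) (Lg := Lg) (n9 := ((N + 9) * a : ℕ))
    (n10 := ((N + 10) * a : ℕ)) (x7 := 7 * bb N a) (x8 := 8 * bb N a) (y5 := 5 * bb N a)
    (y6 := 6 * bb N a) (by omega) (by omega) (by omega) (by omega) (by omega)
    (k2.mono (Set.inter_subset_inter_left _ Set.subset_union_left))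
    (up s2 (reach_sub LRE_subset_RE hT)) (up s3 (reach_sub LRE_subset_RE hB))
    (up s4 (reach_sub TBE_subset_RE hV)) (p := p) (q := (A, y0)) (by omega) (by omega)
    (by right; right; right; simp only; omega) Set.subset_union_right (h.sdd.conn p hpL).symm
    (fun x hx h1 h2 => hTF x (hLreach x hx) h1 h2)
  have hcp : Reach (Fs ∪ Lg) c p := (k1.mono Set.subset_union_left).trans m
  exact (hook_close h hkS hbox hc hA2 hcp).2 hpL

theorem hook2 {ρ : ℤ} (h : WD S k A y0 X top P L W0 N a Q (Hk2 N a A ρ)) (hN : 32 ≤ N)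
    (hr : 64 * r ≤ N)
    (hpat : Pat N Z yh) (hkS : ∀ e ∈ Hk2 N a A ρ, e ∉ S → top < (src e).2 ∨ top < (tgt e).2)
    (hnA : ∀ y, y0 < y → (A, y) ∉ L)
    (hy0 : y0 < 29 * ρ) (hAb : -(4 * bb N a) ≤ A) (hρ : 8 * bb N a ≤ ρ) {K kk : ℕ}
    (hk : ∀ h : ℤ, 1 ≤ h → (1/2 : ℝ) ^ kk ≤ hh (1/2) (K * h) h) (hK : 64 * N ≤ K)
    (hKρ : 16 * ρ ≤ K * bb N a)
    {C : Finset Vtx} (hbox : ∀ y ∈ C, |y.1| ≤ (N * a : ℕ) ∧ |y.2| ≤ (2 * N * a : ℕ)) :
    (1/2 : ℝ) ^ (8 * kk) * PQ (1 / 2) (UU S k W0) (fun F => Esc N r a Z yh C (↑F : Set Edg)) ≤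
      PQ (1 / 2) (UU S k W0) (A2 S k P W0 L (Hk2 N a A ρ) N r a Z yh C) := by
  have ha := h.a64
  obtain ⟨e9, e10, eb, e32, ha1, e2'⟩ := bb_facts (N := N) (a := a) (by omega) hN
  have eK : (64 : ℤ) * (N * a) ≤ K * a := by
    have : 64 * N * a ≤ K * a := Nat.mul_le_mul_right _ hK
    have h2 : (((64 * N * a : ℕ)) : ℤ) ≤ ((K * a : ℕ) : ℤ) := by exact_mod_cast this
    push_cast at h2
    linarith
  have hA := h.hA
  have e12 : (((N + 12) * a : ℕ) : ℤ) = N * a + 12 * a := by push_cast; ring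
  rw [e12] at hA
  have h64 : (64 : ℤ) ≤ K := by
    have : 64 * 1 ≤ K := le_trans (by omega) hK
    exact_mod_cast this
  have hbpos : (0:ℤ) < bb N a := by omega
  have hKρ' : ∀ w : ℤ, w ≤ 64 * ρ → w ≤ K * (2 * ρ) := by
    intro w hw
    nlinarith
  have s1 : RE ((N + 9) * a : ℕ) ((N + 10) * a : ℕ) (-(bb N a)) (bb N a) ⊆ Hk2 N a A ρ :=
    Finset.subset_union_left.trans Finset.subset_union_left
  have s2 : RE ((N + 9) * a : ℕ) (A + 16 * ρ) (-(bb N a)) (bb N a) ⊆ Hk2 N a A ρ :=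
    Finset.subset_union_right.trans Finset.subset_union_left
  have s3 : RE (A + 14 * ρ) (A + 16 * ρ) (-(bb N a)) (31 * ρ) ⊆ Hk2 N a A ρ :=
    Finset.subset_union_left.trans Finset.subset_union_right
  have s4 : RE A (A + 16 * ρ) (29 * ρ) (31 * ρ) ⊆ Hk2 N a A ρ :=
    Finset.subset_union_right.trans Finset.subset_union_right
  have hR : Hk2 N a A ρ ⊆ UU S k W0 ∪ Hk2 N a A ρ := Finset.subset_union_right
  obtain ⟨i1, p1⟩ := RgEv_prob (N := N) (a := a) (yh := yh) (by omega) hN hpat hk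
    (by omega : 8 * N ≤ K) (q0 := bb N a) (by omega) (by omega)
    (S'' := UU S k W0 ∪ Hk2 N a A ρ) ((tp_UU h).trans Finset.subset_union_left) (s1.trans hR)
  have p2' : (1/2 : ℝ) ^ kk ≤ PQ (1/2) (UU S k W0 ∪ Hk2 N a A ρ)
      (LRc ((N + 9) * a : ℕ) (A + 16 * ρ) (-(bb N a)) (bb N a)) := by
    refine pLR hk (by rw [e9]; omega) (by omega) ?_ (LRE_subset_RE.trans (s2.trans hR))
    rw [show bb N a - -(bb N a) = 2 * bb N a by ring, e9]
    nlinarith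
  have p3' : (1/2 : ℝ) ^ kk ≤ PQ (1/2) (UU S k W0 ∪ Hk2 N a A ρ)
      (TBc (A + 14 * ρ) (A + 16 * ρ) (-(bb N a)) (31 * ρ)) := by
    refine pTB hk (by omega) (by omega) ?_ (TBE_subset_RE.trans (s3.trans hR))
    rw [show A + 16 * ρ - (A + 14 * ρ) = 2 * ρ by ring]
    exact hKρ' _ (by omega)
  have p4' : (1/2 : ℝ) ^ kk ≤ PQ (1/2) (UU S k W0 ∪ Hk2 N a A ρ)
      (LRc A (A + 16 * ρ) (29 * ρ) (31 * ρ)) := by
    refine pLR hk (by omega) (by omega) ?_ (LRE_subset_RE.trans (s4.trans hR))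
    rw [show 31 * ρ - 29 * ρ = 2 * ρ by ring]
    exact hKρ' _ (by omega)
  have d1 := p2 (LRc_incr (UU S k W0 ∪ Hk2 N a A ρ) _ _ _ _) (TBc_incr _ _ _ _ _) p2' p3'
  have d2 := p2 d1.1 (LRc_incr _ _ _ _ _) d1.2 p4'
  have d3 := p2 i1 d2.1 p1 d2.2
  have e8 : 5 * kk + (kk + kk + kk) = 8 * kk := by ring
  rw [e8] at d3
  have hES : ES N r a Z yh C ⊆ UU S k W0 := fun e he => tp_UU h (mem_ES.1 he).1
  refine hhook_of hES (D0_UU h C) d3.1 d3.2 ?_
  rintro G ⟨g1, ⟨g2, g3⟩, g4⟩ hE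
  by_contra hA2
  obtain ⟨c, hc, r1, r2, k1, k2⟩ := ring_conn (by omega : 1 ≤ a) hN hr hpat hbox
    (q0 := bb N a) (by rw [e2']; omega) s1 g1 hE
  obtain ⟨t1, t2, -, -, hT⟩ := g2
  obtain ⟨v1, v2, -, -, hV⟩ := g3
  obtain ⟨b1, b2, hb1, -, hB⟩ := g4
  set Fs : Set Edg := (↑G : Set Edg) ∩ (↑(ES N r a Z yh C) ∪ ↑(Hk2 N a A ρ)) with hFs
  have up : ∀ {R : Finset Edg} {u v : Vtx}, R ⊆ Hk2 N a A ρ → Reach ((↑G : Set Edg) ∩ ↑R) u v →
      Reach (Fs ∩ ↑R) u v := by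
    intro R u v hR hr
    refine hr.mono ?_
    rintro e ⟨h1, h2⟩
    exact ⟨⟨h1, Or.inr (by exact_mod_cast hR (by exact_mod_cast h2))⟩, h2⟩
  have hT' := up s2 (reach_sub LRE_subset_RE hT)
  have hV' := up s3 (reach_sub TBE_subset_RE hV)
  have hB' := up s4 (reach_sub LRE_subset_RE hB)
  have j1 : Reach Fs (((N + 9) * a : ℕ), t1) (r1, -(bb N a)) := (cross_meet
    (A := ((N + 9) * a : ℕ)) (B := A + 16 * ρ) (C := -(bb N a)) (D := bb N a)
    (a := ((N + 9) * a : ℕ)) (b := ((N + 10) * a : ℕ)) (c := -(bb N a)) (d := bb N a) le_rfl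
    (by omega) (by omega) le_rfl (by omega) le_rfl hT' le_rfl (by simp only; omega) k2 le_rfl
    le_rfl).mono Set.inter_subset_left
  have j2 : Reach Fs (((N + 9) * a : ℕ), t1) (v1, -(bb N a)) := (cross_meet
    (A := ((N + 9) * a : ℕ)) (B := A + 16 * ρ) (C := -(bb N a)) (D := 31 * ρ)
    (a := A + 14 * ρ) (b := A + 16 * ρ) (c := -(bb N a)) (d := bb N a) (by omega)
    (by omega) (by omega) le_rfl (by omega) (by omega) hT' (by simp only; omega) le_rfl hV' le_rfl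
    (by simp only; omega)).mono Set.inter_subset_left
  have j3 : Reach Fs (A, b1) (v1, -(bb N a)) := (cross_meet
    (A := A) (B := A + 16 * ρ) (C := -(bb N a)) (D := 31 * ρ)
    (a := A + 14 * ρ) (b := A + 16 * ρ) (c := 29 * ρ) (d := 31 * ρ) (by omega)
    (by omega) (by omega) (by omega) (by omega) le_rfl hB' (by simp only; omega) le_rfl hV'
    (by simp only; omega) le_rfl).mono Set.inter_subset_left
  have hcA : Reach Fs c (A, b1) := k1.trans (j1.symm.trans (j2.trans j3.symm))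
  have hfin := hook_close h hkS hbox hc hA2 (hcA.mono Set.subset_union_left)
  exact h.sdd.above b1 (by omega) (hnA b1 (by omega)) hfin.1

end

end Pool.Agent.V5helper99.OB
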