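import Pool.Agent.H984R3.Per.Mk
import Pool.Agent.H12R2.Sep.Trap

/-!
# Probability lemmas: conditional ratios along a stopping set, independent windows, one window
-/

set_option autoImplicit false

namespace Pool.Agent.V5helper99.OB

open H974 H12S Finset

section
variable {E : Type*} [DecidableEq E]

theorem markov_ratio {p : E → ℝ} (hp : Ok p) {S : Finset E}
    {K : Finset E → Finset E} (hKS : ∀ F, F ⊆ S → K F ⊆ S) (hstop : H12S.Stop S K)
    {A B B' : Finset E → Prop}
    (hA : ∀ F F', F ⊆ S → F' ⊆ S → F ∩ K F = F' ∩ K F → A F → A F') {β : ℝ}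
    (hβ : ∀ F0, F0 ⊆ S → A F0 → Pr p (S \ K F0) (fun G => B ((F0 ∩ K F0) ∪ G)) ≤
      β * Pr p (S \ K F0) (fun G => B' ((F0 ∩ K F0) ∪ G))) :
    Pr p S (fun F => A F ∧ B F) ≤ β * Pr p S (fun F => A F ∧ B' F) := by
  classical
  set Q : Finset (Finset E × Finset E) := S.powerset ×ˢ S.powerset with hQ
  have hdec : ∀ (g : Finset E → ℝ), Ex p S g =
      ∑ ko ∈ Q, Ex p S (fun F => ind (K F = ko.1 ∧ F ∩ ko.1 = ko.2) * g F) := by
    intro g
    rw [← Ex_sum]
    apply Ex_congr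
    intro F hF
    rw [← Finset.sum_mul]
    have h1 : ∑ ko ∈ Q, ind (K F = ko.1 ∧ F ∩ ko.1 = ko.2) = 1 := by
      rw [Finset.sum_eq_single (K F, F ∩ K F)]
      · exact ind_of ⟨rfl, rfl⟩
      · rintro ⟨k, o⟩ _ hne
        apply ind_not_of
        rintro ⟨h2, h3⟩
        apply hne
        simp only at h2 h3
        rw [← h3, ← h2]
      · intro hne
        exfalso
        apply hne
        rw [hQ, Finset.mem_product, Finset.mem_powerset, Finset.mem_powerset]
        exact ⟨hKS F hF, Finset.inter_subset_left.trans hF⟩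
    rw [h1, one_mul]
  have hterm : ∀ ko ∈ Q,
      Ex p S (fun F => ind (K F = ko.1 ∧ F ∩ ko.1 = ko.2) * ind (A F ∧ B F)) ≤
      β * Ex p S (fun F => ind (K F = ko.1 ∧ F ∩ ko.1 = ko.2) * ind (A F ∧ B' F)) := by
    rintro ⟨k, o⟩ hko
    rw [hQ, Finset.mem_product, Finset.mem_powerset, Finset.mem_powerset] at hko
    simp only at hko ⊢
    by_cases hgood : ∃ F0, F0 ⊆ S ∧ (K F0 = k ∧ F0 ∩ k = o) ∧ A F0
    · obtain ⟨F0, hF0, ⟨hk0, ho0⟩, hA0⟩ := hgood
      have key : ∀ F, F ⊆ S → ((K F = k ∧ F ∩ k = o) ↔ F ∩ k = o) := by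
        intro F hF
        refine ⟨fun h => h.2, fun h => ⟨?_, h⟩⟩
        rw [← hk0]
        apply hstop F0 F hF0 hF
        rw [hk0, ho0, h]
      have keyA : ∀ F, F ⊆ S → F ∩ k = o → A F := by
        intro F hF h
        apply hA F0 F hF0 hF _ hA0
        rw [hk0, ho0, h]
      have hsplit : ∀ F : Finset E, F ∩ k = o → F = o ∪ (F \ k) := by
        intro F h
        rw [← h]
        ext x
        simp only [Finset.mem_union, Finset.mem_inter, Finset.mem_sdiff]
        tauto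
      have hsd : ∀ F, F ⊆ S → (F ∩ (S \ k)) \ k = F \ k := by
        intro F hF
        ext x
        simp only [Finset.mem_sdiff, Finset.mem_inter]
        constructor
        · rintro ⟨⟨h1, _⟩, h2⟩; exact ⟨h1, h2⟩
        · rintro ⟨h1, h2⟩; exact ⟨⟨h1, hF h1, h2⟩, h2⟩
      have main : ∀ B : Finset E → Prop,
          Ex p S (fun F => ind (K F = k ∧ F ∩ k = o) * ind (A F ∧ B F)) =
          Ex p S (fun F => ind (F ∩ k = o)) * Pr p (S \ k) (fun G => B (o ∪ G)) := by
        intro B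
        have e1 : Ex p S (fun F => ind (K F = k ∧ F ∩ k = o) * ind (A F ∧ B F)) =
            Ex p S (fun F => ind (F ∩ k = o) * ind (B (o ∪ (F \ k)))) := by
          apply Ex_congr
          intro F hF
          by_cases h : F ∩ k = o
          · have h2 := (key F hF).mpr h
            have h3 := keyA F hF h
            rw [ind_of h2, ind_of h, ← hsplit F h]
            congr 1
            exact ind_congr ⟨fun h4 => h4.2, fun h4 => ⟨h3, h4⟩⟩
          · rw [ind_not_of h, ind_not_of (fun h2 => h h2.2)]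
            ring
        rw [e1]
        have e3 := Ex_mul_indep (p := p) (U := S) (S := k) (T := S \ k) hko.1
          Finset.sdiff_subset Finset.disjoint_sdiff (f := fun F => ind (F ∩ k = o))
          (g := fun F => ind (B (o ∪ (F \ k))))
          (by
            intro F _
            apply ind_congr
            rw [Finset.inter_assoc, Finset.inter_self])
          (fun F hF => ind_congr (by rw [hsd F hF]))
        rw [e3]
        have e4 : Ex p S (fun F => ind (B (o ∪ (F \ k)))) =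
            Pr p (S \ k) (fun G => B (o ∪ G)) := by
          rw [Ex_local (S := S) (S' := S \ k) Finset.sdiff_subset]
          · unfold Pr
            apply Ex_congr
            intro F hF
            apply ind_congr
            have : F \ k = F := by
              rw [Finset.sdiff_eq_self_iff_disjoint, Finset.disjoint_left]
              intro x hx hxk
              exact (Finset.mem_sdiff.mp (hF hx)).2 hxk
            rw [this]
          · intro F hF
            apply ind_congr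
            rw [hsd F hF]
        rw [e4]
      have hb := hβ F0 hF0 hA0
      rw [hk0, ho0] at hb
      rw [main, main]
      have h0 : 0 ≤ Ex p S (fun F => ind (F ∩ k = o)) := Ex_nonneg hp (fun _ _ => ind_nonneg _)
      calc Ex p S (fun F => ind (F ∩ k = o)) * Pr p (S \ k) (fun G => B (o ∪ G))
          ≤ Ex p S (fun F => ind (F ∩ k = o)) * (β * Pr p (S \ k) (fun G => B' (o ∪ G))) :=
            mul_le_mul_of_nonneg_left hb h0
        _ = _ := by ring
    · have z : ∀ (B : Finset E → Prop) F, F ⊆ S →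
          ind (K F = k ∧ F ∩ k = o) * ind (A F ∧ B F) = 0 := by
        intro B F hF
        by_cases h : (K F = k ∧ F ∩ k = o) ∧ A F
        · exact absurd ⟨F, hF, h.1, h.2⟩ hgood
        · rw [← ind_and, ind_not_of (fun h' => h ⟨h'.1, h'.2.1⟩)]
      rw [Ex_congr (g := fun _ => (0:ℝ)) (z B), Ex_const,
        Ex_congr (g := fun _ => (0:ℝ)) (z B'), Ex_const, mul_zero]
  unfold Pr
  rw [hdec, hdec (fun F => ind (A F ∧ B' F)), Finset.mul_sum]
  exact Finset.sum_le_sum hterm

theorem iter_win {p : E → ℝ} (hp : Ok p) {S : Finset E} {X : Finset E → Prop}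
    {U : ℕ → Finset E} {Gd : ℕ → Finset E → Prop} {c : ℝ} (hc1 : c ≤ 1) (J : ℕ)
    (hU : ∀ j < J, U j ⊆ S) (hd : ∀ i < J, ∀ j < J, i ≠ j → Disjoint (U i) (U j))
    (hG : ∀ j < J, ∀ F, F ⊆ S → (Gd j F ↔ Gd j (F ∩ U j)))
    (hw : ∀ j < J, ∀ H, H ⊆ S \ U j → c * Pr p (U j) (fun G => X (H ∪ G)) ≤
      Pr p (U j) (fun G => X (H ∪ G) ∧ Gd j G)) :
    Pr p S (fun F => X F ∧ ∀ j < J, ¬ Gd j F) ≤ (1 - c) ^ J * Pr p S X := by
  induction J with
  | zero =>
    rw [pow_zero, one_mul]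
    exact Pr_mono hp (fun F _ h => h.1)
  | succ J ih =>
    have ih' := ih (fun j hj => hU j (by omega)) (fun i hi j hj => hd i (by omega) j (by omega))
      (fun j hj => hG j (by omega)) (fun j hj => hw j (by omega))
    have hUJ := hU J (by omega)
    have hsp : S = (S \ U J) ∪ U J := by
      rw [Finset.sdiff_union_of_subset hUJ]
    have hdJ : Disjoint (S \ U J) (U J) := Finset.sdiff_disjoint
    have e1 : ∀ A : Finset E → Prop, Pr p S A =
        Ex p (S \ U J) (fun H => Pr p (U J) (fun G => A (H ∪ G))) := by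
      intro A
      unfold Pr
      conv_lhs => rw [hsp]
      rw [Ex_union hdJ]
    have hbad : ∀ H, H ⊆ S \ U J → ∀ G, G ⊆ U J →
        ((∀ j < J, ¬ Gd j (H ∪ G)) ↔ ∀ j < J, ¬ Gd j H) := by
      intro H hH G hGU
      apply forall_congr'
      intro j
      apply imp_congr_right
      intro hj
      rw [hG j (by omega) (H ∪ G) (Finset.union_subset (hH.trans Finset.sdiff_subset)
        (hGU.trans hUJ)), hG j (by omega) H (hH.trans Finset.sdiff_subset)]
      have : (H ∪ G) ∩ U j = H ∩ U j := by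
        ext x
        simp only [Finset.mem_inter, Finset.mem_union]
        constructor
        · rintro ⟨h | h, h2⟩
          · exact ⟨h, h2⟩
          · exact absurd (hGU h) (Finset.disjoint_left.mp (hd j (by omega) J (by omega)
              (by omega)) h2)
        · rintro ⟨h, h2⟩
          exact ⟨Or.inl h, h2⟩
      rw [this]
    have hlast : ∀ H, H ⊆ S \ U J → ∀ G, G ⊆ U J → (Gd J (H ∪ G) ↔ Gd J G) := by
      intro H hH G hGU
      rw [hG J (by omega) (H ∪ G) (Finset.union_subset (hH.trans Finset.sdiff_subset)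
        (hGU.trans hUJ)), hG J (by omega) G (hGU.trans hUJ)]
      have : (H ∪ G) ∩ U J = G ∩ U J := by
        ext x
        simp only [Finset.mem_inter, Finset.mem_union]
        constructor
        · rintro ⟨h | h, h2⟩
          · exact absurd h2 (Finset.mem_sdiff.mp (hH h)).2
          · exact ⟨h, h2⟩
        · rintro ⟨h, h2⟩
          exact ⟨Or.inr h, h2⟩
      rw [this]
    have hstep : Pr p S (fun F => X F ∧ ∀ j < J + 1, ¬ Gd j F) ≤
        (1 - c) * Pr p S (fun F => X F ∧ ∀ j < J, ¬ Gd j F) := by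
      rw [e1, e1]
      rw [← Ex_mul_left]
      apply Ex_mono hp
      intro H hH
      by_cases hb : ∀ j < J, ¬ Gd j H
      · have f1 : Pr p (U J) (fun G => X (H ∪ G) ∧ ∀ j < J + 1, ¬ Gd j (H ∪ G)) =
            Pr p (U J) (fun G => X (H ∪ G) ∧ ¬ Gd J G) := by
          apply Pr_congr
          intro G hGU
          constructor
          · rintro ⟨h1, h2⟩
            exact ⟨h1, fun h3 => h2 J (by omega) ((hlast H hH G hGU).2 h3)⟩
          · rintro ⟨h1, h2⟩
            refine ⟨h1, fun j hj => ?_⟩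
            rcases Nat.lt_or_ge j J with h3 | h3
            · exact (hbad H hH G hGU).2 hb j h3
            · have : j = J := by omega
              rw [this]
              exact fun h4 => h2 ((hlast H hH G hGU).1 h4)
        have f2 : Pr p (U J) (fun G => X (H ∪ G) ∧ ∀ j < J, ¬ Gd j (H ∪ G)) =
            Pr p (U J) (fun G => X (H ∪ G)) := by
          apply Pr_congr
          intro G hGU
          exact ⟨fun h => h.1, fun h => ⟨h, (hbad H hH G hGU).2 hb⟩⟩
        have f3 : Pr p (U J) (fun G => X (H ∪ G)) =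
            Pr p (U J) (fun G => X (H ∪ G) ∧ Gd J G) +
            Pr p (U J) (fun G => X (H ∪ G) ∧ ¬ Gd J G) := by
          unfold Pr
          rw [← Ex_add]
          apply Ex_congr
          intro G _
          rw [ind_and, ind_and, ind_not]
          ring
        have f4 := hw J (by omega) H hH
        show Pr p (U J) (fun G => X (H ∪ G) ∧ ∀ j < J + 1, ¬ Gd j (H ∪ G)) ≤
          (1 - c) * Pr p (U J) (fun G => X (H ∪ G) ∧ ∀ j < J, ¬ Gd j (H ∪ G))
        rw [f1, f2]
        nlinarith [f3, f4]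
      · have f1 : Pr p (U J) (fun G => X (H ∪ G) ∧ ∀ j < J + 1, ¬ Gd j (H ∪ G)) = 0 := by
          apply H12S.MK_false
          rintro G hGU ⟨_, h2⟩
          exact hb ((hbad H hH G hGU).1 (fun j hj => h2 j (by omega)))
        show Pr p (U J) (fun G => X (H ∪ G) ∧ ∀ j < J + 1, ¬ Gd j (H ∪ G)) ≤ _
        rw [f1]
        exact mul_nonneg (by linarith) (Pr_nonneg hp _ _)
    calc Pr p S (fun F => X F ∧ ∀ j < J + 1, ¬ Gd j F)
        ≤ (1 - c) * Pr p S (fun F => X F ∧ ∀ j < J, ¬ Gd j F) := hstep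
      _ ≤ (1 - c) * ((1 - c) ^ J * Pr p S X) :=
          mul_le_mul_of_nonneg_left ih' (by linarith)
      _ = (1 - c) ^ (J + 1) * Pr p S X := by ring

theorem win_prob {p : E → ℝ} (hp : Ok p) {U : Finset E} {X1 Gd : Finset E → Prop}
    (hX : IncrE U (fun F => ¬ X1 F)) {ι : Type*} [DecidableEq ι] (T : Finset ι)
    (E1 E2 : ι → Finset E) (hE1 : ∀ i ∈ T, E1 i ⊆ U) (hE2 : ∀ i ∈ T, E2 i ⊆ U)
    (hd : ∀ i ∈ T, Disjoint (E1 i) (E2 i)) {A1 A2 Tr : ι → Finset E → Prop}
    (l1 : ∀ i ∈ T, ∀ F, F ⊆ U → (A1 i F ↔ A1 i (F ∩ E1 i)))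
    (l2 : ∀ i ∈ T, ∀ F, F ⊆ U → (A2 i F ↔ A2 i (F ∩ E2 i)))
    (l3 : ∀ i ∈ T, ∀ F, F ⊆ U → (Tr i F ↔ Tr i (F ∩ (U \ (E1 i ∪ E2 i)))))
    (hTd : ∀ i ∈ T, IncrE U (fun F => ¬ Tr i F))
    (hdis : ∀ i ∈ T, ∀ j ∈ T, i ≠ j → ∀ F, F ⊆ U → ¬ ((A1 i F ∧ A2 i F ∧ Tr i F) ∧
      (A1 j F ∧ A2 j F ∧ Tr j F)))
    (hdet : ∀ i ∈ T, ∀ F, F ⊆ U → A1 i F → A2 i F → Tr i F → X1 (F \ (E1 i ∪ E2 i)) →
      X1 F ∧ Gd F)
    {κ p' : ℝ} (hκ0 : 0 ≤ κ) (hκ : ∀ i ∈ T, κ ≤ Pr p U (Tr i))
    (hsum : p' ≤ ∑ i ∈ T, Pr p U (A1 i) * Pr p U (A2 i)) :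
    p' * κ * Pr p U X1 ≤ Pr p U (fun F => X1 F ∧ Gd F) := by
  classical
  have hR : ∀ i ∈ T, κ * Pr p U X1 ≤
      Pr p U (fun F => Tr i F ∧ X1 (F \ (E1 i ∪ E2 i))) := by
    intro i hi
    have d2 : IncrE U (fun F => ¬ X1 (F \ (E1 i ∪ E2 i))) := by
      intro F G h1 h2 h3
      exact hX _ _ (Finset.sdiff_subset_sdiff h1 (Finset.Subset.refl _))
        (Finset.sdiff_subset.trans h2) h3
    have h1 := H12S.tr_harris_decr2 hp (hTd i hi) d2
    have h2 : Pr p U X1 ≤ Pr p U (fun F => X1 (F \ (E1 i ∪ E2 i))) := by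
      apply Pr_mono hp
      intro F hF hx
      by_contra hcon
      exact hX _ _ Finset.sdiff_subset hF hcon hx
    have h3 := Pr_nonneg hp U X1
    calc κ * Pr p U X1 ≤ Pr p U (Tr i) * Pr p U (fun F => X1 (F \ (E1 i ∪ E2 i))) :=
          mul_le_mul (hκ i hi) h2 h3 (Pr_nonneg hp _ _)
      _ ≤ _ := h1
  have hprod : ∀ i ∈ T, Pr p U (A1 i) * Pr p U (A2 i) * (κ * Pr p U X1) ≤
      Pr p U (fun F => A1 i F ∧ A2 i F ∧ Tr i F ∧ X1 (F \ (E1 i ∪ E2 i))) := by
    intro i hi
    have e1 : Pr p U (fun F => A1 i F ∧ A2 i F ∧ Tr i F ∧ X1 (F \ (E1 i ∪ E2 i))) =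
        Pr p U (A1 i) * Pr p U (fun F => A2 i F ∧ Tr i F ∧ X1 (F \ (E1 i ∪ E2 i))) := by
      apply Pr_indep (S := E1 i) (T := U \ E1 i) (hE1 i hi) Finset.sdiff_subset
        Finset.disjoint_sdiff (l1 i hi)
      intro F hF
      have s1 : (F ∩ (U \ E1 i)) ∩ E2 i = F ∩ E2 i := by
        ext x
        simp only [Finset.mem_inter, Finset.mem_sdiff]
        constructor
        · rintro ⟨⟨h1, _⟩, h2⟩; exact ⟨h1, h2⟩
        · rintro ⟨h1, h2⟩
          exact ⟨⟨h1, hF h1, fun h3 => Finset.disjoint_left.mp (hd i hi) h3 h2⟩, h2⟩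
      have s2 : (F ∩ (U \ E1 i)) ∩ (U \ (E1 i ∪ E2 i)) = F ∩ (U \ (E1 i ∪ E2 i)) := by
        ext x
        simp only [Finset.mem_inter, Finset.mem_sdiff, Finset.mem_union]
        tauto
      have s3 : (F ∩ (U \ E1 i)) \ (E1 i ∪ E2 i) = F \ (E1 i ∪ E2 i) := by
        ext x
        simp only [Finset.mem_inter, Finset.mem_sdiff, Finset.mem_union]
        constructor
        · rintro ⟨⟨h1, _⟩, h2⟩; exact ⟨h1, h2⟩
        · rintro ⟨h1, h2⟩
          exact ⟨⟨h1, hF h1, fun h3 => h2 (Or.inl h3)⟩, h2⟩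
      have hF' : F ∩ (U \ E1 i) ⊆ U := Finset.inter_subset_left.trans hF
      rw [l2 i hi F hF, l3 i hi F hF, l2 i hi _ hF', l3 i hi _ hF', s1, s2, s3]
    have e2 : Pr p U (fun F => A2 i F ∧ Tr i F ∧ X1 (F \ (E1 i ∪ E2 i))) =
        Pr p U (A2 i) * Pr p U (fun F => Tr i F ∧ X1 (F \ (E1 i ∪ E2 i))) := by
      apply Pr_indep (S := E2 i) (T := U \ (E1 i ∪ E2 i)) (hE2 i hi) Finset.sdiff_subset _
        (l2 i hi)
      · intro F hF
        have s3 : (F ∩ (U \ (E1 i ∪ E2 i))) \ (E1 i ∪ E2 i) = F \ (E1 i ∪ E2 i) := by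
          ext x
          simp only [Finset.mem_inter, Finset.mem_sdiff, Finset.mem_union]
          constructor
          · rintro ⟨⟨h1, _⟩, h2⟩; exact ⟨h1, h2⟩
          · rintro ⟨h1, h2⟩
            exact ⟨⟨h1, hF h1, h2⟩, h2⟩
        have s2 : (F ∩ (U \ (E1 i ∪ E2 i))) ∩ (U \ (E1 i ∪ E2 i)) =
            F ∩ (U \ (E1 i ∪ E2 i)) := by
          rw [Finset.inter_assoc, Finset.inter_self]
        rw [l3 i hi F hF, l3 i hi _ (Finset.inter_subset_left.trans hF), s2, s3]
      · rw [Finset.disjoint_left]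
        intro x hx hx2
        exact (Finset.mem_sdiff.mp hx2).2 (Finset.mem_union_right _ hx)
    rw [e1, e2, mul_assoc]
    exact mul_le_mul_of_nonneg_left (mul_le_mul_of_nonneg_left (hR i hi) (Pr_nonneg hp _ _))
      (Pr_nonneg hp _ _)
  have hX0 : 0 ≤ κ * Pr p U X1 := mul_nonneg hκ0 (Pr_nonneg hp _ _)
  calc p' * κ * Pr p U X1 = p' * (κ * Pr p U X1) := by ring
    _ ≤ (∑ i ∈ T, Pr p U (A1 i) * Pr p U (A2 i)) * (κ * Pr p U X1) :=
        mul_le_mul_of_nonneg_right hsum hX0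
    _ = ∑ i ∈ T, Pr p U (A1 i) * Pr p U (A2 i) * (κ * Pr p U X1) := by rw [Finset.sum_mul]
    _ ≤ ∑ i ∈ T, Pr p U (fun F => A1 i F ∧ A2 i F ∧ Tr i F ∧ X1 (F \ (E1 i ∪ E2 i))) :=
        Finset.sum_le_sum hprod
    _ = Ex p U (fun F => ∑ i ∈ T, ind (A1 i F ∧ A2 i F ∧ Tr i F ∧ X1 (F \ (E1 i ∪ E2 i)))) := by
        unfold Pr
        rw [Ex_sum]
    _ ≤ Pr p U (fun F => X1 F ∧ Gd F) := by
        unfold Pr
        apply Ex_mono hp
        intro F hF
        by_cases h : ∃ i ∈ T, A1 i F ∧ A2 i F ∧ Tr i F ∧ X1 (F \ (E1 i ∪ E2 i))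
        · obtain ⟨i, hi, h1, h2, h3, h4⟩ := h
          rw [ind_of (hdet i hi F hF h1 h2 h3 h4), Finset.sum_eq_single i]
          · exact ind_le_one _
          · intro j hj hji
            apply ind_not_of
            rintro ⟨k1, k2, k3, _⟩
            exact hdis i hi j hj (Ne.symm hji) F hF ⟨⟨h1, h2, h3⟩, ⟨k1, k2, k3⟩⟩
          · intro h5
            exact absurd hi h5
        · rw [Finset.sum_eq_zero]
          · exact ind_nonneg _
          · intro i hi
            exact ind_not_of (fun h1 => h ⟨i, hi, h1⟩)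

end

end Pool.Agent.V5helper99.OB
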