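import Pool.Agent.V5helper99.OB.Window2

/-!
# Crossings of the ring around the box
-/

set_option autoImplicit false
set_option maxHeartbeats 4000000

namespace Pool.Agent.V5helper99.OB

open H974 H12S Finset H984P H984N

theorem reach_sub {F : Set Edg} {S T : Finset Edg} (h : S ⊆ T) {u v : Vtx}
    (hr : Reach (F ∩ ↑S) u v) : Reach (F ∩ ↑T) u v :=
  hr.mono (Set.inter_subset_inter_right _ (by exact_mod_cast h))

/-- The mouth of the ring. -/
def Mth (n9 ym yp : ℤ) : Set Vtx := {x | x.1 ≤ -n9 ∧ ym ≤ x.2 ∧ x.2 ≤ yp}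

/-- A path across the left strip which avoids the mouth stays above or below the mouth. -/
theorem left_side {G : Set Edg} {n9 n10 ym yp m10 : ℤ} (h1 : ym ≤ yp)
    {u w : Vtx} (huw : Reach (G ∩ ({e | src e ∉ Mth n9 ym yp ∧ tgt e ∉ Mth n9 ym yp} ∩
      ↑(RE (-n10) (-n9) (-m10) m10))) u w) (hu : u.2 > yp) :
    w.2 > yp ∧ Reach (G ∩ ↑(RE (-n10) (-n9) (yp + 1) m10)) u w := by
  induction huw with
  | refl => exact ⟨hu, Reach.refl _ _⟩
  | @tail x x' _ hs ih =>
    obtain ⟨⟨p, q, b⟩, ⟨heG, he1, he2⟩, hc⟩ := hs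
    have ih1 := ih.1
    simp only [Mth, Set.mem_setOf_eq, not_and, not_le] at he1
    cases b
    · simp only [mem_coe, mem_RE_false] at he2
      simp only [src_mk, tgt_false] at hc he1
      have hx' : x'.2 > yp ∧ ((p, q, false) : Edg) ∈ RE (-n10) (-n9) (yp + 1) m10 := by
        rw [mem_RE_false]
        rcases hc with ⟨h3, h4⟩ | ⟨h3, h4⟩
        · rw [← h3] at ih1
          rw [← h4]
          simp only at ih1 ⊢
          omega
        · rw [← h4] at ih1
          rw [← h3]
          simp only at ih1 ⊢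
          have := he1.1 (by omega)
          omega
      exact ⟨hx'.1, ih.2.trans (Adj.reach ⟨_, ⟨heG, by exact_mod_cast hx'.2⟩,
        by simpa only [src_mk, tgt_false] using hc⟩)⟩
    · simp only [mem_coe, mem_RE_true] at he2
      simp only [src_mk, tgt_true] at hc he1
      have hx' : x'.2 > yp ∧ ((p, q, true) : Edg) ∈ RE (-n10) (-n9) (yp + 1) m10 := by
        rw [mem_RE_true]
        rcases hc with ⟨h3, h4⟩ | ⟨h3, h4⟩
        · rw [← h3] at ih1
          rw [← h4]
          simp only at ih1 ⊢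
          omega
        · rw [← h4] at ih1
          rw [← h3]
          simp only at ih1 ⊢
          omega
      exact ⟨hx'.1, ih.2.trans (Adj.reach ⟨_, ⟨heG, by exact_mod_cast hx'.2⟩,
        by simpa only [src_mk, tgt_true] using hc⟩)⟩

theorem left_side' {G : Set Edg} {n9 n10 ym yp m10 : ℤ} (h1 : ym ≤ yp)
    {u w : Vtx} (huw : Reach (G ∩ ({e | src e ∉ Mth n9 ym yp ∧ tgt e ∉ Mth n9 ym yp} ∩
      ↑(RE (-n10) (-n9) (-m10) m10))) u w) (hu : u.2 < ym) :
    w.2 < ym ∧ Reach (G ∩ ↑(RE (-n10) (-n9) (-m10) (ym - 1))) u w := by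
  induction huw with
  | refl => exact ⟨hu, Reach.refl _ _⟩
  | @tail x x' _ hs ih =>
    obtain ⟨⟨p, q, b⟩, ⟨heG, he1, he2⟩, hc⟩ := hs
    have ih1 := ih.1
    simp only [Mth, Set.mem_setOf_eq, not_and, not_le] at he1
    cases b
    · simp only [mem_coe, mem_RE_false] at he2
      simp only [src_mk, tgt_false] at hc he1
      have hx' : x'.2 < ym ∧ ((p, q, false) : Edg) ∈ RE (-n10) (-n9) (-m10) (ym - 1) := by
        rw [mem_RE_false]
        rcases hc with ⟨h3, h4⟩ | ⟨h3, h4⟩
        · rw [← h3] at ih1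
          rw [← h4]
          simp only at ih1 ⊢
          by_contra hcon
          have := he1.2 (by omega) (by omega)
          omega
        · rw [← h4] at ih1
          rw [← h3]
          simp only at ih1 ⊢
          omega
      exact ⟨hx'.1, ih.2.trans (Adj.reach ⟨_, ⟨heG, by exact_mod_cast hx'.2⟩,
        by simpa only [src_mk, tgt_false] using hc⟩)⟩
    · simp only [mem_coe, mem_RE_true] at he2
      simp only [src_mk, tgt_true] at hc he1
      have hx' : x'.2 < ym ∧ ((p, q, true) : Edg) ∈ RE (-n10) (-n9) (-m10) (ym - 1) := by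
        rw [mem_RE_true]
        rcases hc with ⟨h3, h4⟩ | ⟨h3, h4⟩
        · rw [← h3] at ih1
          rw [← h4]
          simp only at ih1 ⊢
          omega
        · rw [← h4] at ih1
          rw [← h3]
          simp only at ih1 ⊢
          omega
      exact ⟨hx'.1, ih.2.trans (Adj.reach ⟨_, ⟨heG, by exact_mod_cast hx'.2⟩,
        by simpa only [src_mk, tgt_true] using hc⟩)⟩

/-- A path from the box to the boundary of the ring which avoids the mouth is connected to the
crossing of the right strip. -/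
theorem ring_meet {Fs : Set Edg} {a n9 n10 m9 m10 q0 ym yp : ℤ} (ha : 0 < a) (hn : n10 = n9 + a)
    (hm : m10 = m9 + a) (hn9 : 0 < n9) (hR1 : m10 ≤ q0) (hy1 : -m9 < ym) (hy2 : ym ≤ yp)
    (hy3 : yp < m9) {t1 t2 b1 b2 u1 u2 l1 l2 r1 r2 : ℤ}
    (hT : Reach (Fs ∩ ↑(RE (-n10) n10 m9 m10)) (-n10, t1) (n10, t2))
    (hB : Reach (Fs ∩ ↑(RE (-n10) n10 (-m10) (-m9))) (-n10, b1) (n10, b2))
    (hU : Reach (Fs ∩ ↑(RE (-n10) (-n9) (yp + 1) m10)) (u1, yp + 1) (u2, m10))
    (hL : Reach (Fs ∩ ↑(RE (-n10) (-n9) (-m10) (ym - 1))) (l1, -m10) (l2, ym - 1))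
    (hR : Reach (Fs ∩ ↑(RE n9 n10 (-q0) q0)) (r1, -q0) (r2, q0))
    {c y : Vtx} (hc1 : -n9 ≤ c.1 ∧ c.1 ≤ n9) (hc2 : -m9 ≤ c.2 ∧ c.2 ≤ m9)
    (hy : |y.1| = n10 ∨ |y.2| = m10)
    (hp : Reach (Fs ∩ ({e | src e ∉ Mth n9 ym yp ∧ tgt e ∉ Mth n9 ym yp} ∩
      ↑(RE (-n10) n10 (-m10) m10))) c y) : Reach Fs c (r1, -q0) := by
  have hTR : Reach Fs (-n10, t1) (r1, -q0) := (cross_meet (A := -n10) (B := n10) (C := -q0)
    (D := q0) (a := n9) (b := n10) (c := m9) (d := m10) (by omega) (by omega) le_rfl (by omega)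
    (by omega) (by omega) hT (by simp only; omega) le_rfl hR (by simp only; omega)
    (by simp only; omega)).mono Set.inter_subset_left
  have hBR : Reach Fs (-n10, b1) (r1, -q0) := (cross_meet (A := -n10) (B := n10) (C := -q0)
    (D := q0) (a := n9) (b := n10) (c := -m10) (d := -m9) (by omega) (by omega) le_rfl (by omega)
    (by omega) (by omega) hB (by simp only; omega) le_rfl hR (by simp only; omega)
    (by simp only; omega)).mono Set.inter_subset_left
  have hTU : Reach Fs (-n10, t1) (u1, yp + 1) := (cross_meet (A := -n10) (B := n10) (C := yp + 1)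
    (D := m10) (a := -n10) (b := -n9) (c := m9) (d := m10) le_rfl (by omega) (by omega) (by omega)
    (by omega) le_rfl hT le_rfl (by simp only; omega) hU (by simp only; omega)
    le_rfl).mono Set.inter_subset_left
  have hBL : Reach Fs (-n10, b1) (l1, -m10) := (cross_meet (A := -n10) (B := n10) (C := -m10)
    (D := ym - 1) (a := -n10) (b := -n9) (c := -m10) (d := -m9) le_rfl (by omega) (by omega)
    le_rfl (by omega) (by omega) hB le_rfl (by simp only; omega) hL le_rfl
    (by simp only; omega)).mono Set.inter_subset_left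
  have hpp : Reach (Fs ∩ ↑(RE (-n10) n10 (-m10) m10)) c y := by
    refine hp.mono ?_
    rintro e ⟨h1, -, h2⟩
    exact ⟨h1, h2⟩
  rcases hy with hy | hy
  · rcases (abs_eq (by omega)).1 hy with hy | hy
    · -- right
      exact (cross_meet (A := -n10) (B := n10) (C := -q0) (D := q0) (a := n9) (b := n10)
        (c := -m10) (d := m10) (by omega) (by omega) le_rfl (by omega) (by omega) (by omega)
        hpp (by omega) hy.ge hR (by simp only; omega)
        (by simp only; omega)).mono Set.inter_subset_left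
    · -- left
      obtain ⟨y1, y2, k1, k2, k3, k4⟩ := sub_LR (a := -n10) (b := -n9) (c := -m10) (d := m10)
        (by omega)
        (by rintro x y ⟨-, -, h⟩ _ _; simp only [mem_coe, mem_RE_true] at h; omega)
        (by rintro x y ⟨-, -, h⟩ _ _; simp only [mem_coe, mem_RE_false] at h; omega)
        hp.symm hy.le hc1.1
      have k5 : Reach (Fs ∩ ({e | src e ∉ Mth n9 ym yp ∧ tgt e ∉ Mth n9 ym yp} ∩
          ↑(RE (-n10) (-n9) (-m10) m10))) (-n10, y1) (-n9, y2) := by
        refine k3.mono ?_
        rintro e ⟨⟨h1, h2, -⟩, h3⟩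
        exact ⟨h1, h2, LRE_subset_RE (by exact_mod_cast h3)⟩
      have hstart : ((-n10, y1) : Vtx) ∉ Mth n9 ym yp := by
        rcases Relation.ReflTransGen.cases_head k5 with h1 | ⟨u, ⟨e, he, hee⟩, _⟩
        · exfalso
          have := congrArg Prod.fst h1
          simp only at this
          omega
        · rcases hee with ⟨h4, _⟩ | ⟨_, h4⟩
          · rw [← h4]; exact he.2.1.1
          · rw [← h4]; exact he.2.1.2
      have hside : yp < y1 ∨ y1 < ym := by
        by_contra hcon
        apply hstart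
        refine ⟨?_, ?_, ?_⟩ <;> simp only <;> omega
      rcases hside with hs | hs
      · obtain ⟨j1, j2⟩ := left_side hy2 k5 (by simp only; omega)
        have j3 : Reach Fs (-n10, y1) (u1, yp + 1) := (cross_meet (A := -n10) (B := -n9)
          (C := yp + 1) (D := m10) (a := -n10) (b := -n9) (c := yp + 1) (d := m10) le_rfl
          (by omega) le_rfl le_rfl (by omega) le_rfl j2 le_rfl le_rfl hU le_rfl
          le_rfl).mono Set.inter_subset_left
        have j4 : Reach Fs c (-n10, y1) :=
          (hp.mono Set.inter_subset_left).trans (k4.mono Set.inter_subset_left)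
        exact j4.trans (j3.trans (hTU.symm.trans hTR))
      · obtain ⟨j1, j2⟩ := left_side' hy2 k5 (by simp only; omega)
        have j3 : Reach Fs (-n10, y1) (l1, -m10) := (cross_meet (A := -n10) (B := -n9)
          (C := -m10) (D := ym - 1) (a := -n10) (b := -n9) (c := -m10) (d := ym - 1) le_rfl
          (by omega) le_rfl le_rfl (by omega) le_rfl j2 le_rfl le_rfl hL le_rfl
          le_rfl).mono Set.inter_subset_left
        have j4 : Reach Fs c (-n10, y1) :=
          (hp.mono Set.inter_subset_left).trans (k4.mono Set.inter_subset_left)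
        exact j4.trans (j3.trans (hBL.symm.trans hBR))
  · rcases (abs_eq (by omega)).1 hy with hy | hy
    · -- top
      have j : Reach Fs (-n10, t1) c := (cross_meet (A := -n10) (B := n10) (C := -m10)
        (D := m10) (a := -n10) (b := n10) (c := m9) (d := m10) le_rfl (by omega) le_rfl (by omega)
        (by omega) le_rfl hT le_rfl le_rfl hpp (by omega) hy.ge).mono Set.inter_subset_left
      exact j.symm.trans hTR
    · -- bottom
      have j : Reach Fs (-n10, b1) y := (cross_meet (A := -n10) (B := n10) (C := -m10)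
        (D := m10) (a := -n10) (b := n10) (c := -m10) (d := -m9) le_rfl (by omega) le_rfl le_rfl
        (by omega) (by omega) hB le_rfl le_rfl hpp.symm (by omega)
        (by omega)).mono Set.inter_subset_left
      exact (hp.mono Set.inter_subset_left).trans (j.symm.trans hBR)

/-! ### Closure -/

section
variable {S k : Finset Edg} {A y0 X top : ℤ} {P : Vtx → Prop} {L W0 : Set Vtx}
  {N a Q : ℕ} {Hk : Finset Edg} {r : ℕ} {Z : Finset (ℤ × ℤ)} {yh : ℤ}

theorem hook_close (h : WD S k A y0 X top P L W0 N a Q Hk)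
    (hkS : ∀ e ∈ Hk, e ∉ S → top < (src e).2 ∨ top < (tgt e).2) {C : Finset Vtx}
    (hbox : ∀ y ∈ C, |y.1| ≤ (N * a : ℕ) ∧ |y.2| ≤ (2 * N * a : ℕ)) {G : Finset Edg}
    {c : Vtx} (hc : c ∈ C) (hA2 : ¬ A2 S k P W0 L Hk N r a Z yh C G) {x : Vtx}
    (hx : Reach (((↑G : Set Edg) ∩ (↑(ES N r a Z yh C) ∪ ↑Hk)) ∪ {e | src e ∈ L ∧ tgt e ∈ L}) c x) :
    P x ∧ x ∉ L := by
  have ha := h.a64
  have key : Reach ((↑G : Set Edg) ∩ ↑(D0 S k P W0 Hk N r a Z yh C)) c x ∧ P x ∧ x ∉ L := by
    induction hx with
    | refl =>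
      obtain ⟨b1, b2⟩ := hbox c hc
      have hA := h.hA
      rw [abs_le] at b1
      have := h.FR c (by push_cast at *; nlinarith [Int.natCast_nonneg a])
        (by push_cast at *; nlinarith [Int.natCast_nonneg a])
        (by push_cast at *; nlinarith [Int.natCast_nonneg a])
      exact ⟨Reach.refl _ _, this.2⟩
    | @tail x x' _ hs ih =>
      obtain ⟨ih1, ih2, ih3⟩ := ih
      obtain ⟨e, he, hee⟩ := hs
      have hee' : Ends e x x' := hee
      rcases he with ⟨heG, he | he⟩ | ⟨he1, he2⟩
      · have heD : e ∈ D0 S k P W0 Hk N r a Z yh C := Finset.mem_union_left _ (by exact_mod_cast he)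
        have h1 := tp_end_FR h (mem_ES.1 (by exact_mod_cast he)).1 hee'.symm
        exact ⟨ih1.trans (Ends.reach hee' ⟨heG, by exact_mod_cast heD⟩), h1.2⟩
      · have heH : e ∈ Hk := by exact_mod_cast he
        have hxe : x = src e ∨ x = tgt e := by
          rcases hee with ⟨h7, _⟩ | ⟨_, h7⟩
          · exact Or.inl h7.symm
          · exact Or.inr h7.symm
        have hxW : x ∈ Wn W0 A := (h.hk e heH x hxe ih2).2.2 x
          (by rw [sd_self]; positivity) ih2
        have hx0 : x ∈ W0 := hxW.2 x (by rw [sd_self]; norm_num)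
        have hx'0 : x' ∈ W0 := hxW.2 x' hee'.sd
        have hek : e ∉ k := by
          intro hek
          have h1 := h.sdd.exv e hek
          rcases hee' with ⟨h2, h3⟩ | ⟨h2, h3⟩
          · rw [h2] at h1; exact ih3 (h1.1 ih2)
          · rw [h3] at h1; exact ih3 (h1.2 ih2)
        have hPx' : P x' := by
          have h1 := h.WX x hx0
          have h2 := h.WX x' hx'0
          have h3 := h.sdd.fresh e hek (by rw [hee'.fst]; omega) (by rw [hee'.fst]; omega)
          rcases hee' with ⟨h4, h5⟩ | ⟨h4, h5⟩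
          · rw [h4, h5] at h3; exact h3.1 ih2
          · rw [h4, h5] at h3; exact h3.2 ih2
        have heS : e ∈ S := by
          by_contra hcon
          have h1 := hkS e heH hcon
          have hup : ∀ z, z ∈ W0 → P z → ¬ top < z.2 := fun z hz hPz ht =>
            h.sdd.up z (h.WX z hz).1 (h.WX z hz).2 ht hPz
          rcases hee' with ⟨h4, h5⟩ | ⟨h4, h5⟩
          · rw [h4, h5] at h1
            rcases h1 with h1 | h1
            · exact hup x hx0 ih2 h1
            · exact hup x' hx'0 hPx' h1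
          · rw [h4, h5] at h1
            rcases h1 with h1 | h1
            · exact hup x' hx'0 hPx' h1
            · exact hup x hx0 ih2 h1
        have heD : e ∈ D0 S k P W0 Hk N r a Z yh C := by
          refine Finset.mem_union_right _ (mem_HK.2 ⟨⟨heH, ?_⟩, ?_⟩)
          · rw [mem_UU]
            exact ⟨⟨heS, hek⟩, hee'.all (p := fun x => x ∈ W0) hx0 hx'0⟩
          · exact hee'.all (p := P) ih2 hPx'
        have hr' := ih1.trans (Ends.reach hee' (F := (↑G : Set Edg) ∩
          ↑(D0 S k P W0 Hk N r a Z yh C)) ⟨heG, by exact_mod_cast heD⟩)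
        exact ⟨hr', hPx', fun hL => hA2 ⟨c, hc, x', hL, hr'⟩⟩
      · exfalso
        rcases hee' with ⟨h4, h5⟩ | ⟨h4, h5⟩
        · rw [h4] at he1; exact ih3 he1
        · rw [h5] at he2; exact ih3 he2
  exact key.2

end

end Pool.Agent.V5helper99.OB
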