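import Pool.Agent.H984R3.Per.SideL
import Pool.Agent.H984R3.Per.Extent

/-!
# Strands: the potentials to the left of the strand; abstract data; existence
-/

set_option autoImplicit false
set_option maxHeartbeats 4000000

namespace Pool.Agent.V5helper99.OB

open H974 H12S Finset H984P H342P H984P.SideAux

/-- Abstract data of an explored strand: `k` are the examined edges, `P` the vertices below the
strand, `L` the vertices of the strand. -/
structure SD (k : Finset Edg) (A y0 X top : ℤ) (P : Vtx → Prop) (L : Set Vtx) : Prop where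
  lt : A < X
  fresh : ∀ e : Edg, e ∉ k → A ≤ e.1 → e.1 < X → (P (src e) ↔ P (tgt e))
  exv : ∀ e ∈ k, (P (src e) → src e ∈ L) ∧ (P (tgt e) → tgt e ∈ L)
  PL : ∀ x ∈ L, P x
  LA : ∀ x ∈ L, A ≤ x.1
  below : ∀ y, y < y0 → (A, y) ∉ L → P (A, y)
  above : ∀ y, y0 < y → (A, y) ∉ L → ¬ P (A, y)
  up : ∀ x : Vtx, A ≤ x.1 → x.1 < X → top < x.2 → ¬ P x
  lft : ∀ x : Vtx, x.1 < A → (P x ↔ x.2 ≤ y0)
  v0 : (A, y0) ∈ L
  conn : ∀ x ∈ L, Reach {e | src e ∈ L ∧ tgt e ∈ L} (A, y0) x

variable {F : Set Edg} {A y0 X Y : ℤ} {T : ℕ}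

theorem exm_left (hst : Strand F A y0 X Y T) {y : ℤ}
    (he : ((A - 1, y, true) : Edg) ∈ Exm F (st0 A y0) T) :
    (∃ s < T, orb F (st0 A y0) s = ((A, y), .sw)) ∧ ((A - 1, y, true) : Edg) ∉ F := by
  obtain ⟨s, hs, h⟩ := mem_Exm.1 he
  have h1 := hst.stay s hs
  have hnext : A ≤ (orb F (st0 A y0) (s + 1)).1.1 := by
    rcases Nat.lt_or_ge (s + 1) T with h | h
    · exact (hst.stay _ h).1
    · have : s + 1 = T := by omega
      rw [this, hst.tip]
      exact hst.lt.le
  rw [orb_succ] at hnext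
  have h2 : orb F (st0 A y0) s = ((A, y), .sw) := by
    generalize orb F (st0 A y0) s = σ at h h1
    obtain ⟨⟨x, y'⟩, q⟩ := σ
    cases q <;> simp at h h1 ⊢ <;> omega
  refine ⟨⟨s, hs, h2⟩, fun hF => ?_⟩
  rw [h2, nxt_open (by simpa using hF)] at hnext
  simp at hnext

theorem not_mem_of_free' (hst : Strand F A y0 X Y T) {σ : St}
    (h1 : ae σ ∉ Exm F (st0 A y0) T) (h2 : ¬ ((ae σ).1 ≤ A - 1 ∧ (ae σ).2.1 = y0))
    (h3 : ¬ (X ≤ (ae σ).1 ∧ (ae σ).2.1 = Y)) : σ ∉ AA F A y0 X Y T := by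
  rintro (⟨s, hs, rfl⟩ | ⟨h4, h5, h6⟩ | ⟨h4, h5, h6⟩)
  · rcases hs.lt_or_eq with hs | rfl
    · exact h1 (mem_Exm.2 ⟨s, hs, rfl⟩)
    · rw [hst.tip] at h3
      simp at h3
  · obtain ⟨⟨x, y⟩, q⟩ := σ
    simp only at h4 h5 h6
    rcases h6 with rfl | rfl <;> simp at h2 <;> omega
  · obtain ⟨⟨x, y⟩, q⟩ := σ
    simp only at h4 h5 h6
    rcases h6 with rfl | rfl <;> simp at h3 <;> omega

theorem orb_ge (hst : Strand F A y0 X Y T) {s : ℕ} (hs : s ≤ T) :
    A ≤ (orb F (st0 A y0) s).1.1 := by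
  rcases hs.lt_or_eq with h | h
  · exact (hst.stay s h).1
  · rw [h, hst.tip]
    exact hst.lt.le

theorem orb_le (hst : Strand F A y0 X Y T) {s : ℕ} (hs : s ≤ T) :
    (orb F (st0 A y0) s).1.1 ≤ X := by
  rcases hs.lt_or_eq with h | h
  · exact (hst.stay s h).2.le
  · rw [h, hst.tip]

/-- south states are not on the prolonged strand at the left -/
theorem left_not_mem (hst : Strand F A y0 X Y T) {x y : ℤ} (hx : x ≤ A - 1) {q : Q4}
    (hq : q = .se ∨ q = .sw) : (((x, y), q) : St) ∉ AA F A y0 X Y T := by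
  rintro (⟨s, hs, h⟩ | ⟨h4, h5, h6⟩ | ⟨h4, h5, h6⟩)
  · have h1 := orb_ge hst hs
    rw [h] at h1
    simp at h1
    omega
  · rcases hq with rfl | rfl <;> simp at h6
  · rcases hq with rfl | rfl <;> simp at h6

/-- The potentials of a strand, with their values at the left. -/
theorem side2_exists (hst : Strand F A y0 X Y T) :
    ∃ hv hf : Vtx → ZMod 2,
      (∀ s ≤ T, hv (orb F (st0 A y0) s).1 = 0 ∧ hf (face (orb F (st0 A y0) s)) = 1) ∧
      (∀ e : Edg, e ∉ Exm F (st0 A y0) T → ¬ (e.1 ≤ A - 1 ∧ e.2.1 = y0) →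
        ¬ (X ≤ e.1 ∧ e.2.1 = Y) →
        hv (src e) = hv (tgt e) ∧ hf (dsrc e) = hf (dtgt e) ∧ hv (src e) = hf (dtgt e)) ∧
      (∀ e ∈ Exm F (st0 A y0) T,
        (hv (src e) = 0 → ∃ s ≤ T, (orb F (st0 A y0) s).1 = src e) ∧
        (hv (tgt e) = 0 → ∃ s ≤ T, (orb F (st0 A y0) s).1 = tgt e)) ∧
      (∀ e ∈ Exm F (st0 A y0) T, e ∉ F → hf (dsrc e) = hf (dtgt e)) ∧
      (∀ x y : ℤ, x ≤ A - 1 → (hv (x, y) = 0 ↔ y ≤ y0)) ∧
      (∀ x y : ℤ, x ≤ A - 1 → (hf (x, y) = 1 ↔ y0 ≤ y)) := by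
  obtain ⟨hv, hf, hP, hO, hC, h0⟩ := pot hst
  have hmem : ∀ {σ : St}, σ ∈ AA F A y0 X Y T → hv σ.1 + hf (face σ) = 1 :=
    fun h => by rw [hP, b2_of h]
  have hnot : ∀ {σ : St}, σ ∉ AA F A y0 X Y T → hv σ.1 + hf (face σ) = 0 :=
    fun h => by rw [hP, b2_not_of h]
  have hvs : ∀ s ≤ T, hv (orb F (st0 A y0) s).1 = 0 := by
    intro s
    induction s with
    | zero => intro _; exact h0
    | succ s ih =>
      intro hs
      have h1 := ih (by omega)
      rw [← orb_step hst (by omega)]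
      by_cases h2 : ae (orb F (st0 A y0) s) ∈ om F A y0 X Y T
      · rw [nxt_open h2, mv_fst]
        have h3 := hO _ h2
        rcases ends (orb F (st0 A y0) s) with ⟨h4, h5⟩ | ⟨h4, h5⟩
        · rw [h4, h5] at h3
          rw [← h3, h1]
        · rw [h4, h5] at h3
          rw [h3, h1]
      · rw [nxt_closed h2, rt_fst, h1]
  have hfs : ∀ s ≤ T, hf (face (orb F (st0 A y0) s)) = 1 := fun s hs =>
    z2_one (hmem (orb_mem hs)) (hvs s hs)
  have hfree : ∀ e : Edg, e ∉ Exm F (st0 A y0) T → ¬ (e.1 ≤ A - 1 ∧ e.2.1 = y0) →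
      ¬ (X ≤ e.1 ∧ e.2.1 = Y) →
      hv (src e) = hv (tgt e) ∧ hf (dsrc e) = hf (dtgt e) ∧ hv (src e) = hf (dtgt e) := by
    intro e h1 h2 h3
    obtain ⟨σ, rfl⟩ := exists_ae e
    have g1 : σ ∉ AA F A y0 X Y T := not_mem_of_free' hst h1 h2 h3
    have g2 : op σ ∉ AA F A y0 X Y T := by
      apply not_mem_of_free' hst <;> rw [ae_op] <;> assumption
    have g3 : nxt (om F A y0 X Y T) σ ∉ AA F A y0 X Y T := fun h => g1 ((inv hst σ).2 h)
    have g4 : nxt (om F A y0 X Y T) (op σ) ∉ AA F A y0 X Y T := fun h => g2 ((inv hst _).2 h)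
    have k1 := z2_eq (hnot g1)
    have k2 := z2_eq (hnot g2)
    have k3 : hv (op σ).1 = hf (face σ) ∨ hv σ.1 = hf (face (op σ)) := by
      by_cases h4 : ae σ ∈ om F A y0 X Y T
      · left
        have := z2_eq (hnot g3)
        rwa [nxt_open h4, mv_fst, face_mv] at this
      · right
        have := z2_eq (hnot g3)
        rwa [nxt_closed h4, rt_fst, face_rt] at this
    have k4 : hv (op σ).1 = hv σ.1 := by
      rcases k3 with k | k
      · rw [k, k1]
      · rw [k, k2]
    have k5 : hf (face (op σ)) = hf (face σ) := by rw [← k1, ← k2, k4]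
    rcases ends σ with ⟨a1, a2⟩ | ⟨a1, a2⟩ <;> rcases faces σ with ⟨b1, b3⟩ | ⟨b1, b3⟩ <;>
      rw [a1, a2, b1, b3] <;> simp [k1, k4, k5]
  have hExv : ∀ s < T, hv (op (orb F (st0 A y0) s)).1 = 0 →
      ∃ s' ≤ T, (orb F (st0 A y0) s').1 = (op (orb F (st0 A y0) s)).1 := by
    intro s hs h1
    have he : ae (orb F (st0 A y0) s) ∈ Exm F (st0 A y0) T := mem_Exm.2 ⟨s, hs, rfl⟩
    by_cases h2 : ae (orb F (st0 A y0) s) ∈ om F A y0 X Y T
    · refine ⟨s + 1, hs, ?_⟩
      rw [← orb_step hst hs, nxt_open h2, mv_fst]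
    · by_cases h3 : op (orb F (st0 A y0) s) ∈ AA F A y0 X Y T
      · obtain ⟨s', hs', h4⟩ := mem_of_exm hst (by rw [ae_op]; exact he) h3
        exact ⟨s', hs', by rw [h4]⟩
      · exfalso
        have h4 := hnot h3
        have h5 := hC _ h2
        have h6 := hfs s hs.le
        have h7 : hf (face (op (orb F (st0 A y0) s))) = 1 := by
          rcases faces (orb F (st0 A y0) s) with ⟨b1, b3⟩ | ⟨b1, b3⟩
          · rw [b1, b3] at h5; rw [← h5, h6]
          · rw [b1, b3] at h5; rw [h5, h6]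
        exact z2_ne h4 h7 h1
  have hLv : ∀ x, x ≤ A → hv (x, y0) = 0 := by
    intro x hx
    induction x, hx using Int.leInductionDown with
    | base => exact h0
    | pred x hx ih =>
      have h1 : ((x - 1, y0, true) : Edg) ∈ om F A y0 X Y T := by
        rw [mem_om]
        right; left
        simp only [and_true]
        omega
      have := hO _ h1
      simp only [src_mk, tgt_true, sub_add_cancel] at this
      rw [this, ih]
  have hLf : ∀ x, x ≤ A - 1 → hf (x, y0) = 1 := by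
    intro x hx
    have := hmem (left_mem (F := F) (X := X) (y0 := y0) (Y := Y) (T := T) hx
      (q := .ne) (Or.inr rfl))
    exact z2_one this (hLv x (by omega))
  have hLf0 : ∀ x, x ≤ A - 1 → hf (x, y0 - 1) = 0 := by
    intro x hx
    have h1 := z2_eq (hnot (left_not_mem hst hx (y := y0) (q := .se) (Or.inl rfl)))
    simp only [face_se] at h1
    rw [← h1, hLv x (by omega)]
  have hup : ∀ x, x ≤ A - 1 → ∀ y, y0 + 1 ≤ y → hv (x, y) = 1 := by
    intro x hx y hy
    induction y, hy using Int.leInduction with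
    | base =>
      have h1 := z2_eq (hnot (left_not_mem hst hx (y := y0 + 1) (q := .se) (Or.inl rfl)))
      simp only [face_se, add_sub_cancel_right] at h1
      rw [h1, hLf x hx]
    | succ y hy ih =>
      have := (hfree (x, y, false) (fun h => by have := exm_vert hst h; omega)
        (by simp only; omega) (by simp only; have := hst.lt; omega)).1
      simp only [src_mk, tgt_false] at this
      rw [← this, ih]
  have hdn : ∀ x, x ≤ A - 1 → ∀ y, y ≤ y0 → hv (x, y) = 0 := by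
    intro x hx y hy
    induction y, hy using Int.leInductionDown with
    | base => exact hLv x (by omega)
    | pred y hy ih =>
      have := (hfree (x, y - 1, false) (fun h => by have := exm_vert hst h; omega)
        (by simp only; omega) (by simp only; have := hst.lt; omega)).1
      simp only [src_mk, tgt_false, sub_add_cancel] at this
      rw [this, ih]
  have hCf : ∀ x y, x ≤ A - 1 → y ≠ y0 → hf (x, y - 1) = hf (x, y) := by
    intro x y hx hy
    have h1 : ((x, y, true) : Edg) ∉ om F A y0 X Y T := by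
      rw [mem_om]
      rintro (⟨h2, h3⟩ | ⟨h2, h3, h4⟩ | ⟨h2, h3, h4⟩)
      · have h4 := exm_loc hst h3
        simp only at h4
        have h5 : x = A - 1 := by omega
        subst h5
        exact (exm_left hst h3).2 h2
      · exact hy h3
      · have := hst.lt
        simp only at h2
        omega
    have := hC _ h1
    simpa using this
  have hfu : ∀ x, x ≤ A - 1 → ∀ y, y0 ≤ y → hf (x, y) = 1 := by
    intro x hx y hy
    induction y, hy using Int.leInduction with
    | base => exact hLf x hx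
    | succ y hy ih =>
      have := hCf x (y + 1) hx (by omega)
      rw [add_sub_cancel_right] at this
      rw [← this, ih]
  have hfd : ∀ x, x ≤ A - 1 → ∀ y, y ≤ y0 - 1 → hf (x, y) = 0 := by
    intro x hx y hy
    induction y, hy using Int.leInductionDown with
    | base => exact hLf0 x hx
    | pred y hy ih =>
      have := hCf x y hx (by omega)
      rw [this, ih]
  refine ⟨hv, hf, fun s hs => ⟨hvs s hs, hfs s hs⟩, hfree, ?_, ?_, ?_, ?_⟩
  · intro e he
    obtain ⟨s, hs, rfl⟩ := mem_Exm.1 he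
    rcases ends (orb F (st0 A y0) s) with ⟨b1, b3⟩ | ⟨b1, b3⟩ <;> rw [b1, b3]
    · exact ⟨fun _ => ⟨s, hs.le, rfl⟩, hExv s hs⟩
    · exact ⟨hExv s hs, fun _ => ⟨s, hs.le, rfl⟩⟩
  · intro e he heF
    exact hC e (fun h => heF ((exm_om hst he).1 h))
  · intro x y hx
    constructor
    · intro h
      by_contra hc
      rw [hup x hx y (by omega)] at h
      exact one_ne_zero h
    · exact hdn x hx y
  · intro x y hx
    constructor
    · intro h
      by_contra hc
      rw [hfd x hx y (by omega)] at h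
      exact zero_ne_one h
    · exact hfu x hx y

/-! ### From a strand to the abstract data -/

/-- The vertices of the strand. -/
def LV (F : Set Edg) (A y0 : ℤ) (T : ℕ) : Set Vtx := {x | ∃ s ≤ T, (orb F (st0 A y0) s).1 = x}

/-- `v` is the highest of the leftmost vertices of its cluster, and this cluster reaches the
distance `m` to the right. -/
def Xc (v : Vtx) (F : Set Edg) : Prop :=
  ∀ w, Reach F v w → v.1 ≤ w.1 ∧ (w.1 = v.1 → w.2 ≤ v.2)

def Lf (v : Vtx) (m : ℕ) (F : Set Edg) : Prop := (∃ w, v.1 + m ≤ w.1 ∧ Reach F v w) ∧ Xc v F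

theorem reach_RE {n : ℕ} {F : Set Edg} (hF : F ⊆ ↑(RE 0 n 0 n)) {u w : Vtx}
    (hu : inR 0 n 0 n u) (h : Reach F u w) : inR 0 n 0 n w := by
  induction h with
  | refl => exact hu
  | @tail b c _ hs ih =>
    obtain ⟨⟨x, y, b'⟩, he, hc⟩ := hs
    have := hF he
    unfold inR at ih ⊢
    cases b'
    · simp only [mem_coe, mem_RE_false] at this
      simp only [src_mk, tgt_false] at hc
      rcases hc with ⟨h1, h2⟩ | ⟨h1, h2⟩
      · rw [← h2]; simp only; omega
      · rw [← h1]; simp only; omega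
    · simp only [mem_coe, mem_RE_true] at this
      simp only [src_mk, tgt_true] at hc
      rcases hc with ⟨h1, h2⟩ | ⟨h1, h2⟩
      · rw [← h2]; simp only; omega
      · rw [← h1]; simp only; omega

/-- the open edges of the strand -/
theorem strand_reach (hst : Strand F A y0 X Y T) {s : ℕ} (hs : s ≤ T) :
    Reach (F ∩ {e | e ∈ Exm F (st0 A y0) T ∧ e ≠ (A - 1, y0, true)}) (A, y0)
      (orb F (st0 A y0) s).1 := by
  have h := orb_reach (F := F) (W := {e | e ∈ Exm F (st0 A y0) T ∧ e ≠ (A - 1, y0, true)})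
    (σ := st0 A y0) (T := T) (fun s hs => ⟨mem_Exm.2 ⟨s, hs, rfl⟩,
      (exm_loc hst (mem_Exm.2 ⟨s, hs, rfl⟩)).2.2⟩) hs
  exact h

theorem strand_conn (σ : St) {T : ℕ} {s : ℕ} (hs : s ≤ T) :
    Reach {e | (∃ s ≤ T, (orb F σ s).1 = src e) ∧ (∃ s ≤ T, (orb F σ s).1 = tgt e)} σ.1
      (orb F σ s).1 := by
  induction s with
  | zero => exact Reach.refl _ _
  | succ s ih =>
    have ih' := ih (by omega)
    have h2 : ∀ h : ae (orb F σ s) ∈ F, (orb F σ (s + 1)).1 = (op (orb F σ s)).1 := by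
      intro h
      rw [orb_succ, nxt_open h, mv_fst]
    by_cases h : ae (orb F σ s) ∈ F
    · refine ih'.trans (Adj.reach ⟨ae (orb F σ s), ?_, ?_⟩)
      · rcases ends (orb F σ s) with ⟨b1, b2⟩ | ⟨b1, b2⟩
        · refine ⟨⟨s, by omega, b1.symm⟩, ⟨s + 1, hs, ?_⟩⟩
          rw [h2 h, b2]
        · refine ⟨⟨s + 1, hs, ?_⟩, ⟨s, by omega, b2.symm⟩⟩
          rw [h2 h, b1]
      · rw [h2 h]
        exact ends _
    · rw [orb_succ, nxt_closed h, rt_fst]
      exact ih'

theorem SD_of_strand {n : ℕ} {F0 : Set Edg} (hF0 : F0 ⊆ ↑(RE 0 n 0 n))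
    (hv : inR 0 n 0 n (A, y0))
    (hst : Strand (insert (A - 1, y0, true) F0) A y0 X Y T) :
    ∃ P : Vtx → Prop, SD (Exm (insert (A - 1, y0, true) F0) (st0 A y0) T) A y0 X n P
      (LV (insert (A - 1, y0, true) F0) A y0 T) ∧
      (∀ x ∈ LV (insert (A - 1, y0, true) F0) A y0 T,
        Reach (F0 ∩ ↑(Exm (insert (A - 1, y0, true) F0) (st0 A y0) T)) (A, y0) x) := by
  obtain ⟨hv', hf, h1, h2, h3, h4, h5, h6⟩ := side2_exists hst
  have hconn : ∀ x ∈ LV (insert (A - 1, y0, true) F0) A y0 T,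
      Reach (F0 ∩ ↑(Exm (insert (A - 1, y0, true) F0) (st0 A y0) T)) (A, y0) x := by
    rintro x ⟨s, hs, rfl⟩
    refine (strand_reach hst hs).mono ?_
    rintro e ⟨he, he1, he2⟩
    rcases he with he | he
    · exact absurd he he2
    · exact ⟨he, by exact_mod_cast he1⟩
  have hL : ∀ x ∈ LV (insert (A - 1, y0, true) F0) A y0 T, inR 0 n 0 n x := by
    intro x hx
    exact reach_RE hF0 hv ((hconn x hx).mono Set.inter_subset_left)
  -- an examined edge has an end on the strand
  have hend : ∀ e ∈ Exm (insert (A - 1, y0, true) F0) (st0 A y0) T,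
      src e ∈ LV (insert (A - 1, y0, true) F0) A y0 T ∨
      tgt e ∈ LV (insert (A - 1, y0, true) F0) A y0 T := by
    intro e he
    obtain ⟨s, hs, rfl⟩ := mem_Exm.1 he
    rcases ends (orb (insert (A - 1, y0, true) F0) (st0 A y0) s) with ⟨b1, _⟩ | ⟨_, b1⟩
    · left; rw [b1]; exact ⟨s, hs.le, rfl⟩
    · right; rw [b1]; exact ⟨s, hs.le, rfl⟩
  refine ⟨fun x => hv' x = 0, ⟨hst.lt, ?_, ?_, ?_, ?_, ?_, ?_, ?_, ?_, ?_, ?_⟩, hconn⟩
  · intro e he hA hX
    have := (h2 e he (by omega) (by omega)).1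
    show hv' (src e) = 0 ↔ hv' (tgt e) = 0
    rw [this]
  · intro e he
    exact h3 e he
  · rintro x ⟨s, hs, rfl⟩
    exact (h1 s hs).1
  · rintro x ⟨s, hs, rfl⟩
    exact orb_ge hst hs
  · intro y hy hL'
    have he : ((A - 1, y, true) : Edg) ∉ Exm (insert (A - 1, y0, true) F0) (st0 A y0) T := by
      intro he
      obtain ⟨⟨s, hs, h7⟩, _⟩ := exm_left hst he
      exact hL' ⟨s, hs.le, by rw [h7]⟩
    have := (h2 _ he (by simp only; omega) (by simp only; have := hst.lt; omega)).1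
    simp only [src_mk, tgt_true, sub_add_cancel] at this
    show hv' (A, y) = 0
    rw [← this]
    exact (h5 _ _ le_rfl).2 hy.le
  · intro y hy hL'
    have he : ((A - 1, y, true) : Edg) ∉ Exm (insert (A - 1, y0, true) F0) (st0 A y0) T := by
      intro he
      obtain ⟨⟨s, hs, h7⟩, _⟩ := exm_left hst he
      exact hL' ⟨s, hs.le, by rw [h7]⟩
    have := (h2 _ he (by simp only; omega) (by simp only; have := hst.lt; omega)).1
    simp only [src_mk, tgt_true, sub_add_cancel] at this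
    show ¬ hv' (A, y) = 0
    rw [← this, h5 _ _ le_rfl]
    omega
  · rintro ⟨x, y⟩ hA hX hy
    simp only at hA hX hy
    show ¬ hv' (x, y) = 0
    have hy0 : y0 ≤ n := by unfold inR at hv; exact hv.2.2
    have key : ∀ x', A - 1 ≤ x' → x' < X → hv' (x', y) = hv' (A - 1, y) := by
      intro x' hx'
      induction x', hx' using Int.leInduction with
      | base => intro _; rfl
      | succ x' hx' ih =>
        intro hxX
        rw [← ih (by omega)]
        have he : ((x', y, true) : Edg) ∉ Exm (insert (A - 1, y0, true) F0) (st0 A y0) T := by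
          intro he
          rcases hend _ he with h7 | h7
          · have := hL _ h7
            unfold inR at this
            simp only [src_mk] at this
            omega
          · have := hL _ h7
            unfold inR at this
            simp only [tgt_true] at this
            omega
        have := (h2 _ he (by simp only; omega) (by simp only; omega)).1
        simp only [src_mk, tgt_true] at this
        exact this.symm
    rw [key x (by omega) hX, h5 _ _ le_rfl]
    omega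
  · rintro ⟨x, y⟩ hx
    exact h5 x y (by simp only at hx; omega)
  · exact ⟨0, Nat.zero_le _, rfl⟩
  · rintro x ⟨s, hs, rfl⟩
    exact strand_conn (st0 A y0) hs

/-! ### Existence of the strand -/

theorem strand_of_Lf {F0 : Finset Edg} {v : Vtx} {m : ℕ} (hm : 1 ≤ m)
    (h : Lf v m (↑F0 : Set Edg)) :
    ∃ Y T, Strand (insert (v.1 - 1, v.2, true) (↑F0 : Set Edg)) v.1 v.2 (v.1 + m) Y T := by
  obtain ⟨⟨w, hw, hvw⟩, hX⟩ := h
  obtain ⟨A, y0⟩ := v
  simp only at hw hX ⊢
  have hl : ∀ w, Reach (↑F0 : Set Edg) (st0 A y0).1 w → (st0 A y0).1.1 ≤ w.1 := fun w hw =>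
    (hX w hw).1
  have hex : ∃ T, A + m ≤ (orb (↑F0 : Set Edg) (st0 A y0) T).1.1 := by
    obtain ⟨⟨t, ht⟩, -, -⟩ := orb_extent (σ := st0 A y0) rfl hl hvw
    exact ⟨t, by omega⟩
  classical
  set T := Nat.find hex with hT
  have hT1 : A + m ≤ (orb (↑F0 : Set Edg) (st0 A y0) T).1.1 := Nat.find_spec hex
  have hT2 : ∀ s < T, (orb (↑F0 : Set Edg) (st0 A y0) s).1.1 < A + m := fun s hs => by
    have := Nat.find_min hex hs
    omega
  have hge : ∀ s, A ≤ (orb (↑F0 : Set Edg) (st0 A y0) s).1.1 := fun s =>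
    hl _ (P17.orb_vertex s)
  have hent0 : ((A - 1, y0, true) : Edg) ∉ F0 := by
    intro he
    have h1 : Reach (↑F0 : Set Edg) (A, y0) (A - 1, y0) :=
      Adj.reach ⟨_, by exact_mod_cast he, Or.inr ⟨by simp, by simp⟩⟩
    have := (hX _ h1).1
    simp only at this
    omega
  -- the orbit does not examine the entrance before `T`
  have hne : ∀ s < T, ae (orb (↑F0 : Set Edg) (st0 A y0) s) ≠ (A - 1, y0, true) := by
    intro s hs he
    have h1 := hge s
    have h2 : orb (↑F0 : Set Edg) (st0 A y0) s = ((A, y0), .sw) := by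
      generalize orb (↑F0 : Set Edg) (st0 A y0) s = σ at he h1
      obtain ⟨⟨x, y'⟩, q⟩ := σ
      cases q <;> simp at he h1 ⊢
      · omega
      · omega
    have h3 : orb (↑F0 : Set Edg) (st0 A y0) (s + 1) = st0 A y0 := by
      rw [orb_succ, h2, nxt_closed (by simpa using hent0)]
      rfl
    have h4 : orb (↑F0 : Set Edg) (st0 A y0) T =
        orb (↑F0 : Set Edg) (st0 A y0) (T - (s + 1)) := by
      have : T = (T - (s + 1)) + (s + 1) := by omega
      conv_lhs => rw [this]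
      rw [orb_add, h3]
    have h5 := hT2 (T - (s + 1)) (by omega)
    rw [← h4] at h5
    omega
  have hcong : ∀ e ∈ Exm (↑F0 : Set Edg) (st0 A y0) T,
      (e ∈ (↑F0 : Set Edg) ↔ e ∈ insert (A - 1, y0, true) (↑F0 : Set Edg)) := by
    intro e he
    obtain ⟨s, hs, rfl⟩ := mem_Exm.1 he
    constructor
    · exact fun h => Or.inr h
    · rintro (h | h)
      · exact absurd h (hne s hs)
      · exact h
  have horb : ∀ s ≤ T, orb (insert (A - 1, y0, true) (↑F0 : Set Edg)) (st0 A y0) s =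
      orb (↑F0 : Set Edg) (st0 A y0) s := fun s hs => orb_congr hcong hs
  have hstay : ∀ s < T, A ≤ (orb (insert (A - 1, y0, true) (↑F0 : Set Edg)) (st0 A y0) s).1.1 ∧
      (orb (insert (A - 1, y0, true) (↑F0 : Set Edg)) (st0 A y0) s).1.1 < A + m := by
    intro s hs
    rw [horb s hs.le]
    exact ⟨hge s, hT2 s hs⟩
  have hTX : (orb (insert (A - 1, y0, true) (↑F0 : Set Edg)) (st0 A y0) T).1.1 = A + m := by
    rw [horb T le_rfl]
    have hT0 : T ≠ 0 := by
      intro h0
      rw [h0] at hT1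
      simp [st0] at hT1
      omega
    obtain ⟨t, ht⟩ : ∃ t, T = t + 1 := ⟨T - 1, by omega⟩
    have h1 := hT2 t (by omega)
    have h2 := hT1
    rw [ht, orb_succ] at h2 ⊢
    generalize orb (↑F0 : Set Edg) (st0 A y0) t = σ at h1 h2 ⊢
    obtain ⟨⟨x, y⟩, q⟩ := σ
    by_cases hop : ae ((x, y), q) ∈ (↑F0 : Set Edg)
    · rw [nxt_open hop] at h2 ⊢
      cases q <;> simp at h1 h2 ⊢ <;> omega
    · rw [nxt_closed hop, p2_rt_fst] at h2 ⊢
      simp at h1 h2 ⊢
      omega
  obtain ⟨Y, hY⟩ := tip_of_first (F := insert (A - 1, y0, true) (↑F0 : Set Edg))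
    (by omega) hstay hTX
  exact ⟨Y, T, ⟨by omega, Or.inl rfl, hstay, hY⟩⟩

end Pool.Agent.V5helper99.OB
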