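import Pool.Agent.V5helper99.OB.Det
import Pool.Agent.V5helper99.OB.Prob
import Pool.Agent.H12R2.Sep.TrapP

/-!
# One window: conditionally on the strand and on the configuration outside of the window, the
exterior condition and the good event hold together with a positive fraction of the probability
-/

set_option autoImplicit false
set_option maxHeartbeats 4000000

namespace Pool.Agent.V5helper99.OB

open H974 H12S Finset H984P H984N

/-- Interior of the window. -/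
def Wn (W0 : Set Vtx) (A : ℤ) : Set Vtx := {x | A < x.1 ∧ ∀ x', sd x x' ≤ 1 → x' ∈ W0}

/-- The data of a window, in coordinates where the box is centred at the origin. -/
structure WD (S k : Finset Edg) (A y0 X top : ℤ) (P : Vtx → Prop) (L W0 : Set Vtx)
    (N a Q : ℕ) (Hk : Finset Edg) : Prop where
  sdd : SD k A y0 X top P L
  a64 : 64 ≤ a
  hA : A ≤ -((N + 12) * a : ℕ)
  hAQ : -(Q * a : ℕ) ≤ A
  hQ : 2 * N + 20 ≤ Q
  FR : ∀ x : Vtx, A ≤ x.1 → x.1 ≤ ((N + 12) * a : ℕ) → |x.2| ≤ ((2 * N + 12) * a : ℕ) →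
    x ∈ W0 ∧ P x ∧ x ∉ L
  tp : TP N a ⊆ S
  WX : ∀ x ∈ W0, A ≤ x.1 ∧ x.1 < X
  hk : ∀ e ∈ Hk, ∀ u, (u = src e ∨ u = tgt e) → P u →
    (((N + 9) * a : ℕ) ≤ u.1 ∨ ((2 * N + 12) * a : ℕ) < |u.2|) ∧ sd u (0, 0) ≤ (Q * a : ℕ) ∧
      ∀ x, sd u x ≤ a → P x → x ∈ Wn W0 A

open Classical in
/-- The free edges of the window. -/
noncomputable def UU (S k : Finset Edg) (W0 : Set Vtx) : Finset Edg :=
  (S \ k).filter (fun e => src e ∈ W0 ∧ tgt e ∈ W0)

theorem mem_UU {S k : Finset Edg} {W0 : Set Vtx} {e : Edg} :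
    e ∈ UU S k W0 ↔ (e ∈ S ∧ e ∉ k) ∧ src e ∈ W0 ∧ tgt e ∈ W0 := by
  simp only [UU, Finset.mem_filter, Finset.mem_sdiff]

open Classical in
/-- The edges of `T⁺` used for the connection of `C` to the boundary of `T⁺`. -/
noncomputable def ES (N r a : ℕ) (Z : Finset (ℤ × ℤ)) (yh : ℤ) (C : Finset Vtx) : Finset Edg :=
  (TP N a).filter (fun e => e ∉ tE N a C ∧ src e ∉ WS N r a Z yh ∧ tgt e ∉ WS N r a Z yh)

theorem mem_ES {N r a : ℕ} {Z : Finset (ℤ × ℤ)} {yh : ℤ} {C : Finset Vtx} {e : Edg} :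
    e ∈ ES N r a Z yh C ↔
      e ∈ TP N a ∧ e ∉ tE N a C ∧ src e ∉ WS N r a Z yh ∧ tgt e ∉ WS N r a Z yh := by
  simp only [ES, Finset.mem_filter]

open Classical in
/-- The edges of the hook. -/
noncomputable def HK (S k : Finset Edg) (P : Vtx → Prop) (W0 : Set Vtx) (Hk : Finset Edg) :
    Finset Edg := (Hk ∩ UU S k W0).filter (fun e => P (src e) ∧ P (tgt e))

theorem mem_HK {S k : Finset Edg} {P : Vtx → Prop} {W0 : Set Vtx} {Hk : Finset Edg} {e : Edg} :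
    e ∈ HK S k P W0 Hk ↔ (e ∈ Hk ∧ e ∈ UU S k W0) ∧ P (src e) ∧ P (tgt e) := by
  simp only [HK, Finset.mem_filter, Finset.mem_inter]

/-- The edges of the connection of `C` to the strand. -/
noncomputable def D0 (S k : Finset Edg) (P : Vtx → Prop) (W0 : Set Vtx) (Hk : Finset Edg)
    (N r a : ℕ) (Z : Finset (ℤ × ℤ)) (yh : ℤ) (C : Finset Vtx) : Finset Edg :=
  ES N r a Z yh C ∪ HK S k P W0 Hk

/-- `C` is connected to the strand. -/
def A2 (S k : Finset Edg) (P : Vtx → Prop) (W0 L : Set Vtx) (Hk : Finset Edg)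
    (N r a : ℕ) (Z : Finset (ℤ × ℤ)) (yh : ℤ) (C : Finset Vtx) (F : Finset Edg) : Prop :=
  ∃ c ∈ C, ∃ x ∈ L, Reach ((↑F : Set Edg) ∩ ↑(D0 S k P W0 Hk N r a Z yh C)) c x

/-- All the other clusters are small. -/
def Trp (S k : Finset Edg) (P : Vtx → Prop) (W0 : Set Vtx) (Hk : Finset Edg)
    (N r a Q : ℕ) (Z : Finset (ℤ × ℤ)) (yh : ℤ) (C : Finset Vtx) (F : Finset Edg) : Prop :=
  ∀ u w, sd u (0, 0) ≤ (Q * a : ℕ) →
    Reach ((↑F : Set Edg) ∩ ↑(UU S k W0 \ (tE N a C ∪ D0 S k P W0 Hk N r a Z yh C))) u w →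
      4 * sd u w ≤ a

/-- The good event of the window. -/
def GdW (M B : ℕ) (c0 E0 t : ℝ) (S k : Finset Edg) (P : Vtx → Prop) (W0 L : Set Vtx)
    (Hk : Finset Edg) (N r a Q : ℕ) (Z : Finset (ℤ × ℤ)) (yh : ℤ) (F : Finset Edg) : Prop :=
  ∃ C : Finset Vtx, GoodC M B N r c0 E0 t a Z yh C ∧ IsT N a ↑F C ∧
    A2 S k P W0 L Hk N r a Z yh C F ∧ Trp S k P W0 Hk N r a Q Z yh C F

theorem mem_tE {N a : ℕ} {C : Finset Vtx} {e : Edg} :
    e ∈ tE N a C ↔ e ∈ TE N a ∧ (src e ∈ C ∨ tgt e ∈ C) := by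
  simp only [tE, Finset.mem_filter]

theorem TE_TP (N a : ℕ) : TE N a ⊆ TP N a := by
  unfold TE TP
  apply RE_subset <;> push_cast <;> nlinarith [Int.natCast_nonneg a, Int.natCast_nonneg N]

theorem TE_end {N a : ℕ} {e : Edg} (he : e ∈ TE N a) {u u' : Vtx} (h : Ends e u u') :
    |u.1| ≤ (N * a : ℕ) ∧ |u.2| ≤ (2 * N * a : ℕ) := by
  obtain ⟨x, y, b⟩ := e
  unfold TE at he
  unfold Ends at h
  rw [abs_le, abs_le]
  cases b
  · rw [mem_RE_false] at he
    simp only [src_mk, tgt_false] at h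
    rcases h with ⟨rfl, rfl⟩ | ⟨rfl, rfl⟩ <;> simp only <;> omega
  · rw [mem_RE_true] at he
    simp only [src_mk, tgt_true] at h
    rcases h with ⟨rfl, rfl⟩ | ⟨rfl, rfl⟩ <;> simp only <;> omega

theorem TP_end {N a : ℕ} {e : Edg} (he : e ∈ TP N a) {u u' : Vtx} (h : Ends e u u') :
    |u.1| ≤ ((N + 10) * a : ℕ) ∧ |u.2| ≤ ((2 * N + 10) * a : ℕ) := by
  obtain ⟨x, y, b⟩ := e
  unfold TP at he
  unfold Ends at h
  rw [abs_le, abs_le]
  cases b
  · rw [mem_RE_false] at he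
    simp only [src_mk, tgt_false] at h
    rcases h with ⟨rfl, rfl⟩ | ⟨rfl, rfl⟩ <;> simp only <;> omega
  · rw [mem_RE_true] at he
    simp only [src_mk, tgt_true] at h
    rcases h with ⟨rfl, rfl⟩ | ⟨rfl, rfl⟩ <;> simp only <;> omega

theorem ends_self (e : Edg) : Ends e (src e) (tgt e) := Or.inl ⟨rfl, rfl⟩

theorem Ends.mem_tE {N a : ℕ} {C : Finset Vtx} {e : Edg} {u u' : Vtx} (h : Ends e u u')
    (he : e ∈ TE N a) (hu : u ∈ C) : e ∈ tE N a C :=
  OB.mem_tE.2 ⟨he, h.any (p := fun x => x ∈ C) hu⟩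

/-! ### Locality -/

theorem IsT_local {N a : ℕ} {C : Finset Vtx} (F : Finset Edg) :
    IsT N a ↑F C ↔ IsT N a ↑(F ∩ tE N a C) C := by
  have hsub : ((↑(F ∩ tE N a C) : Set Edg) ∩ ↑(TE N a)) ⊆ ↑F ∩ ↑(TE N a) := by
    rintro e ⟨h1, h2⟩
    rw [mem_coe, Finset.mem_inter] at h1
    exact ⟨h1.1, h2⟩
  constructor
  · rintro ⟨w, hw, h⟩
    refine ⟨w, hw, fun x => ⟨fun hx => ?_, fun hx => (h x).2 (hx.mono hsub)⟩⟩
    have h1 := (h x).1 hx
    clear hx
    induction h1 with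
    | refl => exact Reach.refl _ _
    | @tail u u' hu hs ih =>
      obtain ⟨e, he, hee⟩ := hs
      refine ih.trans (Adj.reach ⟨e, ⟨?_, he.2⟩, hee⟩)
      rw [mem_coe, Finset.mem_inter]
      exact ⟨he.1, Ends.mem_tE hee he.2 ((h u).2 hu)⟩
  · rintro ⟨w, hw, h⟩
    refine ⟨w, hw, fun x => ⟨fun hx => ((h x).1 hx).mono hsub, fun hx => ?_⟩⟩
    induction hx with
    | refl => exact hw
    | @tail u u' hu hs ih =>
      obtain ⟨e, he, hee⟩ := hs
      refine (h u').2 (((h u).1 ih).trans (Adj.reach ⟨e, ⟨?_, he.2⟩, hee⟩))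
      rw [mem_coe, Finset.mem_inter]
      exact ⟨he.1, Ends.mem_tE hee he.2 ih⟩

theorem inter_inter_of_sub {F D S : Finset Edg} (h : D ⊆ S) :
    ((↑(F ∩ S) : Set Edg) ∩ ↑D) = ↑F ∩ ↑D := by
  ext e
  simp only [Finset.coe_inter, Set.mem_inter_iff, mem_coe]
  constructor
  · rintro ⟨⟨h1, _⟩, h2⟩; exact ⟨h1, h2⟩
  · rintro ⟨h1, h2⟩; exact ⟨⟨h1, h h2⟩, h2⟩

section
variable {S k : Finset Edg} {A y0 X top : ℤ} {P : Vtx → Prop} {L W0 : Set Vtx}
  {N a Q : ℕ} {Hk : Finset Edg} {r : ℕ} {Z : Finset (ℤ × ℤ)} {yh : ℤ}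

theorem A2_local (C : Finset Vtx) {D : Finset Edg} (hD : D0 S k P W0 Hk N r a Z yh C ⊆ D)
    (F : Finset Edg) :
    A2 S k P W0 L Hk N r a Z yh C F ↔ A2 S k P W0 L Hk N r a Z yh C (F ∩ D) := by
  unfold A2
  rw [inter_inter_of_sub hD]

theorem Trp_local (C : Finset Vtx) (F : Finset Edg) :
    Trp S k P W0 Hk N r a Q Z yh C F ↔ Trp S k P W0 Hk N r a Q Z yh C
      (F ∩ (UU S k W0 \ (tE N a C ∪ D0 S k P W0 Hk N r a Z yh C))) := by
  unfold Trp
  rw [inter_inter_of_sub (Finset.Subset.refl _)]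

theorem Esc_iff (C : Finset Vtx) (G : Set Edg) : Esc N r a Z yh C G ↔
    ∃ c ∈ C, ∃ y : Vtx, (|y.1| = ((N + 10) * a : ℕ) ∨ |y.2| = ((2 * N + 10) * a : ℕ)) ∧
      Reach (G ∩ ↑(ES N r a Z yh C)) c y := by
  have : {e | e ∈ TP N a ∧ e ∉ tE N a C ∧ src e ∉ WS N r a Z yh ∧ tgt e ∉ WS N r a Z yh} =
      (↑(ES N r a Z yh C) : Set Edg) := by
    ext e
    rw [mem_coe, mem_ES]
    rfl
  unfold Esc
  rw [this]

theorem Esc_local (C : Finset Vtx) {D : Finset Edg} (hD : ES N r a Z yh C ⊆ D)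
    (F : Finset Edg) : Esc N r a Z yh C (↑F : Set Edg) ↔ Esc N r a Z yh C (↑(F ∩ D) : Set Edg) := by
  rw [Esc_iff, Esc_iff, inter_inter_of_sub hD]

/-! ### The edges of the structure -/

theorem tp_end_FR (h : WD S k A y0 X top P L W0 N a Q Hk) {e : Edg} (he : e ∈ TP N a)
    {u u' : Vtx} (hu : Ends e u u') : u ∈ W0 ∧ P u ∧ u ∉ L := by
  obtain ⟨h1, h2⟩ := TP_end he hu
  have hA := h.hA
  rw [abs_le] at h1
  apply h.FR u
  · push_cast at *; nlinarith [Int.natCast_nonneg a]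
  · push_cast at *; nlinarith [Int.natCast_nonneg a]
  · push_cast at *; nlinarith [Int.natCast_nonneg a]

theorem tp_UU (h : WD S k A y0 X top P L W0 N a Q Hk) : TP N a ⊆ UU S k W0 := by
  intro e he
  have h1 := tp_end_FR h he (ends_self e)
  have h2 := tp_end_FR h he (ends_self e).symm
  rw [mem_UU]
  refine ⟨⟨h.tp he, fun hk => ?_⟩, h1.1, h2.1⟩
  exact h1.2.2 ((h.sdd.exv e hk).1 h1.2.1)

theorem tE_UU (h : WD S k A y0 X top P L W0 N a Q Hk) (C : Finset Vtx) :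
    tE N a C ⊆ UU S k W0 := fun e he => tp_UU h (TE_TP N a (mem_tE.1 he).1)

theorem D0_UU (h : WD S k A y0 X top P L W0 N a Q Hk) (C : Finset Vtx) :
    D0 S k P W0 Hk N r a Z yh C ⊆ UU S k W0 := by
  intro e he
  unfold D0 at he
  rw [Finset.mem_union] at he
  rcases he with he | he
  · exact tp_UU h (mem_ES.1 he).1
  · exact (mem_HK.1 he).1.2

theorem tE_D0_disj (h : WD S k A y0 X top P L W0 N a Q Hk) (C : Finset Vtx) :
    Disjoint (tE N a C) (D0 S k P W0 Hk N r a Z yh C) := by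
  rw [Finset.disjoint_left]
  intro e he he2
  unfold D0 at he2
  rw [Finset.mem_union] at he2
  rcases he2 with he2 | he2
  · exact (mem_ES.1 he2).2.1 he
  · have h1 := mem_HK.1 he2
    have h2 := (h.hk e h1.1.1 (src e) (Or.inl rfl) h1.2.1).1
    have h3 := TE_end (mem_tE.1 he).1 (ends_self e)
    rw [abs_le, abs_le] at h3
    rw [lt_abs] at h2
    push_cast at *
    rcases h2 with h2 | h2 | h2 <;> nlinarith [Int.natCast_nonneg a, h.a64, h3.1.1, h3.1.2, h3.2.1, h3.2.2]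

/-- ends of the edges of the structure -/
theorem D_end (h : WD S k A y0 X top P L W0 N a Q Hk) (C : Finset Vtx) {e : Edg}
    (he : e ∈ tE N a C ∪ D0 S k P W0 Hk N r a Z yh C) {u : Vtx} (hu : u = src e ∨ u = tgt e) :
    P u ∧ sd u (0, 0) ≤ (Q * a : ℕ) ∧ ∀ x, 4 * sd u x ≤ a → P x → x ∈ Wn W0 A := by
  have htp : e ∈ TP N a → P u ∧ sd u (0, 0) ≤ (Q * a : ℕ) ∧
      ∀ x, 4 * sd u x ≤ a → P x → x ∈ Wn W0 A := by
    intro he
    obtain ⟨u', hue⟩ : ∃ u', Ends e u u' := by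
      rcases hu with rfl | rfl
      · exact ⟨_, ends_self e⟩
      · exact ⟨_, (ends_self e).symm⟩
    have h1 := TP_end he hue
    have h2 := (tp_end_FR h he hue).2.1
    have hQ := h.hQ
    have ha := h.a64
    have hA := h.hA
    refine ⟨h2, ?_, ?_⟩
    · rw [sd_le_iff]
      simp only [sub_zero]
      have : ((2 * N + 10) * a : ℕ) ≤ Q * a := Nat.mul_le_mul_right _ (by omega)
      have : ((N + 10) * a : ℕ) ≤ Q * a := Nat.mul_le_mul_right _ (by omega)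
      constructor <;> omega
    · intro x hx _
      have hx' : sd u x ≤ a := by have := sd_nonneg u x; omega
      rw [sd_le_iff] at hx'
      have e1 : (((N + 12) * a : ℕ) : ℤ) = ((N + 10) * a : ℕ) + 2 * a := by push_cast; ring
      have e2 : (((2 * N + 12) * a : ℕ) : ℤ) = ((2 * N + 10) * a : ℕ) + 2 * a := by
        push_cast; ring
      rw [e1] at hA
      rw [abs_le, abs_le] at h1 hx'
      refine ⟨by omega, fun x' hxx => ?_⟩
      rw [sd_le_iff, abs_le, abs_le] at hxx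
      refine (h.FR x' (by omega) (by rw [e1]; omega) ?_).1
      rw [abs_le, e2]
      omega
  rw [Finset.mem_union] at he
  rcases he with he | he
  · exact htp (TE_TP N a (mem_tE.1 he).1)
  · unfold D0 at he
    rw [Finset.mem_union] at he
    rcases he with he | he
    · exact htp (mem_ES.1 he).1
    · have h1 := mem_HK.1 he
      have hPu : P u := by
        rcases hu with rfl | rfl
        · exact h1.2.1
        · exact h1.2.2
      obtain ⟨h2, h3, h4⟩ := h.hk e h1.1.1 u hu hPu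
      exact ⟨hPu, h3, fun x hx => h4 x (by have := sd_nonneg u x; omega)⟩

theorem det_window (h : WD S k A y0 X top P L W0 N a Q Hk) {H G : Finset Edg}
    (hH : H ⊆ S \ UU S k W0) (hG : G ⊆ UU S k W0) (C : Finset Vtx)
    (hconn : ∀ x ∈ L, Reach (↑(H ∩ k) : Set Edg) (A, y0) x)
    (hTr : Trp S k P W0 Hk N r a Q Z yh C G)
    (hX : Xc (A, y0) (↑(H ∪ (G \ (tE N a C ∪ D0 S k P W0 Hk N r a Z yh C))) : Set Edg)) :
    Xc (A, y0) (↑(H ∪ G) : Set Edg) := by
  set D := tE N a C ∪ D0 S k P W0 Hk N r a Z yh C with hD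
  have hDU : D ⊆ UU S k W0 := Finset.union_subset (tE_UU h C) (D0_UU h C)
  have hsd : (↑(H ∪ (G \ D)) : Set Edg) = ↑(H ∪ G) \ ↑D := by
    ext e
    simp only [Finset.coe_union, Finset.coe_sdiff, Set.mem_union, Set.mem_sdiff, mem_coe]
    constructor
    · rintro (h1 | ⟨h1, h2⟩)
      · exact ⟨Or.inl h1, fun h3 => (Finset.mem_sdiff.1 (hH h1)).2 (hDU h3)⟩
      · exact ⟨Or.inr h1, h2⟩
    · rintro ⟨h1 | h1, h2⟩
      · exact Or.inl h1
      · exact Or.inr ⟨h1, h2⟩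
  rw [hsd] at hX
  refine det_X (F := ↑(H ∪ G)) (v := (A, y0)) (D := ↑D) (Tp := ↑(UU S k W0 \ D)) (P := P)
    (L := L) (Wn := Wn W0 A) (K := (a : ℤ) / 4) (by positivity) ?_ ?_ ?_ ?_ ?_ hX
  · intro e he heD u u' hue hPu huL huW
    have heS : e ∈ S := by
      rw [mem_coe, Finset.mem_union] at he
      rcases he with he | he
      · exact (Finset.mem_sdiff.1 (hH he)).1
      · exact (mem_UU.1 (hG he)).1.1
    have hek : e ∉ k := by
      intro hek
      have h1 := h.sdd.exv e hek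
      rcases hue with ⟨h2, h3⟩ | ⟨h2, h3⟩
      · rw [h2] at h1; exact huL (h1.1 hPu)
      · rw [h3] at h1; exact huL (h1.2 hPu)
    have hu0 : u ∈ W0 := huW.2 u (by rw [sd_self]; norm_num)
    have hu'0 : u' ∈ W0 := huW.2 u' hue.sd
    refine ⟨?_, ?_⟩
    · rw [mem_coe, Finset.mem_sdiff, mem_UU]
      exact ⟨⟨⟨heS, hek⟩, hue.all (p := fun x => x ∈ W0) hu0 hu'0⟩, heD⟩
    · have h1 := h.WX u hu0
      have h2 := h.WX u' hu'0
      have h3 := h.sdd.fresh e hek (by rw [hue.fst]; omega) (by rw [hue.fst]; omega)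
      rcases hue with ⟨h4, h5⟩ | ⟨h4, h5⟩
      · rw [h4, h5] at h3; exact h3.1 hPu
      · rw [h4, h5] at h3; exact h3.2 hPu
  · intro e he u hu
    obtain ⟨h1, h2, h3⟩ := D_end h C (by exact_mod_cast he) hu
    exact ⟨h1, fun x hx => h3 x (by omega)⟩
  · rintro b hb hPb hbW
    have := hbW.1
    simp only at hb
    omega
  · intro x hx
    refine (hconn x hx).mono ?_
    intro e he
    rw [mem_coe, Finset.mem_inter] at he
    refine ⟨by rw [mem_coe]; exact Finset.mem_union_left _ he.1, fun h1 => ?_⟩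
    exact (mem_UU.1 (hDU (by exact_mod_cast h1))).1.2 he.2
  · intro e he u hu w hw
    obtain ⟨h1, h2, h3⟩ := D_end h C (by exact_mod_cast he) hu
    have := hTr u w h2 (hw.mono (by
      rintro g ⟨hg, hg2⟩
      refine ⟨?_, hg2⟩
      rw [mem_coe, Finset.mem_union] at hg
      rcases hg with hg | hg
      · exfalso
        exact (Finset.mem_sdiff.1 (hH hg)).2 (Finset.mem_sdiff.1 (by exact_mod_cast hg2)).1
      · exact hg))
    omega

end

end Pool.Agent.V5helper99.OB
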