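import Pool.Agent.V5helper99.OB.Window
import Pool.Agent.H12R2.Sep.WinHalf

/-!
# One window: the probability bound
-/

set_option autoImplicit false
set_option maxHeartbeats 4000000

namespace Pool.Agent.V5helper99.OB

open H974 H12S Finset H984P H984N

section
variable {S k : Finset Edg} {A y0 X top : ℤ} {P : Vtx → Prop} {L W0 : Set Vtx}
  {N a Q : ℕ} {Hk : Finset Edg} {r : ℕ} {Z : Finset (ℤ × ℤ)} {yh : ℤ}

theorem IsT_disj {F : Set Edg} {C C' : Finset Vtx} (h : IsT N a F C) (h' : IsT N a F C')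
    (hne : C ≠ C') {x : Vtx} (hx : x ∈ C) (hx' : x ∈ C') : False := by
  obtain ⟨w, _, h1⟩ := h
  obtain ⟨w', _, h2⟩ := h'
  apply hne
  ext y
  rw [h1, h2]
  have h3 := (h1 x).1 hx
  have h4 := (h2 x).1 hx'
  exact ⟨fun h5 => h4.trans (h3.symm.trans h5), fun h5 => h3.trans (h4.symm.trans h5)⟩

theorem IsT_reach {F : Set Edg} {C : Finset Vtx} (h : IsT N a F C) {x y : Vtx} (hx : x ∈ C)
    (hy : y ∈ C) : Reach (F ∩ ↑(TE N a)) x y := by
  obtain ⟨w, _, h1⟩ := h
  exact ((h1 x).1 hx).symm.trans ((h1 y).1 hy)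

theorem IsT_closed {F : Set Edg} {C : Finset Vtx} (h : IsT N a F C) {x y : Vtx} (hx : x ∈ C)
    (hy : Reach (F ∩ ↑(TE N a)) x y) : y ∈ C := by
  obtain ⟨w, _, h1⟩ := h
  exact (h1 y).2 (((h1 x).1 hx).trans hy)

/-- a cluster which contains a vertex of `T` is contained in `T` -/
theorem IsT_box {F : Set Edg} {C : Finset Vtx} (h : IsT N a F C) {x y : Vtx} (hx : x ∈ C)
    (hxb : |x.1| ≤ (N * a : ℕ) ∧ |x.2| ≤ (2 * N * a : ℕ)) (hy : y ∈ C) :
    |y.1| ≤ (N * a : ℕ) ∧ |y.2| ≤ (2 * N * a : ℕ) := by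
  have h1 := IsT_reach h hx hy
  induction h1 with
  | refl => exact hxb
  | @tail u u' hu hs ih =>
    obtain ⟨e, he, hee⟩ := hs
    exact TE_end he.2 (Ends.symm hee)

variable {M B : ℕ} {c0 E0 t : ℝ}

theorem core_box {x : Vtx} (hr : 64 * r ≤ N) (hx : sd x (0, 0) ≤ (r * a : ℕ)) :
    |x.1| ≤ (N * a : ℕ) ∧ |x.2| ≤ (2 * N * a : ℕ) := by
  rw [sd_le_iff] at hx
  simp only [sub_zero] at hx
  have h1 : r * a ≤ N * a := Nat.mul_le_mul_right _ (by omega)
  have h2 : r * a ≤ 2 * N * a := Nat.mul_le_mul_right _ (by omega)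
  constructor <;> omega

theorem GoodC_core (ha : 1 ≤ a) (hc0 : 0 < c0) {C : Finset Vtx}
    (h : GoodC M B N r c0 E0 t a Z yh C) : ∃ w ∈ C, sd w (0, 0) ≤ (r * a : ℕ) := by
  obtain ⟨-, V, hV, h1, -, h2⟩ := h
  have ha' : (0:ℝ) < a := by exact_mod_cast ha
  have : 0 < (V.card : ℝ) := lt_of_lt_of_le (mul_pos hc0 (Real.rpow_pos_of_pos ha' _)) h1
  have hne : V.Nonempty := by
    rw [← Finset.card_pos]
    exact_mod_cast this
  obtain ⟨w, hw⟩ := hne
  exact ⟨w, hV hw, (h2 w hw).1⟩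

/-- the first edge from the cluster is far from the centre -/
theorem A2_far (h : WD S k A y0 X top P L W0 N a Q Hk) {C : Finset Vtx} {F : Finset Edg}
    (hbox : ∀ y ∈ C, |y.1| ≤ (N * a : ℕ) ∧ |y.2| ≤ (2 * N * a : ℕ))
    (hA2 : A2 S k P W0 L Hk N r a Z yh C F) : ∃ c ∈ C, (8 * r * a : ℕ) < sd c (0, 0) := by
  obtain ⟨c, hc, x, hx, hr⟩ := hA2
  refine ⟨c, hc, ?_⟩
  obtain ⟨b1, b2⟩ := hbox c hc
  have hcx : c ≠ x := by
    rintro rfl
    have hA := h.hA
    rw [abs_le] at b1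
    refine (h.FR c ?_ ?_ ?_).2.2 hx
    · push_cast at *; nlinarith [Int.natCast_nonneg a]
    · push_cast at *; nlinarith [Int.natCast_nonneg a]
    · push_cast at *; nlinarith [Int.natCast_nonneg a]
  rcases Relation.ReflTransGen.cases_head hr with h1 | ⟨u, ⟨e, he, hee⟩, _⟩
  · exact absurd h1 hcx
  · have heD : e ∈ D0 S k P W0 Hk N r a Z yh C := by exact_mod_cast he.2
    unfold D0 at heD
    rw [Finset.mem_union] at heD
    rcases heD with heD | heD
    · have h2 := mem_ES.1 heD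
      have h3 : c ∉ WS N r a Z yh := by
        rcases hee with ⟨h4, _⟩ | ⟨_, h4⟩
        · rw [← h4]; exact h2.2.2.1
        · rw [← h4]; exact h2.2.2.2
      by_contra hcon
      exact h3 (Or.inr (Or.inr (by omega)))
    · exfalso
      have h2 := mem_HK.1 heD
      have hcu : c = src e ∨ c = tgt e := by
        rcases hee with ⟨h4, _⟩ | ⟨_, h4⟩
        · exact Or.inl h4.symm
        · exact Or.inr h4.symm
      have hPc : P c := by
        rcases hcu with h5 | h5
        · rw [h5]; exact h2.2.1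
        · rw [h5]; exact h2.2.2
      have h3 := (h.hk e h2.1.1 c hcu hPc).1
      have ha := h.a64
      rw [abs_le] at b1 b2
      rw [lt_abs] at h3
      push_cast at *
      rcases h3 with h3 | h3 | h3 <;> nlinarith [Int.natCast_nonneg a, b1.1, b1.2, b2.1, b2.2]

theorem dis_window (h : WD S k A y0 X top P L W0 N a Q Hk) (hr1 : 8 ≤ r) (hr : 64 * r ≤ N)
    (hc0 : 0 < c0) {C C' : Finset Vtx} {F : Finset Edg} (hF : F ⊆ UU S k W0)
    (hne : C ≠ C') (hg' : GoodC M B N r c0 E0 t a Z yh C')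
    (h1 : IsT N a ↑F C) (h1' : IsT N a ↑F C') (h2' : A2 S k P W0 L Hk N r a Z yh C' F)
    (h3 : Trp S k P W0 Hk N r a Q Z yh C F) : False := by
  have ha := h.a64
  obtain ⟨w, hw, hwr⟩ := GoodC_core (by omega) hc0 hg'
  have hbox : ∀ y ∈ C', |y.1| ≤ (N * a : ℕ) ∧ |y.2| ≤ (2 * N * a : ℕ) := fun y hy =>
    IsT_box h1' hw (core_box hr hwr) hy
  obtain ⟨c, hc, hc8⟩ := A2_far (r := r) (Z := Z) (yh := yh) h hbox h2'
  have hwQ : sd w (0, 0) ≤ (Q * a : ℕ) := by
    have hQ := h.hQ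
    have : r * a ≤ Q * a := Nat.mul_le_mul_right _ (by omega)
    omega
  set Tp := UU S k W0 \ (tE N a C ∪ D0 S k P W0 Hk N r a Z yh C) with hTp
  have key : ∀ x, Reach ((↑F : Set Edg) ∩ ↑(TE N a)) w x →
      Reach ((↑F : Set Edg) ∩ ↑Tp) w x ∨
      ∃ y, Reach ((↑F : Set Edg) ∩ ↑Tp) w y ∧ (8 * r * a : ℕ) < sd y (0, 0) := by
    intro x hx
    induction hx with
    | refl => exact Or.inl (Reach.refl _ _)
    | @tail x x' hx hs ih =>
      rcases ih with ih | ih
      · by_cases hx8 : (8 * r * a : ℕ) < sd x (0, 0)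
        · exact Or.inr ⟨x, ih, hx8⟩
        · left
          obtain ⟨e, he, hee⟩ := hs
          have hxC : x ∈ C' := IsT_closed h1' hw hx
          have hx'C : x' ∈ C' := IsT_closed h1' hw (hx.tail ⟨e, he, hee⟩)
          have hxnC : x ∉ C := fun h5 => IsT_disj h1 h1' hne h5 hxC
          have hx'nC : x' ∉ C := fun h5 => IsT_disj h1 h1' hne h5 hx'C
          have hWS : x ∈ WS N r a Z yh := Or.inr (Or.inr (by omega))
          refine ih.trans (Adj.reach ⟨e, ⟨he.1, ?_⟩, hee⟩)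
          rw [mem_coe, hTp, Finset.mem_sdiff, Finset.mem_union, not_or]
          refine ⟨hF (by exact_mod_cast he.1), fun h5 => ?_, fun h5 => ?_⟩
          · have h6 := (mem_tE.1 h5).2
            rcases hee with ⟨h7, h8⟩ | ⟨h7, h8⟩
            · rw [h7, h8] at h6
              rcases h6 with h6 | h6
              · exact hxnC h6
              · exact hx'nC h6
            · rw [h7, h8] at h6
              rcases h6 with h6 | h6
              · exact hx'nC h6
              · exact hxnC h6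
          · unfold D0 at h5
            rw [Finset.mem_union] at h5
            rcases h5 with h5 | h5
            · have h6 := mem_ES.1 h5
              rcases hee with ⟨h7, h8⟩ | ⟨h7, h8⟩
              · rw [h7] at h6; exact h6.2.2.1 hWS
              · rw [h8] at h6; exact h6.2.2.2 hWS
            · have h6 := mem_HK.1 h5
              have hxu : x = src e ∨ x = tgt e := by
                rcases hee with ⟨h7, _⟩ | ⟨_, h7⟩
                · exact Or.inl h7.symm
                · exact Or.inr h7.symm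
              have hPx : P x := by
                rcases hxu with h9 | h9
                · rw [h9]; exact h6.2.1
                · rw [h9]; exact h6.2.2
              have h7 := (h.hk e h6.1.1 x hxu hPx).1
              obtain ⟨b1, b2⟩ := hbox x hxC
              rw [abs_le] at b1 b2
              rw [lt_abs] at h7
              push_cast at *
              rcases h7 with h7 | h7 | h7 <;>
                nlinarith [Int.natCast_nonneg a, b1.1, b1.2, b2.1, b2.2]
      · exact Or.inr ih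
  have hfin : ∀ y, Reach ((↑F : Set Edg) ∩ ↑Tp) w y → (8 * r * a : ℕ) < sd y (0, 0) → False := by
    intro y hy hy8
    have h5 := h3 w y hwQ hy
    have h6 := sd_tri y w (0, 0)
    rw [sd_comm y w] at h6
    have e1 : ((8 * r * a : ℕ) : ℤ) = 8 * ((r * a : ℕ) : ℤ) := by push_cast; ring
    rw [e1] at hy8
    have h7 : (8:ℤ) * a ≤ ((r * a : ℕ) : ℤ) := by
      have : 8 * a ≤ r * a := Nat.mul_le_mul_right _ hr1
      exact_mod_cast this
    have h8 := sd_nonneg w y
    omega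
  rcases key c (IsT_reach h1' hw hc) with h5 | ⟨y, h5, h6⟩
  · exact hfin c h5 hc8
  · exact hfin y h5 h6

/-- the trap has positive probability -/
theorem Trp_prob {κ : ℝ} (hκ : ∀ n : ℕ, Win (1/2) κ n) (ha : 64 ≤ a) (C : Finset Vtx) :
    κ ^ (4 * (2 * (32 * Q) + 1) ^ 2) ≤
      PQ (1 / 2) (UU S k W0) (Trp S k P W0 Hk N r a Q Z yh C) := by
  set D := tE N a C ∪ D0 S k P W0 Hk N r a Z yh C with hD
  have e1 : PQ (1 / 2) (UU S k W0) (Trp S k P W0 Hk N r a Q Z yh C) =
      PQ (1 / 2) (UU S k W0 \ D) (Trp S k P W0 Hk N r a Q Z yh C) := by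
    apply Pr_local Finset.sdiff_subset
    intro F _
    exact Trp_local C F
  rw [e1]
  have hl : 1 ≤ a / 16 := by omega
  refine ((trap_prob (hκ (2 * (a / 16))) (N := 32 * Q) hl le_rfl 0 0 (UU S k W0 \ D)).1).trans ?_
  apply Pr_mono (okq (by norm_num) (by norm_num))
  intro F hF h1 u w hu hr
  have h2 : inR (0 - ((32 * Q : ℕ) : ℤ) * ((a / 16 : ℕ) : ℤ)) (0 + ((32 * Q : ℕ) : ℤ) * ((a / 16 : ℕ) : ℤ))
      (0 - ((32 * Q : ℕ) : ℤ) * ((a / 16 : ℕ) : ℤ)) (0 + ((32 * Q : ℕ) : ℤ) * ((a / 16 : ℕ) : ℤ)) u := by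
    rw [sd_le_iff] at hu
    simp only [sub_zero] at hu
    have h3 : a ≤ 32 * (a / 16) := by omega
    have h4 : Q * a ≤ (32 * Q) * (a / 16) := by
      calc Q * a ≤ Q * (32 * (a / 16)) := Nat.mul_le_mul_left _ h3
        _ = (32 * Q) * (a / 16) := by ring
    have h5 : ((Q * a : ℕ) : ℤ) ≤ ((32 * Q : ℕ) : ℤ) * ((a / 16 : ℕ) : ℤ) := by exact_mod_cast h4
    rw [abs_le, abs_le] at hu
    unfold inR
    omega
  have h3 := h1 u w h2 (hr.mono Set.inter_subset_left)
  have h4 : sd u w ≤ 4 * ((a / 16 : ℕ) : ℤ) := by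
    rw [sd_le_iff]; exact h3
  omega

theorem Trp_decr (C : Finset Vtx) :
    IncrE (UU S k W0) (fun F => ¬ Trp S k P W0 Hk N r a Q Z yh C F) := by
  intro F G h1 _ h3 h4
  apply h3
  intro u w hu hr
  exact h4 u w hu (hr.mono (Set.inter_subset_inter_left _ (by exact_mod_cast h1)))

open Classical in
/-- Indexing of the clusters. -/
noncomputable def TI (M B N r : ℕ) (c0 E0 t : ℝ) (a : ℕ) (Z : Finset (ℤ × ℤ)) (yh : ℤ) :
    Finset (Finset Vtx) :=
  ((Finset.Icc (-(N * a : ℕ) : ℤ) (N * a : ℕ) ×ˢ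
    Finset.Icc (-(2 * N * a : ℕ) : ℤ) (2 * N * a : ℕ)).powerset).filter
      (fun C => GoodC M B N r c0 E0 t a Z yh C)

theorem mem_TI {C : Finset Vtx} : C ∈ TI M B N r c0 E0 t a Z yh ↔
    (∀ y ∈ C, |y.1| ≤ (N * a : ℕ) ∧ |y.2| ≤ (2 * N * a : ℕ)) ∧
      GoodC M B N r c0 E0 t a Z yh C := by
  simp only [TI, Finset.mem_filter, Finset.mem_powerset]
  constructor
  · rintro ⟨h1, h2⟩
    refine ⟨fun y hy => ?_, h2⟩
    have := h1 hy
    rw [Finset.mem_product, Finset.mem_Icc, Finset.mem_Icc] at this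
    rw [abs_le, abs_le]
    exact this
  · rintro ⟨h1, h2⟩
    refine ⟨fun y hy => ?_, h2⟩
    have := h1 y hy
    rw [Finset.mem_product, Finset.mem_Icc, Finset.mem_Icc]
    rw [abs_le, abs_le] at this
    exact this

theorem window (h : WD S k A y0 X top P L W0 N a Q Hk) (hr1 : 8 ≤ r) (hr : 64 * r ≤ N)
    (hc0 : 0 < c0) {κ : ℝ} (hκ0 : 0 < κ) (hκ : ∀ n : ℕ, Win (1/2) κ n) {p cs : ℝ}
    (hcs : 0 ≤ cs)
    (hbox : p ≤ PQ (1 / 2) (TP N a) (Bev M B N r c0 E0 t a Z yh))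
    (hhook : ∀ C : Finset Vtx, (∀ x ∈ C, x ∉ rgn Z a 16) →
      (∀ y ∈ C, |y.1| ≤ (N * a : ℕ) ∧ |y.2| ≤ (2 * N * a : ℕ)) →
      cs * PQ (1 / 2) (UU S k W0) (fun F => Esc N r a Z yh C (↑F : Set Edg)) ≤
        PQ (1 / 2) (UU S k W0) (A2 S k P W0 L Hk N r a Z yh C))
    {H : Finset Edg} (hH : H ⊆ S \ UU S k W0)
    (hconn : ∀ x ∈ L, Reach (↑(H ∩ k) : Set Edg) (A, y0) x) :
    p * cs * κ ^ (4 * (2 * (32 * Q) + 1) ^ 2) *
      PQ (1 / 2) (UU S k W0) (fun G => Xc (A, y0) (↑(H ∪ G) : Set Edg)) ≤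
    PQ (1 / 2) (UU S k W0) (fun G => Xc (A, y0) (↑(H ∪ G) : Set Edg) ∧
      GdW M B c0 E0 t S k P W0 L Hk N r a Q Z yh G) := by
  classical
  have ok : Ok (fun _ : Edg => (1/2 : ℝ)) := okq (by norm_num) (by norm_num)
  have ha := h.a64
  have hES : ∀ C : Finset Vtx, ES N r a Z yh C ⊆ UU S k W0 := fun C e he =>
    tp_UU h (mem_ES.1 he).1
  refine win_prob ok (X1 := fun G => Xc (A, y0) (↑(H ∪ G) : Set Edg))
    (Gd := GdW M B c0 E0 t S k P W0 L Hk N r a Q Z yh) ?_
    (TI M B N r c0 E0 t a Z yh) (fun C => tE N a C) (fun C => D0 S k P W0 Hk N r a Z yh C)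
    (fun C _ => tE_UU h C) (fun C _ => D0_UU h C) (fun C _ => tE_D0_disj h C)
    (A1 := fun C F => IsT N a ↑F C) (A2 := fun C F => A2 S k P W0 L Hk N r a Z yh C F)
    (Tr := fun C F => Trp S k P W0 Hk N r a Q Z yh C F)
    (fun C _ F _ => IsT_local F) (fun C _ F _ => A2_local C (Finset.Subset.refl _) F)
    (fun C _ F _ => Trp_local C F) (fun C _ => Trp_decr C) ?_ ?_ (pow_nonneg hκ0.le _)
    (fun C _ => Trp_prob hκ ha C) ?_
  · intro F G h1 _ h3 h4
    apply h3
    intro w hw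
    refine h4 w (hw.mono ?_)
    exact_mod_cast Finset.union_subset_union (Finset.Subset.refl H) h1
  · rintro C hC C' hC' hne F hF ⟨⟨h1, h2, h3⟩, ⟨h1', h2', h3'⟩⟩
    exact dis_window h hr1 hr hc0 hF hne (mem_TI.1 hC').2 h1 h1' h2' h3
  · intro C hC F hF h1 h2 h3 hX
    exact ⟨det_window h hH hF C hconn h3 hX, ⟨C, (mem_TI.1 hC).2, h1, h2, h3⟩⟩
  · -- the sum
    have hstep : ∀ C ∈ TI M B N r c0 E0 t a Z yh,
        cs * PQ (1 / 2) (UU S k W0) (fun F => IsT N a (↑F : Set Edg) C ∧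
          Esc N r a Z yh C (↑F : Set Edg)) ≤
        Pr (fun _ => (1/2:ℝ)) (UU S k W0) (fun F => IsT N a (↑F : Set Edg) C) *
          Pr (fun _ => (1/2:ℝ)) (UU S k W0) (fun F => A2 S k P W0 L Hk N r a Z yh C F) := by
      intro C hC
      have e1 : PQ (1 / 2) (UU S k W0) (fun F => IsT N a (↑F : Set Edg) C ∧
          Esc N r a Z yh C (↑F : Set Edg)) =
          Pr (fun _ => (1/2:ℝ)) (UU S k W0) (fun F => IsT N a (↑F : Set Edg) C) *
          Pr (fun _ => (1/2:ℝ)) (UU S k W0) (fun F => Esc N r a Z yh C (↑F : Set Edg)) := by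
        apply Pr_indep (S := tE N a C) (T := ES N r a Z yh C) (tE_UU h C) (hES C)
        · rw [Finset.disjoint_left]
          intro e he he2
          exact (mem_ES.1 he2).2.1 he
        · intro F _
          exact IsT_local F
        · intro F _
          exact Esc_local C (Finset.Subset.refl _) F
      have h2 := hhook C (mem_TI.1 hC).2.1 (mem_TI.1 hC).1
      have h3 : 0 ≤ Pr (fun _ => (1/2:ℝ)) (UU S k W0) (fun F => IsT N a (↑F : Set Edg) C) :=
        Pr_nonneg ok _ _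
      rw [e1]
      calc cs * (Pr (fun _ => (1/2:ℝ)) (UU S k W0) (fun F => IsT N a (↑F : Set Edg) C) *
            Pr (fun _ => (1/2:ℝ)) (UU S k W0) (fun F => Esc N r a Z yh C (↑F : Set Edg)))
          = Pr (fun _ => (1/2:ℝ)) (UU S k W0) (fun F => IsT N a (↑F : Set Edg) C) *
            (cs * PQ (1/2) (UU S k W0) (fun F => Esc N r a Z yh C (↑F : Set Edg))) := by ring
        _ ≤ _ := mul_le_mul_of_nonneg_left h2 h3
    have hloc : PQ (1 / 2) (UU S k W0) (Bev M B N r c0 E0 t a Z yh) =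
        PQ (1 / 2) (TP N a) (Bev M B N r c0 E0 t a Z yh) := by
      apply Pr_local (tp_UU h)
      intro F _
      unfold Bev
      apply exists_congr
      intro C
      have e1 : IsT N a (↑(F ∩ TP N a) : Set Edg) C ↔ IsT N a (↑F : Set Edg) C := by
        unfold IsT
        rw [inter_inter_of_sub (TE_TP N a)]
      rw [e1, Esc_local C (D := TP N a) (fun e he => (mem_ES.1 he).1) F]
    have hun : PQ (1 / 2) (UU S k W0) (Bev M B N r c0 E0 t a Z yh) ≤
        ∑ C ∈ TI M B N r c0 E0 t a Z yh, PQ (1 / 2) (UU S k W0)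
          (fun F => IsT N a (↑F : Set Edg) C ∧ Esc N r a Z yh C (↑F : Set Edg)) := by
      unfold PQ Pr
      rw [← Ex_sum]
      apply Ex_mono ok
      intro F _
      by_cases hB : Bev M B N r c0 E0 t a Z yh F
      · obtain ⟨C, hT, hG, hE⟩ := hB
        have hC : C ∈ TI M B N r c0 E0 t a Z yh := by
          rw [mem_TI]
          refine ⟨?_, hG⟩
          obtain ⟨w, hw, hwr⟩ := GoodC_core (by omega) hc0 hG
          exact fun y hy => IsT_box hT hw (core_box hr hwr) hy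
        calc ind (Bev M B N r c0 E0 t a Z yh F) ≤ 1 := ind_le_one _
          _ = ind (IsT N a (↑F : Set Edg) C ∧ Esc N r a Z yh C (↑F : Set Edg)) :=
              (ind_of ⟨hT, hE⟩).symm
          _ ≤ _ := Finset.single_le_sum (f := fun C => ind (IsT N a (↑F : Set Edg) C ∧
              Esc N r a Z yh C (↑F : Set Edg))) (fun _ _ => ind_nonneg _) hC
      · rw [ind_not_of hB]
        exact Finset.sum_nonneg (fun _ _ => ind_nonneg _)
    calc p * cs = cs * p := by ring
      _ ≤ cs * PQ (1 / 2) (TP N a) (Bev M B N r c0 E0 t a Z yh) :=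
          mul_le_mul_of_nonneg_left hbox hcs
      _ = cs * PQ (1 / 2) (UU S k W0) (Bev M B N r c0 E0 t a Z yh) := by rw [hloc]
      _ ≤ cs * ∑ C ∈ TI M B N r c0 E0 t a Z yh, PQ (1 / 2) (UU S k W0)
          (fun F => IsT N a (↑F : Set Edg) C ∧ Esc N r a Z yh C (↑F : Set Edg)) :=
          mul_le_mul_of_nonneg_left hun hcs
      _ = ∑ C ∈ TI M B N r c0 E0 t a Z yh, cs * PQ (1 / 2) (UU S k W0)
          (fun F => IsT N a (↑F : Set Edg) C ∧ Esc N r a Z yh C (↑F : Set Edg)) := by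
          rw [Finset.mul_sum]
      _ ≤ _ := Finset.sum_le_sum hstep

end

end Pool.Agent.V5helper99.OB
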