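import Pool.Agent.V5helper99.OB.Window2

/-!
# One window: the good event gives many vertices which are accessible by thick chains
-/

set_option autoImplicit false
set_option maxHeartbeats 4000000

namespace Pool.Agent.V5helper99.OB

open H974 H12S Finset H984P H984N

/-- Points which keep away from the cluster of `v`, seen from `w`. -/
def Aw (M B a : ℕ) (v w : Vtx) (F : Set Edg) : Set Vtx :=
  {x | ∀ d, Reach F v d →
    (sd x w ^ B ≤ (M : ℤ) * (a : ℤ) ^ (B - 1) * (sd x d + 1) ∨ (a : ℤ) ≤ sd x d)}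

/-- A thick chain from `w` to the left. -/
def LCh (M B a R m : ℕ) (v w : Vtx) (F : Set Edg) : Prop :=
  ∃ y : Vtx, y.1 = -(m : ℤ) ∧ Relation.ReflTransGen
    (fun x y => sd x y ≤ 1 ∧ y ∈ Aw M B a v w F ∧ sd y (0, 0) ≤ (R : ℤ) + m) w y

/-- Many vertices of the cluster of `v` which are accessible by thick chains. -/
def WitA (M B r : ℕ) (c0 E0 t : ℝ) (a R : ℕ) (v : Vtx) (F : Set Edg) : Prop :=
  ∃ V : Finset Vtx, (∀ w ∈ V, Reach F v w) ∧ c0 * (a : ℝ) ^ (4 / 3 : ℝ) ≤ (V.card : ℝ) ∧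
    (∑ u ∈ V, ∑ w ∈ V, ((max (sd u w) 1 : ℤ) : ℝ) ^ (-t)) ≤ E0 * (a : ℝ) ^ (8 / 3 - t) ∧
    ∀ w ∈ V, sd w (0, 0) ≤ (r * a : ℕ) ∧ ∀ m : ℕ, R ≤ m → LCh M B a R m v w F

/-- The region of the corridor. -/
def RG (A : ℤ) (N r a : ℕ) (Z : Finset (ℤ × ℤ)) (yh : ℤ) : Set Vtx :=
  {x | (A ≤ x.1 ∧ x.1 ≤ ((N + 8) * a : ℕ) ∧ |x.2| ≤ ((2 * N + 11) * a : ℕ)) ∧
    (x ∈ rgn Z a 3 ∨ (|x.1 + (N * a : ℕ)| ≤ (15 * a : ℕ) ∧ |x.2 - yh * a| ≤ (8 * a : ℕ)) ∨
      sd x (0, 0) ≤ (8 * r * a : ℕ) - a ∨ x.1 ≤ -((N + 12) * a : ℕ))}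

theorem rtg_mono {α : Type*} {r p : α → α → Prop} {a b : α} (h : Relation.ReflTransGen r a b)
    (hrp : ∀ x y, r x y → p x y) : Relation.ReflTransGen p a b := by
  induction h with
  | refl => exact Relation.ReflTransGen.refl
  | tail _ hs ih => exact ih.tail (hrp _ _ hs)

theorem rgn_nb {Z : Finset (ℤ × ℤ)} {a j j' : ℕ} {x y : Vtx} {s : ℤ} (hx : x ∈ rgn Z a j)
    (hs : sd x y ≤ s) (h : (j * a : ℕ) + s ≤ (j' * a : ℕ)) : y ∈ rgn Z a j' := by
  obtain ⟨z, hz, h1, h2⟩ := hx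
  refine ⟨z, hz, ?_, ?_⟩
  · rw [sd_le_iff] at hs
    have := abs_sub_le y.1 x.1 (z.1 * a)
    rw [abs_sub_comm y.1 x.1] at this
    omega
  · rw [sd_le_iff] at hs
    have := abs_sub_le y.2 x.2 (z.2 * a)
    rw [abs_sub_comm y.2 x.2] at this
    omega

theorem mem_TE_of {N a : ℕ} {e : Edg} {u u' : Vtx} (h : Ends e u u')
    (hu : |u.1| ≤ (N * a : ℕ) ∧ |u.2| ≤ (2 * N * a : ℕ))
    (hu' : |u'.1| ≤ (N * a : ℕ) ∧ |u'.2| ≤ (2 * N * a : ℕ)) : e ∈ TE N a := by
  obtain ⟨x, y, b⟩ := e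
  unfold TE
  unfold Ends at h
  rw [abs_le, abs_le] at hu hu'
  cases b
  · rw [mem_RE_false]
    simp only [src_mk, tgt_false] at h
    rcases h with ⟨rfl, rfl⟩ | ⟨rfl, rfl⟩ <;> simp only at hu hu' <;> omega
  · rw [mem_RE_true]
    simp only [src_mk, tgt_true] at h
    rcases h with ⟨rfl, rfl⟩ | ⟨rfl, rfl⟩ <;> simp only at hu hu' <;> omega

section
variable {S k : Finset Edg} {A y0 X top : ℤ} {P : Vtx → Prop} {L W0 : Set Vtx}
  {N a Q : ℕ} {Hk : Finset Edg} {r : ℕ} {Z : Finset (ℤ × ℤ)} {yh : ℤ}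
  {M B : ℕ} {c0 E0 t : ℝ}

theorem v_high (h : WD S k A y0 X top P L W0 N a Q Hk) : ((2 * N + 12) * a : ℕ) < |y0| := by
  by_contra hcon
  refine (h.FR (A, y0) le_rfl ?_ (by simp only; omega)).2.2 h.sdd.v0
  have := h.hA
  simp only
  omega

theorem RG_step (h : WD S k A y0 X top P L W0 N a Q Hk) (hr : 64 * r ≤ N) (hr1 : 1 ≤ r)
    {H G : Finset Edg} (hH : H ⊆ S \ UU S k W0) (hG : G ⊆ UU S k W0) {C : Finset Vtx}
    (hpat : Pat N Z yh)
    (hCa : ∀ x ∈ C, x ∉ rgn Z a 16) (hbox : ∀ y ∈ C, |y.1| ≤ (N * a : ℕ) ∧ |y.2| ≤ (2 * N * a : ℕ))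
    (hT : IsT N a ↑G C) (hX : Xc (A, y0) (↑(H ∪ G) : Set Edg)) {e : Edg} {u u' : Vtx}
    (he : e ∈ (↑(H ∪ G) : Set Edg)) (hue : Ends e u u')
    (hu : Reach (↑(H ∪ G) : Set Edg) (A, y0) u) (huC : u ∉ C) (hR : u ∈ RG A N r a Z yh) :
    e ∈ (↑(UU S k W0 \ (tE N a C ∪ D0 S k P W0 Hk N r a Z yh C)) : Set Edg) ∧ u' ∉ C := by
  have ha := h.a64
  have hu'r : Reach (↑(H ∪ G) : Set Edg) (A, y0) u' := hu.trans (Ends.reach hue he)
  have hu'A : A ≤ u'.1 := (hX u' hu'r).1
  have hs := hue.sd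
  rw [sd_le_iff, abs_le, abs_le] at hs
  obtain ⟨⟨r1, r2, r3⟩, r4⟩ := hR
  rw [abs_le] at r3
  have e1 : (((N + 12) * a : ℕ) : ℤ) = N * a + 12 * a := by push_cast; ring
  have e2 : (((2 * N + 12) * a : ℕ) : ℤ) = 2 * (N * a) + 12 * a := by push_cast; ring
  have e3 : (((N + 8) * a : ℕ) : ℤ) = N * a + 8 * a := by push_cast; ring
  have e4 : (((2 * N + 11) * a : ℕ) : ℤ) = 2 * (N * a) + 11 * a := by push_cast; ring
  have e5 : ((N * a : ℕ) : ℤ) = N * a := by push_cast; ring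
  have e6 : (((2 * N * a : ℕ)) : ℤ) = 2 * (N * a) := by push_cast; ring
  have e7 : ((8 * r * a : ℕ) : ℤ) = 8 * (r * a) := by push_cast; ring
  have e8 : (64 : ℤ) * (r * a) ≤ N * a := by
    have : 64 * r * a ≤ N * a := Nat.mul_le_mul_right _ hr
    have h2 : (((64 * r * a : ℕ)) : ℤ) ≤ ((N * a : ℕ) : ℤ) := by exact_mod_cast this
    push_cast at h2
    linarith
  have e9 : (a : ℤ) ≤ r * a := by
    have : 1 * a ≤ r * a := Nat.mul_le_mul_right _ hr1
    have h2 : ((1 * a : ℕ) : ℤ) ≤ ((r * a : ℕ) : ℤ) := by exact_mod_cast this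
    push_cast at h2
    linarith
  have hFu := h.FR u r1 (by rw [e1]; rw [e3] at r2; omega) (by rw [abs_le, e2]; rw [e4] at r3; omega)
  have hFu' := h.FR u' hu'A (by rw [e1]; rw [e3] at r2; omega)
    (by rw [abs_le, e2]; rw [e4] at r3; omega)
  have heS : e ∈ S := by
    rw [mem_coe, Finset.mem_union] at he
    rcases he with he | he
    · exact (Finset.mem_sdiff.1 (hH he)).1
    · exact (mem_UU.1 (hG he)).1.1
  have hek : e ∉ k := by
    intro hek
    have h1 := h.sdd.exv e hek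
    rcases hue with ⟨h2, h3⟩ | ⟨h2, h3⟩
    · rw [h2] at h1; exact hFu.2.2 (h1.1 hFu.2.1)
    · rw [h3] at h1; exact hFu.2.2 (h1.2 hFu.2.1)
  have heU : e ∈ UU S k W0 := by
    rw [mem_UU]
    exact ⟨⟨heS, hek⟩, hue.all (p := fun x => x ∈ W0) hFu.1 hFu'.1⟩
  have heG : e ∈ (↑G : Set Edg) := by
    rw [mem_coe, Finset.mem_union] at he
    rcases he with he | he
    · exact absurd heU (Finset.mem_sdiff.1 (hH he)).2
    · exact he
  have hTE : e ∈ TE N a → u' ∉ C := by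
    intro h1 h2
    exact huC (IsT_closed hT h2 (Ends.reach hue.symm ⟨heG, h1⟩))
  have hmth : (-(N : ℤ), yh) ∈ Z := hpat.mth
  have hu'C : u' ∉ C := by
    rcases r4 with r4 | r4 | r4 | r4
    · intro h5
      exact hCa u' h5 (rgn_nb r4 hue.sd (by push_cast; omega))
    · intro h5
      refine hCa u' h5 ⟨(-(N : ℤ), yh), hmth, ?_, ?_⟩
      · rw [abs_le] at r4 ⊢
        simp only
        rw [e5] at r4
        push_cast at *
        constructor <;> nlinarith [r4.1.1, r4.1.2]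
      · rw [abs_le, abs_le] at r4
        rw [abs_le]
        simp only
        push_cast at *
        constructor <;> omega
    · rw [sd_le_iff, abs_le, abs_le] at r4
      simp only [sub_zero] at r4
      rw [e7] at r4
      refine hTE (mem_TE_of hue ?_ ?_)
      · rw [abs_le, abs_le, e5, e6]; omega
      · rw [abs_le, abs_le, e5, e6]; omega
    · intro h5
      have := (hbox u' h5).1
      rw [abs_le, e5] at this
      rw [e1] at r4
      omega
  refine ⟨?_, hu'C⟩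
  rw [mem_coe, Finset.mem_sdiff, Finset.mem_union, not_or]
  refine ⟨heU, fun h5 => ?_, fun h5 => ?_⟩
  · rcases (mem_tE.1 h5).2 with h6 | h6
    · rcases hue with ⟨h7, h8⟩ | ⟨h7, h8⟩
      · rw [h7] at h6; exact huC h6
      · rw [h7] at h6; exact hu'C h6
    · rcases hue with ⟨h7, h8⟩ | ⟨h7, h8⟩
      · rw [h8] at h6; exact hu'C h6
      · rw [h8] at h6; exact huC h6
  · unfold D0 at h5
    rw [Finset.mem_union] at h5
    rcases h5 with h5 | h5
    · have h6 := mem_ES.1 h5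
      have hnW : u ∉ WS N r a Z yh := by
        rcases hue with ⟨h7, h8⟩ | ⟨h7, h8⟩
        · rw [← h7]; exact h6.2.2.1
        · rw [← h8]; exact h6.2.2.2
      have hTP := TP_end h6.1 hue
      apply hnW
      rcases r4 with r4 | r4 | r4 | r4
      · exact Or.inl (rgn_nb r4 (s := 0) (by rw [sd_self]) (by push_cast; omega))
      · right; left
        refine ⟨?_, ?_⟩
        · have := r4.1; push_cast at *; omega
        · have := r4.2; push_cast at *; omega
      · right; right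
        omega
      · exfalso
        have := hTP.1
        rw [abs_le] at this
        push_cast at *
        nlinarith [this.1]
    · have h6 := mem_HK.1 h5
      have hxu : u = src e ∨ u = tgt e := by
        rcases hue with ⟨h7, _⟩ | ⟨_, h7⟩
        · exact Or.inl h7.symm
        · exact Or.inr h7.symm
      have h7 := (h.hk e h6.1.1 u hxu hFu.2.1).1
      rw [lt_abs] at h7
      rcases h7 with h7 | h7 | h7
      · push_cast at *; nlinarith
      · rw [e2] at h7; rw [e4] at r3; omega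
      · rw [e2] at h7; rw [e4] at r3; omega

/-- no vertex of the cluster of `v`, except those of `C`, is in the corridor -/
theorem RG_no (h : WD S k A y0 X top P L W0 N a Q Hk) (hr : 64 * r ≤ N) (hr1 : 1 ≤ r)
    {H G : Finset Edg} (hH : H ⊆ S \ UU S k W0) (hG : G ⊆ UU S k W0) {C : Finset Vtx}
    (hpat : Pat N Z yh)
    (hCa : ∀ x ∈ C, x ∉ rgn Z a 16) (hbox : ∀ y ∈ C, |y.1| ≤ (N * a : ℕ) ∧ |y.2| ≤ (2 * N * a : ℕ))
    (hT : IsT N a ↑G C) (hTr : Trp S k P W0 Hk N r a Q Z yh C G)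
    (hX : Xc (A, y0) (↑(H ∪ G) : Set Edg)) {d : Vtx}
    (hd : Reach (↑(H ∪ G) : Set Edg) (A, y0) d)
    (hR : ∀ u, 4 * sd d u ≤ a → A ≤ u.1 → u ∈ RG A N r a Z yh) : d ∈ C := by
  by_contra hdC
  have ha := h.a64
  have hdA : A ≤ d.1 := (hX d hd).1
  have hdR := hR d (by rw [sd_self]; omega) hdA
  have hdQ : sd d (0, 0) ≤ (Q * a : ℕ) := by
    obtain ⟨⟨r1, r2, r3⟩, -⟩ := hdR
    have hQ := h.hQ
    have hAQ := h.hAQ
    have h1 : ((2 * N + 11) * a : ℕ) ≤ Q * a := Nat.mul_le_mul_right _ (by omega)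
    have h2 : ((N + 8) * a : ℕ) ≤ Q * a := Nat.mul_le_mul_right _ (by omega)
    rw [sd_le_iff]
    simp only [sub_zero]
    rw [abs_le] at r3 ⊢
    constructor
    · omega
    · rw [abs_le]; omega
  have hHG : (↑(H ∪ G) : Set Edg) ∩ ↑(UU S k W0 \ (tE N a C ∪ D0 S k P W0 Hk N r a Z yh C)) ⊆
      ↑G ∩ ↑(UU S k W0 \ (tE N a C ∪ D0 S k P W0 Hk N r a Z yh C)) := by
    rintro g ⟨hg, hg2⟩
    refine ⟨?_, hg2⟩
    rw [mem_coe, Finset.mem_union] at hg
    rcases hg with hg | hg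
    · exfalso
      exact (Finset.mem_sdiff.1 (hH hg)).2 (Finset.mem_sdiff.1 (by exact_mod_cast hg2)).1
    · exact hg
  have h1 := trapped (C := ↑C) (K := (a : ℤ) / 4) (v := (A, y0)) hd (by exact_mod_cast hdC)
    (Tp := ↑(UU S k W0 \ (tE N a C ∪ D0 S k P W0 Hk N r a Z yh C)))
    (by
      intro e he u u' hue hu huC hdu
      have h2 : u ∈ RG A N r a Z yh := hR u (by omega) (hX u hu).1
      have h3 := RG_step h hr hr1 hH hG hpat hCa hbox hT hX he hue hu (by exact_mod_cast huC) h2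
      exact ⟨h3.1, by exact_mod_cast h3.2⟩)
    (by
      intro w hw
      have := hTr d w hdQ (hw.mono hHG)
      omega)
  have h2 := v_high h
  obtain ⟨⟨r1, r2, r3⟩, -⟩ := hdR
  rw [sd_le_iff] at h1
  have h3 : |y0| ≤ |d.2| + |d.2 - y0| := by
    have := abs_sub_abs_le_abs_sub y0 d.2
    rw [abs_sub_comm y0 d.2] at this
    omega
  have h4 := h1.2
  simp only at h4
  have e1 : (((2 * N + 12) * a : ℕ) : ℤ) = ((2 * N + 11) * a : ℕ) + a := by push_cast; ring
  rw [e1] at h2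
  omega

theorem witness (h : WD S k A y0 X top P L W0 N a Q Hk) (hr : 64 * r ≤ N) (hr1 : 8 ≤ r)
    (hc0 : 0 < c0) (hpat : Pat N Z yh)
    {H G : Finset Edg} (hH : H ⊆ S \ UU S k W0) (hG : G ⊆ UU S k W0)
    (hconn : ∀ x ∈ L, Reach (↑(H ∩ k) : Set Edg) (A, y0) x)
    (hX : Xc (A, y0) (↑(H ∪ G) : Set Edg))
    (hGd : GdW M B c0 E0 t S k P W0 L Hk N r a Q Z yh G) :
    WitA M B r c0 E0 t a (Q * a) (A, y0) (↑(H ∪ G) : Set Edg) := by
  obtain ⟨C, hGC, hT, hA2, hTr⟩ := hGd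
  have ha := h.a64
  have hQ := h.hQ
  obtain ⟨w0, hw0, hw0r⟩ := GoodC_core (by omega) hc0 hGC
  have hbox : ∀ y ∈ C, |y.1| ≤ (N * a : ℕ) ∧ |y.2| ≤ (2 * N * a : ℕ) := fun y hy =>
    IsT_box hT hw0 (core_box hr hw0r) hy
  obtain ⟨hCa, V, hVC, hV1, hV2, hV3⟩ := hGC
  have hno := fun d hd hR => RG_no (d := d) h hr (by omega) hH hG hpat hCa hbox hT hTr hX hd hR
  have e5 : ((N * a : ℕ) : ℤ) = N * a := by push_cast; ring
  have e1 : (((N + 12) * a : ℕ) : ℤ) = N * a + 12 * a := by push_cast; ring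
  have e3 : (((N + 8) * a : ℕ) : ℤ) = N * a + 8 * a := by push_cast; ring
  have e4 : (((2 * N + 11) * a : ℕ) : ℤ) = 2 * (N * a) + 11 * a := by push_cast; ring
  have e6 : ((8 * r * a : ℕ) : ℤ) = 8 * (r * a) := by push_cast; ring
  have e6' : ((4 * r * a : ℕ) : ℤ) = 4 * (r * a) := by push_cast; ring
  have e8 : (64 : ℤ) * (r * a) ≤ N * a := by
    have : 64 * r * a ≤ N * a := Nat.mul_le_mul_right _ hr
    have h2 : (((64 * r * a : ℕ)) : ℤ) ≤ ((N * a : ℕ) : ℤ) := by exact_mod_cast this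
    push_cast at h2
    linarith
  have e9 : (8 : ℤ) * a ≤ r * a := by
    have : 8 * a ≤ r * a := Nat.mul_le_mul_right _ hr1
    have h2 : ((8 * a : ℕ) : ℤ) ≤ ((r * a : ℕ) : ℤ) := by exact_mod_cast this
    push_cast at h2
    linarith
  have e10 : (2 * N + 20 : ℤ) * a ≤ ((Q * a : ℕ) : ℤ) := by
    have : (2 * N + 20) * a ≤ Q * a := Nat.mul_le_mul_right _ hQ
    have h2 : (((2 * N + 20) * a : ℕ) : ℤ) ≤ ((Q * a : ℕ) : ℤ) := by exact_mod_cast this
    push_cast at h2 ⊢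
    exact h2
  have e10' : 2 * ((N : ℤ) * a) + 20 * a ≤ ((Q * a : ℕ) : ℤ) := by linarith
  have hA := h.hA
  -- the cluster `C` is connected to `v`
  have hC : ∀ c ∈ C, Reach (↑(H ∪ G) : Set Edg) (A, y0) c := by
    intro c hc
    obtain ⟨c', hc', x, hx, hr'⟩ := hA2
    have h1 : Reach (↑(H ∪ G) : Set Edg) (A, y0) x := (hconn x hx).mono (by
      intro e he
      rw [mem_coe, Finset.mem_inter] at he
      rw [mem_coe]
      exact Finset.mem_union_left _ he.1)
    have hGs : (↑G : Set Edg) ⊆ ↑(H ∪ G) := by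
      intro e he
      rw [mem_coe] at he ⊢
      exact Finset.mem_union_right _ he
    have h2 : Reach (↑(H ∪ G) : Set Edg) c' x := hr'.mono (Set.inter_subset_left.trans hGs)
    have h3 : Reach (↑(H ∪ G) : Set Edg) c' c :=
      (IsT_reach hT hc' hc).mono (Set.inter_subset_left.trans hGs)
    exact h1.trans (h2.symm.trans h3)
  have hyh : |yh| ≤ N := (hpat.bd _ hpat.mth).2
  -- the points of `Ky`
  have hKy : ∀ w, ∀ x ∈ Ky M B r a Z C w, x ∈ Aw M B a (A, y0) w (↑(H ∪ G) : Set Edg) := by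
    intro w x hx d hd
    by_cases hdC : d ∈ C
    · exact Or.inl (hx.2 d hdC)
    · right
      by_contra hcon
      apply hdC
      apply hno d hd
      intro u hu huA
      have hxu : 4 * sd x u ≤ 5 * a := by
        have := sd_tri x d u
        omega
      rcases hx.1 with h1 | h1
      · have h2 : sd u (0, 0) ≤ (8 * r * a : ℕ) - a := by
          have := sd_tri u x (0, 0)
          rw [sd_comm u x] at this
          rw [e6', ] at h1
          rw [e6]
          omega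
        refine ⟨?_, Or.inr (Or.inr (Or.inl h2))⟩
        rw [sd_le_iff, abs_le, abs_le, e6] at h2
        simp only [sub_zero] at h2
        rw [abs_le, e3, e4]
        omega
      · have h2 : u ∈ rgn Z a 3 := rgn_nb h1 (s := 2 * a) (by omega) (by push_cast; omega)
        refine ⟨?_, Or.inl h2⟩
        obtain ⟨z, hz, h3, h4⟩ := h2
        have h5 := hpat.bd z hz
        rw [abs_le] at h3 h4
        rw [abs_le, abs_le] at h5
        have ha0 : (0:ℤ) ≤ a := Int.natCast_nonneg a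
        have m1 : z.1 * a ≤ N * a := mul_le_mul_of_nonneg_right h5.1.2 ha0
        have m2 : z.2 * a ≤ N * a := mul_le_mul_of_nonneg_right h5.2.2 ha0
        have m3 : -((N:ℤ) * a) ≤ z.2 * a := by
          have := mul_le_mul_of_nonneg_right h5.2.1 ha0
          linarith
        rw [abs_le, e3, e4]
        push_cast at h3 h4
        refine ⟨huA, by omega, by omega, by omega⟩
  refine ⟨V, fun w hw => hC w (hVC hw), hV1, hV2, fun w hw => ⟨(hV3 w hw).1, fun m hm => ?_⟩⟩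
  obtain ⟨y, hy, hch⟩ := (hV3 w hw).2
  obtain ⟨z, hz, hy1, hy2⟩ := hy
  rw [Finset.mem_singleton] at hz
  subst hz
  simp only at hy1 hy2
  rw [abs_le] at hy1 hy2 hyh
  push_cast at hy1 hy2
  have ha0 : (0:ℤ) ≤ a := Int.natCast_nonneg a
  have m2 : yh * a ≤ N * a := mul_le_mul_of_nonneg_right hyh.2 ha0
  have m3 : -((N:ℤ) * a) ≤ yh * a := by
    have := mul_le_mul_of_nonneg_right hyh.1 ha0
    linarith
  have hym : ((Q * a : ℕ) : ℤ) ≤ m := by exact_mod_cast hm
  -- the row to the left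
  have hrow : ∀ j : ℕ, Relation.ReflTransGen (fun x y => sd x y ≤ 1 ∧
      y ∈ Aw M B a (A, y0) w (↑(H ∪ G) : Set Edg) ∧
      sd y (0, 0) ≤ ((Q * a : ℕ) : ℤ) + max (m : ℤ) (j : ℤ)) y (y.1 - j, y.2) := by
    intro j
    induction j with
    | zero => simpa using Relation.ReflTransGen.refl
    | succ j ih =>
      have hmono : ∀ {x y' : Vtx}, (sd x y' ≤ 1 ∧
          y' ∈ Aw M B a (A, y0) w (↑(H ∪ G) : Set Edg) ∧
          sd y' (0, 0) ≤ ((Q * a : ℕ) : ℤ) + max (m : ℤ) (j : ℤ)) →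
          (sd x y' ≤ 1 ∧ y' ∈ Aw M B a (A, y0) w (↑(H ∪ G) : Set Edg) ∧
          sd y' (0, 0) ≤ ((Q * a : ℕ) : ℤ) + max (m : ℤ) ((j + 1 : ℕ) : ℤ)) := by
        rintro x y' ⟨h1, h2, h3⟩
        exact ⟨h1, h2, by omega⟩
      refine (rtg_mono ih (fun _ _ => hmono)).tail ⟨?_, ?_, ?_⟩
      · rw [sd_le_iff, abs_le, abs_le]
        simp only
        push_cast
        omega
      · intro d hd
        right
        by_contra hcon
        have hdx : sd (y.1 - ((j + 1 : ℕ) : ℤ), y.2) d < a := by omega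
        have hdx' := hdx.le
        rw [sd_le_iff, abs_le, abs_le] at hdx'
        simp only at hdx'
        have hdC : d ∉ C := by
          intro hdC
          by_cases h14 : -((N:ℤ) * a) - 14 * a ≤ y.1 - ((j + 1 : ℕ) : ℤ)
          · refine hCa d hdC ⟨(-(N : ℤ), yh), hpat.mth, ?_, ?_⟩
            · rw [abs_le]
              simp only
              push_cast at *
              constructor <;> linarith [hdx'.1.1, hdx'.1.2]
            · rw [abs_le]
              simp only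
              push_cast at *
              constructor <;> linarith [hdx'.2.1, hdx'.2.2]
          · have := (hbox d hdC).1
            rw [abs_le, e5] at this
            omega
        apply hdC
        apply hno d hd
        intro u hu huA
        have hxu : 4 * sd (y.1 - ((j + 1 : ℕ) : ℤ), y.2) u ≤ 5 * a := by
          have := sd_tri (y.1 - ((j + 1 : ℕ) : ℤ), y.2) d u
          omega
        have hxu' : sd (y.1 - ((j + 1 : ℕ) : ℤ), y.2) u ≤ 2 * a := by omega
        rw [sd_le_iff, abs_le, abs_le] at hxu'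
        simp only at hxu'
        refine ⟨?_, ?_⟩
        · rw [abs_le, e3, e4]
          refine ⟨huA, ?_, ?_, ?_⟩ <;> push_cast at * <;> linarith [hxu'.1.1, hxu'.1.2, hxu'.2.1, hxu'.2.2]
        · by_cases h15 : u.1 ≤ -((N + 12) * a : ℕ)
          · exact Or.inr (Or.inr (Or.inr h15))
          · right; left
            rw [abs_le, abs_le, e5]
            rw [e1] at h15
            push_cast at *
            refine ⟨⟨by linarith, ?_⟩, ?_, ?_⟩ <;>
              linarith [hxu'.1.1, hxu'.1.2, hxu'.2.1, hxu'.2.2]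
      · rw [sd_le_iff, abs_le, abs_le]
        simp only [sub_zero]
        push_cast at *
        refine ⟨⟨?_, ?_⟩, ?_, ?_⟩
        · have : (j : ℤ) + 1 ≤ max (m : ℤ) ((j : ℤ) + 1) := le_max_right _ _
          linarith [hy1.1, hy1.2]
        · have : (j : ℤ) + 1 ≤ max (m : ℤ) ((j : ℤ) + 1) := le_max_right _ _
          linarith [hy1.1, hy1.2]
        · have : (j : ℤ) + 1 ≤ max (m : ℤ) ((j : ℤ) + 1) := le_max_right _ _
          linarith [hy2.1, hy2.2]
        · have : (j : ℤ) + 1 ≤ max (m : ℤ) ((j : ℤ) + 1) := le_max_right _ _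
          linarith [hy2.1, hy2.2]
  have hym2 : -(m : ℤ) ≤ y.1 := by linarith [hy1.1]
  obtain ⟨j, hj⟩ := Int.eq_ofNat_of_zero_le (show 0 ≤ y.1 + m by linarith)
  refine ⟨(y.1 - j, y.2), ?_, ?_⟩
  · simp only
    omega
  · refine Relation.ReflTransGen.trans ?_ (rtg_mono (hrow j) ?_)
    · refine rtg_mono hch ?_
      rintro x x' ⟨h1, h2⟩
      refine ⟨h2, hKy w x' h1, ?_⟩
      rcases h1.1 with h3 | h3
      · rw [e6'] at h3
        push_cast at *
        linarith
      · obtain ⟨z, hz, h4, h5⟩ := h3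
        have h6 := hpat.bd z hz
        rw [abs_le] at h4 h5
        rw [abs_le, abs_le] at h6
        have m1 : z.1 * a ≤ N * a := mul_le_mul_of_nonneg_right h6.1.2 ha0
        have m1' : -((N:ℤ) * a) ≤ z.1 * a := by
          have := mul_le_mul_of_nonneg_right h6.1.1 ha0
          linarith
        have m2 : z.2 * a ≤ N * a := mul_le_mul_of_nonneg_right h6.2.2 ha0
        have m3 : -((N:ℤ) * a) ≤ z.2 * a := by
          have := mul_le_mul_of_nonneg_right h6.2.1 ha0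
          linarith
        rw [sd_le_iff, abs_le, abs_le]
        simp only [sub_zero]
        push_cast at *
        refine ⟨⟨?_, ?_⟩, ?_, ?_⟩ <;> linarith [h4.1, h4.2, h5.1, h5.2]
    · rintro x x' ⟨h1, h2, h3⟩
      refine ⟨h1, h2, ?_⟩
      have hj2 : (j : ℤ) ≤ m := by
        have : y.1 ≤ 0 := by nlinarith [hy1.2, e8, e9]
        omega
      omega

end

end Pool.Agent.V5helper99.OB
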